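import Pool.Agent.Q216.GH.Scale

set_option autoImplicit false

/-!
# Averaging over the scales
-/

namespace Pool.Agent.Q216.GH

open MeasureTheory ProbabilityTheory Real Filter Topology
open Pool.Agent.Y980 Pool.Agent.Y980.DSquare
open scoped ENNReal NNReal

variable {Ω : Type*} [MeasurableSpace Ω] {P : Measure Ω} {h : ℝ → ℂ → Ω → ℝ}

/-- the configurations with a low root -/
def Low (C : ℝ) (A : Set (DSquare → ℝ)) : Set (DSquare → ℝ) := {x | x ⟨0, 0, 0⟩ ≤ -(C + 1) ∧ x ∈ A}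

theorem measurableSet_Low (C : ℝ) {A : Set (DSquare → ℝ)} (hA : MeasurableSet A) :
    MeasurableSet (Low C A) :=
  (measurableSet_le (measurable_pi_apply _) measurable_const).inter hA

/-- the field at scale `2⁻ⁿ` -/
noncomputable def fln (Q : ℝ) (h : ℝ → ℂ → Ω → ℝ) (n : ℕ) (ω : Ω) : DSquare → ℝ :=
  fld Q (scaled h ((2 : ℝ) ^ (-(n : ℤ)))) ω

/-- the event at scale `n`, for the threshold `-s` -/
def Ens (Q C : ℝ) (h : ℝ → ℂ → Ω → ℝ) (A : Set (DSquare → ℝ)) (n s : ℕ) : Set Ω :=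
  {ω | fln Q h n ω ∈ Low C A ∧ -(C + 1) ≤ -(s : ℝ) - WW Q h n ω ∧ -(s : ℝ) - WW Q h n ω ≤ -C}

theorem measurable_fln (hh : IsGFF P h) (Q : ℝ) (n : ℕ) : Measurable (fln Q h n) :=
  measurable_fld (isGFF_scaled hh (by positivity)) Q

theorem measurableSet_Ens (hh : IsGFF P h) (Q C : ℝ) {A : Set (DSquare → ℝ)} (hA : MeasurableSet A)
    (n s : ℕ) : MeasurableSet (Ens Q C h A n s) := by
  have h1 := measurable_fln hh Q n
  have h2 := measurable_WW hh Q n
  exact (h1 (measurableSet_Low C hA)).inter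
    ((measurableSet_le measurable_const (measurable_const.sub h2)).inter
      (measurableSet_le (measurable_const.sub h2) measurable_const))

omit [MeasurableSpace Ω] in
theorem ens_tile {Q C : ℝ} {A : Set (DSquare → ℝ)} (hA : A ⊆ AncE C) {n s : ℕ} {ω : Ω}
    (hω : ω ∈ Ens Q C h A n s) : (⟨n, 0, 0⟩ : DSquare) ∈ tiles (fld Q h ω) (-(s : ℝ)) := by
  obtain ⟨⟨h1, h2⟩, h3, h4⟩ := hω
  have h5 : (⟨0, 0, 0⟩ : DSquare) ∈ tiles (fln Q h n ω) (-(s : ℝ) - WW Q h n ω) := by
    rw [mem_tiles]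
    refine ⟨by linarith, fun k hk => ?_⟩
    have := hA h2 k hk
    linarith
  have h6 := (tiles_sh Q h n ω (-(s : ℝ)) ⟨0, 0, 0⟩).1 h5
  have e : sh n ⟨0, 0, 0⟩ = ⟨n, 0, 0⟩ := by unfold sh; ext <;> simp
  rwa [e] at h6

omit [MeasurableSpace Ω] in
theorem ens_disjoint {Q C : ℝ} {A : Set (DSquare → ℝ)} (hA : A ⊆ AncE C) {n n' s : ℕ}
    (hn : n ≠ n') : Disjoint (Ens Q C h A n s) (Ens Q C h A n' s) := by
  rw [Set.disjoint_left]
  intro ω h1 h2
  have t1 := ens_tile hA h1
  have t2 := ens_tile hA h2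
  have key : ∀ a : ℕ, a ≤ max n n' → (⟨a, 0, 0⟩ : DSquare) =
      anc (max n n' - a) (⟨(max n n' : ℕ), 0, 0⟩ : DSquare) := by
    intro a ha
    unfold anc
    ext
    · simp only
      rw [Nat.cast_sub ha]
      ring
    · simp
    · simp
  have := tile_unique t1 t2 (key n (le_max_left _ _)) (key n' (le_max_right _ _))
  have h3 := congrArg DSquare.n this
  simp only at h3
  exact hn (by exact_mod_cast h3)

/-- Chebyshev -/
theorem cheb (hh : IsGFF P h) {Q : ℝ} (hQ : 0 < Q) (hQ2 : Q < 2) (C : ℝ) {M n : ℕ} (hM : 0 < M)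
    (hMC : |C| ≤ Q * log 2 * M / 2) (hn1 : M ≤ n) (hn2 : n ≤ 2 * M) :
    P {ω | ¬ (0 ≤ C - WW Q h n ω ∧ C - WW Q h n ω ≤ (6 * M : ℕ))} ≤
      ENNReal.ofReal (8 / (Q ^ 2 * log 2 * M)) := by
  have hp := hh.gaussian.isProbabilityMeasure
  have hl := log_two_pos
  have hl2 := log_two_lt
  have hM0 : (0 : ℝ) < M := by exact_mod_cast hM
  have hn1' : (M : ℝ) ≤ n := by exact_mod_cast hn1
  have hn2' : (n : ℝ) ≤ 2 * M := by exact_mod_cast hn2
  set c := Q * log 2 * M / 2 with hc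
  have hc0 : 0 < c := by positivity
  have h1 := meas_ge_le_variance_div_sq (memLp_WW hh Q n) hc0
  rw [mean_WW hh, var_WW hh] at h1
  refine le_trans (measure_mono ?_) (h1.trans (ENNReal.ofReal_le_ofReal ?_))
  · intro ω hω
    simp only [Set.mem_ofPred_eq] at hω ⊢
    by_contra hcon
    push Not at hcon
    apply hω
    rw [abs_lt] at hcon
    obtain ⟨a1, a2⟩ := hcon
    have hC := abs_le.1 hMC
    have e1 : Q * log 2 * M ≤ Q * n * log 2 := by nlinarith [mul_pos hQ hl]
    have e2 : Q * n * log 2 ≤ Q * log 2 * M * 2 := by nlinarith [mul_pos hQ hl]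
    have e3 : Q * log 2 * M ≤ 2 * M := by
      have : Q * log 2 ≤ 2 := by nlinarith
      nlinarith
    constructor
    · linarith [hC.1]
    · push_cast
      linarith [hC.2]
  · rw [hc, div_le_div_iff₀ (by positivity) (by positivity)]
    have e4 : n * log 2 * (Q ^ 2 * log 2 * M) ≤ 2 * M * log 2 * (Q ^ 2 * log 2 * M) := by
      apply mul_le_mul_of_nonneg_right _ (by positivity)
      apply mul_le_mul_of_nonneg_right hn2' hl.le
    refine e4.trans (le_of_eq ?_)
    ring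

omit [MeasurableSpace Ω] in
/-- a union over the thresholds -/
theorem union_s {Q C : ℝ} {A : Set (DSquare → ℝ)} (n M : ℕ) :
    {ω | fln Q h n ω ∈ Low C A} ⊆ (⋃ s ∈ Finset.range (6 * M + 1), Ens Q C h A n s) ∪
      {ω | ¬ (0 ≤ C - WW Q h n ω ∧ C - WW Q h n ω ≤ (6 * M : ℕ))} := by
  intro ω hω
  by_cases hy : 0 ≤ C - WW Q h n ω ∧ C - WW Q h n ω ≤ (6 * M : ℕ)
  · left
    set y := C - WW Q h n ω with hy'
    simp only [Set.mem_iUnion]
    refine ⟨⌈y⌉₊, ?_, hω, ?_, ?_⟩
    · rw [Finset.mem_range]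
      have := Nat.ceil_le.2 hy.2
      omega
    · have := Nat.ceil_lt_add_one hy.1
      linarith
    · have := Nat.le_ceil y
      linarith
  · right
    exact hy

theorem sum_lower (hh : IsGFF P h) {Q : ℝ} (hQ : 0 < Q) (hQ2 : Q < 2) {C : ℝ}
    {A : Set (DSquare → ℝ)} (hA : MeasurableSet A) (hAC : A ⊆ AncE C) {p : ℝ≥0∞} (hp' : p ≠ ∞)
    (hpA : p ≤ P {ω | fld Q h ω ∈ Low C A}) {M : ℕ} (hM : 0 < M)
    (hMC : |C| ≤ Q * log 2 * M / 2) (hMp : ENNReal.ofReal (8 / (Q ^ 2 * log 2 * M)) ≤ p / 2) :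
    (M + 1) * (p / 2) ≤ ∑ s ∈ Finset.range (6 * M + 1), P (⋃ n, Ens Q C h A n s) := by
  have hp := hh.gaussian.isProbabilityMeasure
  have h1 : ∀ s, ∑ n ∈ Finset.Icc M (2 * M), P (Ens Q C h A n s) ≤ P (⋃ n, Ens Q C h A n s) := by
    intro s
    rw [← measure_biUnion_finset (fun n _ n' _ hn => ens_disjoint hAC hn)
      (fun n _ => measurableSet_Ens hh Q C hA n s)]
    exact measure_mono (Set.iUnion₂_subset_iUnion _ _)
  have h2 : ∀ n ∈ Finset.Icc M (2 * M), p / 2 ≤
      ∑ s ∈ Finset.range (6 * M + 1), P (Ens Q C h A n s) := by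
    intro n hn
    rw [Finset.mem_Icc] at hn
    refine le_trans ?_ (measure_biUnion_finset_le _ _)
    have h3 : p ≤ P {ω | fln Q h n ω ∈ Low C A} := by
      refine hpA.trans (le_of_eq ?_)
      exact prob_fld hh (isGFF_scaled hh (by positivity)) Q (measurableSet_Low C hA)
    have h4 := h3.trans ((measure_mono (union_s n M)).trans (measure_union_le _ _))
    have h5 := (cheb hh hQ hQ2 C hM hMC hn.1 hn.2).trans hMp
    have h6 : p / 2 + p / 2 ≤ P (⋃ s ∈ Finset.range (6 * M + 1), Ens Q C h A n s) + p / 2 := by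
      rw [ENNReal.add_halves]
      exact h4.trans (add_le_add_right h5 _)
    exact (ENNReal.add_le_add_iff_right (ENNReal.div_lt_top hp' (by norm_num)).ne).1 h6
  calc (M + 1) * (p / 2) = ∑ n ∈ Finset.Icc M (2 * M), p / 2 := by
        rw [Finset.sum_const, Nat.card_Icc, nsmul_eq_mul]
        congr 1
        have : 2 * M + 1 - M = M + 1 := by omega
        rw [this]
        push_cast
        rfl
    _ ≤ ∑ n ∈ Finset.Icc M (2 * M), ∑ s ∈ Finset.range (6 * M + 1), P (Ens Q C h A n s) :=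
        Finset.sum_le_sum h2
    _ = ∑ s ∈ Finset.range (6 * M + 1), ∑ n ∈ Finset.Icc M (2 * M), P (Ens Q C h A n s) :=
        Finset.sum_comm
    _ ≤ _ := Finset.sum_le_sum fun s _ => h1 s

/-- **The event happens at infinitely many thresholds**, with a probability bounded below. -/
theorem frequently_event (hh : IsGFF P h) {Q : ℝ} (hQ : 0 < Q) (hQ2 : Q < 2) {C : ℝ}
    {A : Set (DSquare → ℝ)} (hA : MeasurableSet A) (hAC : A ⊆ AncE C) {p : ℝ} (hp0 : 0 < p)
    (hpA : ENNReal.ofReal p ≤ P {ω | fld Q h ω ∈ Low C A}) :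
    ∃ᶠ s : ℕ in atTop, ENNReal.ofReal (p / 24) ≤ P (⋃ n, Ens Q C h A n s) := by
  have hp := hh.gaussian.isProbabilityMeasure
  have hl := log_two_pos
  by_contra hcon
  rw [not_frequently, eventually_atTop] at hcon
  obtain ⟨s₀, hs₀⟩ := hcon
  have e1 : ∀ᶠ M : ℕ in atTop, |C| ≤ Q * log 2 * M / 2 := by
    have : Tendsto (fun M : ℕ => (Q * log 2 / 2) * (M : ℝ)) atTop atTop :=
      tendsto_natCast_atTop_atTop.const_mul_atTop (by positivity)
    filter_upwards [this.eventually_ge_atTop |C|] with M hM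
    linarith
  have e2 : ∀ᶠ M : ℕ in atTop, 8 / (Q ^ 2 * log 2 * M) ≤ p / 2 := by
    have h1 : Tendsto (fun M : ℕ => Q ^ 2 * log 2 * (M : ℝ)) atTop atTop :=
      tendsto_natCast_atTop_atTop.const_mul_atTop (by positivity)
    exact (h1.const_div_atTop 8).eventually_le_const (by positivity)
  have e3 : ∀ᶠ M : ℕ in atTop, (s₀ : ℝ) < (p / 4) * (M : ℝ) :=
    (tendsto_natCast_atTop_atTop.const_mul_atTop (by positivity)).eventually_gt_atTop _
  obtain ⟨M, ⟨hM1, hM2⟩, hM3, hM4⟩ := ((e1.and e2).and (e3.and (eventually_gt_atTop 0))).exists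
  have h1 := sum_lower hh hQ hQ2 hA hAC (p := ENNReal.ofReal p) ENNReal.ofReal_ne_top hpA hM4 hM1
    (by
      have : ENNReal.ofReal p / 2 = ENNReal.ofReal (p / 2) := by
        rw [ENNReal.ofReal_div_of_pos (by norm_num)]; norm_num
      rw [this]
      exact ENNReal.ofReal_le_ofReal hM2)
  have h2 : ∀ s, P (⋃ n, Ens Q C h A n s) ≤
      (if s < s₀ then 1 else 0) + ENNReal.ofReal (p / 24) := by
    intro s
    split_ifs with hs
    · exact prob_le_one.trans le_self_add
    · rw [zero_add]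
      exact (not_le.1 (hs₀ s (not_lt.1 hs))).le
  have h3 : ∑ s ∈ Finset.range (6 * M + 1), P (⋃ n, Ens Q C h A n s) ≤
      (s₀ : ℝ≥0∞) + (6 * M + 1 : ℕ) * ENNReal.ofReal (p / 24) := by
    refine (Finset.sum_le_sum fun s _ => h2 s).trans ?_
    rw [Finset.sum_add_distrib, Finset.sum_const, Finset.card_range, nsmul_eq_mul]
    refine add_le_add_left ?_ _
    rw [Finset.sum_ite, Finset.sum_const_zero, add_zero, Finset.sum_const, nsmul_eq_mul, mul_one]
    have : ((Finset.range (6 * M + 1)).filter fun s => s < s₀).card ≤ s₀ := by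
      calc ((Finset.range (6 * M + 1)).filter fun s => s < s₀).card ≤ (Finset.range s₀).card := by
            apply Finset.card_le_card
            intro s hs
            rw [Finset.mem_filter] at hs
            exact Finset.mem_range.2 hs.2
        _ = s₀ := Finset.card_range _
    exact_mod_cast this
  have h4 := h1.trans h3
  have h5 : ENNReal.ofReal ((M + 1) * (p / 2)) ≤ ENNReal.ofReal (s₀ + (6 * M + 1) * (p / 24)) := by
    have a1 : ENNReal.ofReal ((M + 1) * (p / 2)) = (M + 1) * (ENNReal.ofReal p / 2) := by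
      rw [ENNReal.ofReal_mul (by positivity), ENNReal.ofReal_div_of_pos (by norm_num),
        ENNReal.ofReal_add (by positivity) (by norm_num)]
      norm_num
    have a2 : ENNReal.ofReal (s₀ + (6 * M + 1) * (p / 24)) =
        (s₀ : ℝ≥0∞) + (6 * M + 1 : ℕ) * ENNReal.ofReal (p / 24) := by
      rw [ENNReal.ofReal_add (by positivity) (by positivity), ENNReal.ofReal_natCast,
        ENNReal.ofReal_mul (by positivity)]
      congr 2
      rw [← ENNReal.ofReal_natCast]
      push_cast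
      rfl
    rw [a1, a2]
    exact h4
  rw [ENNReal.ofReal_le_ofReal_iff (by positivity)] at h5
  have hM0 : (0 : ℝ) < M := by exact_mod_cast hM4
  nlinarith

end Pool.Agent.Q216.GH
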