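import Pool.Agent.Q216.GH.Zeta

set_option autoImplicit false

/-!
# Probability of the local events
-/

namespace Pool.Agent.Q216.GH

open MeasureTheory ProbabilityTheory Real Filter Topology
open Pool.Agent.Y980 Pool.Agent.Y980.DSquare
open scoped ENNReal NNReal

/-! ### A sharp Gaussian tail -/

theorem mills_int {v : ℝ≥0} (hv : v ≠ 0) {a : ℝ} (ha : 0 < a) :
    ∫ x in Set.Ioi a, gaussianPDFReal 0 v x ≤ √v / a * exp (-(a ^ 2 / (2 * v))) := by
  have hv0 : (0 : ℝ) < v := by positivity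
  have hD : ∀ x ∈ Set.Ici a, HasDerivAt (fun x => -(v / a) * gaussianPDFReal 0 v x)
      (x / a * gaussianPDFReal 0 v x) x := by
    intro x _
    have h1 : HasDerivAt (fun x : ℝ => -(x - 0) ^ 2 / (2 * v)) (-(2 * x) / (2 * v)) x := by
      have := ((hasDerivAt_pow 2 x).neg).div_const (2 * (v : ℝ))
      refine (this.congr_deriv (by simp)).congr_of_eventuallyEq ?_
      filter_upwards with y
      simp
    have h2 := ((h1.exp).const_mul ((√(2 * π * v))⁻¹)).const_mul (-(v / a))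
    refine h2.congr_deriv ?_
    rw [gaussianPDFReal]
    field_simp
  have hpos : ∀ x ∈ Set.Ioi a, 0 ≤ x / a * gaussianPDFReal 0 v x := by
    intro x hx
    have hx' : a < x := hx
    exact mul_nonneg (by have : 0 < x := ha.trans hx'; positivity) (gaussianPDFReal_nonneg _ _ _)
  have hlim : Tendsto (fun x => -(v / a) * gaussianPDFReal 0 v x) atTop (𝓝 0) := by
    have h1 : Tendsto (fun x : ℝ => gaussianPDFReal 0 v x) atTop (𝓝 ((√(2 * π * v))⁻¹ * 0)) := by
      have h2 : Tendsto (fun x : ℝ => exp (-(x - 0) ^ 2 / (2 * v))) atTop (𝓝 0) := by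
        apply tendsto_exp_atBot.comp
        have h3 : Tendsto (fun x : ℝ => x ^ 2 / (2 * v)) atTop atTop :=
          (tendsto_pow_atTop (by norm_num)).atTop_div_const (by positivity)
        refine (tendsto_neg_atTop_atBot.comp h3).congr fun x => ?_
        simp only [Function.comp_apply, sub_zero]
        ring
      exact h2.const_mul _
    rw [mul_zero] at h1
    have := h1.const_mul (-(v / a))
    rwa [mul_zero] at this
  have hint := integral_Ioi_of_hasDerivAt_of_nonneg' hD hpos hlim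
  have hi2 := integrableOn_Ioi_deriv_of_nonneg' hD hpos hlim
  have h1 : ∫ x in Set.Ioi a, gaussianPDFReal 0 v x ≤
      ∫ x in Set.Ioi a, x / a * gaussianPDFReal 0 v x := by
    refine setIntegral_mono_on (integrable_gaussianPDFReal 0 v).integrableOn hi2
      measurableSet_Ioi fun x hx => ?_
    have hx' : a < x := hx
    have h3 : 1 ≤ x / a := by rw [le_div_iff₀ ha]; linarith
    have h4 := gaussianPDFReal_nonneg 0 v x
    nlinarith
  refine h1.trans ?_
  rw [hint, zero_sub, neg_mul, neg_neg, gaussianPDFReal]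
  have h5 : (√(2 * π * v))⁻¹ ≤ (√v)⁻¹ := by
    apply inv_anti₀ (by positivity)
    apply Real.sqrt_le_sqrt
    have : (1 : ℝ) ≤ 2 * π := by have := pi_gt_three; linarith
    nlinarith
  have h6 : (v : ℝ) / a * ((√v)⁻¹ * exp (-(a - 0) ^ 2 / (2 * v))) =
      √v / a * exp (-(a ^ 2 / (2 * v))) := by
    have hs : √(v : ℝ) * √v = v := Real.mul_self_sqrt hv0.le
    have hs0 : 0 < √(v : ℝ) := Real.sqrt_pos.2 hv0
    have e : (v : ℝ) * (√v)⁻¹ = √v := by
      rw [mul_inv_eq_iff_eq_mul₀ hs0.ne']; exact hs.symm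
    rw [show -(a - 0) ^ 2 / (2 * (v : ℝ)) = -(a ^ 2 / (2 * v)) by ring]
    calc (v : ℝ) / a * ((√v)⁻¹ * exp (-(a ^ 2 / (2 * v))))
        = ((v : ℝ) * (√v)⁻¹) / a * exp (-(a ^ 2 / (2 * v))) := by ring
      _ = _ := by rw [e]
  rw [← h6]
  refine mul_le_mul_of_nonneg_left ?_ (by positivity)
  exact mul_le_mul_of_nonneg_right h5 (exp_pos _).le

variable {Ω : Type*} [MeasurableSpace Ω] {P : Measure Ω}

/-- Mills' bound for a centered Gaussian variable -/
theorem mills {X : Ω → ℝ} (hm : Measurable X) (hX : HasGaussianLaw X P)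
    (h0 : ∫ ω, X ω ∂P = 0) {v : ℝ} (hv : Var[X; P] ≤ v) (hv' : 0 < v) {a : ℝ} (ha : 0 < a) :
    P {ω | a < X ω} ≤ ENNReal.ofReal (√v / a * exp (-(a ^ 2 / (2 * v)))) := by
  have := hX.isProbabilityMeasure
  have h1 := hX.map_eq_gaussianReal
  rw [h0] at h1
  have h2 : P {ω | a < X ω} = (P.map X) (Set.Ioi a) := by
    rw [Measure.map_apply hm measurableSet_Ioi]; rfl
  rw [h2, h1]
  set w := (Var[X; P]).toNNReal with hw
  rcases eq_or_ne w 0 with hw0 | hw0
  · rw [hw0, gaussianReal_zero_var, Measure.dirac_apply' _ measurableSet_Ioi]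
    have : (0 : ℝ) ∉ Set.Ioi a := by simp [ha.le]
    rw [Set.indicator_of_notMem this]
    exact bot_le
  · rw [gaussianReal_apply_eq_integral _ hw0]
    apply ENNReal.ofReal_le_ofReal
    refine (mills_int hw0 ha).trans ?_
    have hwv : (w : ℝ) ≤ v := by
      rw [hw, Real.coe_toNNReal _ (variance_nonneg _ _)]; exact hv
    have hw1 : (0 : ℝ) < w := by positivity
    have h3 : √(w : ℝ) ≤ √v := Real.sqrt_le_sqrt hwv
    have h4 : exp (-(a ^ 2 / (2 * w))) ≤ exp (-(a ^ 2 / (2 * v))) := by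
      apply exp_le_exp.2
      apply neg_le_neg
      exact div_le_div_of_nonneg_left (by positivity) (by positivity) (by linarith)
    exact mul_le_mul (div_le_div_of_nonneg_right h3 ha.le) h4 (exp_pos _).le (by positivity)

variable {h : ℝ → ℂ → Ω → ℝ}

theorem var_inB (hh : IsGFF P h) {N : ℕ} {i j : ℤ} (hin : InB N i j) :
    Var[sqv h ⟨N, i, j⟩; P] ≤ N * log 2 + 3 := by
  have hp := hh.gaussian.isProbabilityMeasure
  rw [← covariance_self (measurable_sqv hh _).aemeasurable, cov_sq hh, sA_self]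
  have h1 := sN_inB hin
  have h2 := log_two_lt
  push_cast
  nlinarith

/-! ### The events -/

/-- the ancestors of the root are above `-C` -/
def AncE (C : ℝ) : Set (DSquare → ℝ) := {x | ∀ k : ℕ, 0 < k → -C < x (anc k ⟨0, 0, 0⟩)}

/-- every corner chain gets below `u` -/
def CornerE (u : ℝ) : Set (DSquare → ℝ) :=
  {x | ∀ (n : ℕ) (i j : ℤ), InB n i j → ∃ k : ℕ, x ⟨(n + k : ℕ), i * 2 ^ k, j * 2 ^ k⟩ ≤ u}

/-- many chains survive for ever -/
def SurvE (D : ℕ → Finset (ℤ × ℤ)) (C : ℝ) (K m : ℕ) : Set (DSquare → ℝ) :=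
  {x | ∀ n, m ≤ n → K ≤ (surv D C m n x).card}

/-- no alive squares of level `N` on the grid of level `m` -/
def NoE (u : ℝ) (m N : ℕ) : Set (DSquare → ℝ) := {x | NoAlive x u m N}

/-- no alive points on the grids -/
def NoAllE (u : ℝ) : Set (DSquare → ℝ) := {x | ∀ m' : ℕ, ∃ N', m' ≤ N' ∧ NoAlive x u m' N'}

theorem anc_root (k : ℕ) : anc k (⟨0, 0, 0⟩ : DSquare) = ⟨-(k : ℤ), 0, 0⟩ := by
  unfold anc
  ext <;> simp

theorem measurableSet_AncE (C : ℝ) : MeasurableSet (AncE C) := by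
  have : AncE C = ⋂ (k : ℕ) (_ : 0 < k), {x : DSquare → ℝ | -C < x (anc k ⟨0, 0, 0⟩)} := by
    ext x; simp [AncE]
  rw [this]
  exact MeasurableSet.iInter fun k => MeasurableSet.iInter fun _ =>
    measurableSet_lt measurable_const (measurable_pi_apply _)

theorem measurableSet_CornerE (u : ℝ) : MeasurableSet (CornerE u) := by
  have : CornerE u = ⋂ (n : ℕ) (i : ℤ) (j : ℤ) (_ : InB n i j),
      ⋃ k : ℕ, {x : DSquare → ℝ | x ⟨(n + k : ℕ), i * 2 ^ k, j * 2 ^ k⟩ ≤ u} := by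
    ext x; simp [CornerE]
  rw [this]
  exact MeasurableSet.iInter fun n => MeasurableSet.iInter fun i => MeasurableSet.iInter fun j =>
    MeasurableSet.iInter fun _ => MeasurableSet.iUnion fun k =>
    measurableSet_le (measurable_pi_apply _) measurable_const

theorem measurableSet_SurvE (D : ℕ → Finset (ℤ × ℤ)) (C : ℝ) (K m : ℕ) :
    MeasurableSet (SurvE D C K m) := by
  have : SurvE D C K m = ⋂ (n : ℕ) (_ : m ≤ n), {x : DSquare → ℝ | K ≤ (surv D C m n x).card} := by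
    ext x; simp [SurvE]
  rw [this]
  exact MeasurableSet.iInter fun n => MeasurableSet.iInter fun _ => measurable_surv D C m n K

theorem measurableSet_alive (u : ℝ) (S : DSquare) :
    MeasurableSet {x : DSquare → ℝ | Alive x u S} := by
  have : {x : DSquare → ℝ | Alive x u S} = ⋂ k : ℕ, {x | u < x (anc k S)} := by
    ext x; simp [Alive]
  rw [this]
  exact MeasurableSet.iInter fun k => measurableSet_lt measurable_const (measurable_pi_apply _)

theorem measurableSet_NoE (u : ℝ) (m N : ℕ) : MeasurableSet (NoE u m N) := by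
  have : NoE u m N = ⋂ (i : ℤ) (j : ℤ) (_ : InB N i j) (_ : Bd (N - m) i j),
      {x : DSquare → ℝ | Alive x u ⟨N, i, j⟩}ᶜ := by
    ext x; simp [NoE, NoAlive]
  rw [this]
  exact MeasurableSet.iInter fun i => MeasurableSet.iInter fun j => MeasurableSet.iInter fun _ =>
    MeasurableSet.iInter fun _ => (measurableSet_alive u _).compl

theorem measurableSet_NoAllE (u : ℝ) : MeasurableSet (NoAllE u) := by
  have : NoAllE u = ⋂ m' : ℕ, ⋃ (N' : ℕ) (_ : m' ≤ N'), NoE u m' N' := by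
    ext x; simp [NoAllE, NoE]
  rw [this]
  exact MeasurableSet.iInter fun m' => MeasurableSet.iUnion fun N' => MeasurableSet.iUnion fun _ =>
    measurableSet_NoE u m' N'

/-! ### Locality -/

/-- the set depends only on the relevant squares -/
def Loc (A : Set (DSquare → ℝ)) : Prop :=
  ∀ x y : DSquare → ℝ, (∀ S, UU S → x S = y S) → x ∈ A → y ∈ A

theorem Loc.inter {A B : Set (DSquare → ℝ)} (hA : Loc A) (hB : Loc B) : Loc (A ∩ B) :=
  fun x y hxy h => ⟨hA x y hxy h.1, hB x y hxy h.2⟩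

theorem uu_anc (k : ℕ) (hk : 0 < k) : UU (anc k ⟨0, 0, 0⟩) := by
  rw [anc_root]; exact Or.inr ⟨k, hk, rfl⟩

theorem uu_inB {n : ℕ} {i j : ℤ} (h : InB n i j) : UU ⟨n, i, j⟩ := Or.inl ⟨n, rfl, h⟩

theorem loc_AncE (C : ℝ) : Loc (AncE C) := by
  intro x y hxy hx k hk
  rw [← hxy _ (uu_anc k hk)]
  exact hx k hk

theorem inB_corner {n : ℕ} {i j : ℤ} (h : InB n i j) (k : ℕ) :
    InB (n + k) (i * 2 ^ k) (j * 2 ^ k) := by
  apply InB.of_ediv
  rw [ediv_mul_pow, ediv_mul_pow]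
  exact h

theorem loc_CornerE (u : ℝ) : Loc (CornerE u) := by
  intro x y hxy hx n i j hin
  obtain ⟨k, hk⟩ := hx n i j hin
  refine ⟨k, ?_⟩
  rw [← hxy _ (uu_inB (inB_corner hin k))]
  exact hk

theorem loc_SurvE {D : ℕ → Finset (ℤ × ℤ)} {d : ℝ} (hD : Fam D d) (C : ℝ) (K m : ℕ) :
    Loc (SurvE D C K m) := by
  intro x y hxy hx n hn
  refine (hx n hn).trans (Finset.card_le_card fun v hv => ?_)
  rw [mem_surv] at hv ⊢
  obtain ⟨h1, s, h2, h3, h4, h5⟩ := hv
  refine ⟨h1, s, h2, h3, h4, fun j hj => ?_⟩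
  rw [← hxy (ans n s j) (uu_inB (ans_inB (hD.inB n s h2) hj))]
  exact h5 j hj

theorem alive_congr {x y : DSquare → ℝ} (hxy : ∀ S, UU S → x S = y S) {u : ℝ} {N : ℕ} {i j : ℤ}
    (hin : InB N i j) (h : Alive x u ⟨N, i, j⟩) : Alive y u ⟨N, i, j⟩ := by
  intro k
  have hU : UU (anc k ⟨N, i, j⟩) := by
    rcases le_or_gt k N with hk | hk
    · obtain ⟨l, rfl⟩ := Nat.exists_eq_add_of_le hk
      have e : anc k (⟨(k + l : ℕ), i, j⟩ : DSquare) = ⟨(l : ℕ), i / 2 ^ k, j / 2 ^ k⟩ := by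
        unfold anc
        ext
        · simp only; push_cast; ring
        · rfl
        · rfl
      rw [e]
      apply uu_inB
      apply InB.ediv (q := k)
      rwa [add_comm]
    · rw [anc_inB hin hk]
      exact uu_anc _ (by omega)
  rw [← hxy _ hU]
  exact h k

theorem loc_NoE (u : ℝ) (m N : ℕ) : Loc (NoE u m N) := by
  intro x y hxy hx i j hin hbd hal
  exact hx i j hin hbd (alive_congr (fun S hS => (hxy S hS).symm) hin hal)

theorem loc_NoAllE (u : ℝ) : Loc (NoAllE u) := by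
  intro x y hxy hx m'
  obtain ⟨N', h1, h2⟩ := hx m'
  exact ⟨N', h1, loc_NoE u m' N' x y hxy h2⟩

/-! ### Probabilities -/

theorem prob_anc (hh : IsGFF P h) {Q : ℝ} (hQ : 0 < Q) {η : ℝ≥0∞} (hη : 0 < η) :
    ∃ C₁ : ℝ, ∀ C, C₁ < C → P {ω | fld Q h ω ∉ AncE C} ≤ η := by
  set r := exp (-(Q ^ 2 * log 2 / 2)) with hr
  have hr1 : r < 1 := by
    rw [hr, exp_lt_one_iff]
    have : 0 < Q ^ 2 * log 2 / 2 := by have := log_two_pos; positivity
    linarith
  have hlim : Tendsto (fun C : ℝ => ENNReal.ofReal (exp (Q ^ 2 * log 2 - Q * C) * r ^ 1 / (1 - r)))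
      atTop (𝓝 (ENNReal.ofReal (0 * r ^ 1 / (1 - r)))) := by
    apply ENNReal.tendsto_ofReal
    apply Tendsto.div_const
    apply Tendsto.mul_const
    apply tendsto_exp_atBot.comp
    apply tendsto_atBot_add_const_left
    exact tendsto_neg_atTop_atBot.comp (tendsto_id.const_mul_atTop hQ)
  rw [zero_mul, zero_div, ENNReal.ofReal_zero] at hlim
  have hev := hlim.eventually_le_const hη
  obtain ⟨C₁, hC₁⟩ := eventually_atTop.1 hev
  refine ⟨C₁, fun C hC => ?_⟩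
  refine le_trans (measure_mono ?_) ((anc_tail_all hh hQ (i := 0) (j := 0) (Or.inl rfl)
    (Or.inl rfl) C 1).trans (hC₁ C hC.le))
  intro ω hω
  simp only [AncE, Set.mem_ofPred_eq, not_forall, not_lt] at hω
  obtain ⟨k, hk, hk'⟩ := hω
  rw [anc_root] at hk'
  exact ⟨k, hk, hk'⟩

theorem prob_corner (hh : IsGFF P h) {Q : ℝ} (hQ : 0 < Q) (u : ℝ) :
    P {ω | fld Q h ω ∉ CornerE u} = 0 := by
  have hp := hh.gaussian.isProbabilityMeasure
  have hl := log_two_pos
  have hsub : {ω | fld Q h ω ∉ CornerE u} ⊆ ⋃ (n : ℕ) (i : ℤ) (j : ℤ),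
      {ω | InB n i j ∧ ∀ k : ℕ, u < fld Q h ω ⟨(n + k : ℕ), i * 2 ^ k, j * 2 ^ k⟩} := by
    intro ω hω
    simp only [CornerE, Set.mem_ofPred_eq, not_forall, not_exists, not_le] at hω
    obtain ⟨n, i, j, h1, h2⟩ := hω
    simp only [Set.mem_iUnion]
    exact ⟨n, i, j, h1, h2⟩
  refine measure_mono_null hsub ?_
  refine measure_iUnion_null fun n => measure_iUnion_null fun i => measure_iUnion_null fun j => ?_
  by_cases hin : InB n i j
  swap
  · have : {ω | InB n i j ∧ ∀ k : ℕ, u < fld Q h ω ⟨(n + k : ℕ), i * 2 ^ k, j * 2 ^ k⟩} = ∅ := by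
      ext ω; simp [hin]
    rw [this, measure_empty]
  have hbound : ∀ k : ℕ, P {ω | InB n i j ∧
      ∀ k : ℕ, u < fld Q h ω ⟨(n + k : ℕ), i * 2 ^ k, j * 2 ^ k⟩} ≤
      ENNReal.ofReal (exp (Q ^ 2 * 3 / 2 - Q * u - Q ^ 2 * log 2 / 2 * ((n + k : ℕ) : ℝ))) := by
    intro k
    have h1 := gauss_tail ((isGaussianProcess_sqv hh).hasGaussianLaw_eval
      ⟨(n + k : ℕ), i * 2 ^ k, j * 2 ^ k⟩) (mean_sqv hh _) (var_inB hh (inB_corner hin k)) hQ.le
      (u + Q * ((n + k : ℕ) : ℝ) * log 2)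
    refine le_trans (measure_mono ?_) (h1.trans ?_)
    · rintro ω ⟨-, hω⟩
      have := hω k
      simp only [fld, Int.cast_natCast] at this
      simp only [Set.mem_ofPred_eq]
      linarith
    · apply ENNReal.ofReal_le_ofReal
      apply exp_le_exp.2
      nlinarith
  have hlim : Tendsto (fun k : ℕ => ENNReal.ofReal (exp (Q ^ 2 * 3 / 2 - Q * u -
      Q ^ 2 * log 2 / 2 * ((n + k : ℕ) : ℝ)))) atTop (𝓝 (ENNReal.ofReal 0)) := by
    apply ENNReal.tendsto_ofReal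
    apply tendsto_exp_atBot.comp
    apply tendsto_atBot_add_const_left
    apply tendsto_neg_atTop_atBot.comp
    apply Tendsto.const_mul_atTop (by positivity)
    refine tendsto_natCast_atTop_atTop.comp ?_
    exact tendsto_atTop_mono (fun k => Nat.le_add_left k n) tendsto_id
  rw [ENNReal.ofReal_zero] at hlim
  exact le_antisymm (ge_of_tendsto' hlim hbound) bot_le

theorem prob_surv (hh : IsGFF P h) {D : ℕ → Finset (ℤ × ℤ)} {Q d : ℝ} (hD : Fam D d) (hQ : 0 < Q)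
    (hd : Q ^ 2 / 2 < d) :
    ∃ (C₀ : ℝ) (p : ℝ≥0∞), 0 < p ∧ p ≠ ∞ ∧ ∀ C, C₀ < C → ∀ K : ℕ, ∃ m : ℕ,
      p ≤ P {ω | fld Q h ω ∈ SurvE D C K m} := by
  have hp := hh.gaussian.isProbabilityMeasure
  obtain ⟨C₀, p, hp0, hmain⟩ := surv_prob hh hD hQ hd
  refine ⟨C₀, ENNReal.ofReal p, ENNReal.ofReal_pos.2 hp0, ENNReal.ofReal_ne_top, ?_⟩
  intro C hC K
  obtain ⟨m, hm⟩ := hmain C hC K
  refine ⟨m, ?_⟩
  set E : ℕ → Set Ω := fun n => {ω | K ≤ (surv D C m (m + n) (fld Q h ω)).card} with hE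
  have hanti : Antitone E := by
    intro a b hab ω hω
    refine le_trans hω (Finset.card_le_card ?_)
    exact surv_anti hD (by omega) (by omega)
  have hmeas : ∀ n, NullMeasurableSet (E n) P := fun n =>
    ((measurable_surv D C m (m + n) K).preimage (measurable_fld hh Q)).nullMeasurableSet
  have h1 := tendsto_measure_iInter_atTop (μ := P) hmeas hanti ⟨0, measure_ne_top _ _⟩
  have h2 : ENNReal.ofReal p ≤ P (⋂ n, E n) :=
    ge_of_tendsto' h1 fun n => hm (m + n) (by omega)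
  refine h2.trans (measure_mono ?_)
  intro ω hω n hn
  have := Set.mem_iInter.1 hω (n - m)
  simp only [hE, Set.mem_ofPred_eq] at this
  rwa [show m + (n - m) = n by omega] at this

/-- the boundary squares -/
theorem bd_cover {N m : ℕ} (hmN : m ≤ N) : ∃ F : Finset (ℤ × ℤ), F.card ≤ 2 ^ (m + N + 6) ∧
    ∀ i j, InB N i j → Bd (N - m) i j → (i, j) ∈ F := by
  classical
  set q : ℤ := 2 ^ (N - m) with hq
  set A : Finset ℤ := Finset.Icc 0 (2 ^ (m + 1)) with hA
  set B : Finset ℤ := Finset.Icc 0 (2 ^ (N + 1)) with hB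
  set F1 := (A ×ˢ B).image (fun t : ℤ × ℤ => (t.1 * q, t.2)) with hF1
  set F2 := (A ×ˢ B).image (fun t : ℤ × ℤ => (t.1 * q - 1, t.2)) with hF2
  set F3 := (A ×ˢ B).image (fun t : ℤ × ℤ => (t.2, t.1 * q)) with hF3
  set F4 := (A ×ˢ B).image (fun t : ℤ × ℤ => (t.2, t.1 * q - 1)) with hF4
  have hcA : A.card = 2 ^ (m + 1) + 1 := by
    rw [hA, Int.card_Icc]
    have : (2 ^ (m + 1) + 1 - 0 : ℤ) = ((2 ^ (m + 1) + 1 : ℕ) : ℤ) := by push_cast; ring
    rw [this, Int.toNat_natCast]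
  have hcB : B.card = 2 ^ (N + 1) + 1 := by
    rw [hB, Int.card_Icc]
    have : (2 ^ (N + 1) + 1 - 0 : ℤ) = ((2 ^ (N + 1) + 1 : ℕ) : ℤ) := by push_cast; ring
    rw [this, Int.toNat_natCast]
  have hAB : (A ×ˢ B).card ≤ 2 ^ (m + N + 4) := by
    rw [Finset.card_product, hcA, hcB]
    have h1 : 2 ^ (m + 1) + 1 ≤ 2 ^ (m + 2) := by
      have : 1 ≤ 2 ^ (m + 1) := Nat.one_le_two_pow
      rw [pow_succ 2 (m + 1)]; omega
    have h2 : 2 ^ (N + 1) + 1 ≤ 2 ^ (N + 2) := by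
      have : 1 ≤ 2 ^ (N + 1) := Nat.one_le_two_pow
      rw [pow_succ 2 (N + 1)]; omega
    calc (2 ^ (m + 1) + 1) * (2 ^ (N + 1) + 1) ≤ 2 ^ (m + 2) * 2 ^ (N + 2) := Nat.mul_le_mul h1 h2
      _ = 2 ^ (m + N + 4) := by rw [← pow_add]; congr 1; omega
  refine ⟨(F1 ∪ F2) ∪ (F3 ∪ F4), ?_, ?_⟩
  · have h1 := (Finset.card_image_le (s := A ×ˢ B) (f := fun t : ℤ × ℤ => (t.1 * q, t.2)))
    have h2 := (Finset.card_image_le (s := A ×ˢ B) (f := fun t : ℤ × ℤ => (t.1 * q - 1, t.2)))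
    have h3 := (Finset.card_image_le (s := A ×ˢ B) (f := fun t : ℤ × ℤ => (t.2, t.1 * q)))
    have h4 := (Finset.card_image_le (s := A ×ˢ B) (f := fun t : ℤ × ℤ => (t.2, t.1 * q - 1)))
    have h5 := Finset.card_union_le (F1 ∪ F2) (F3 ∪ F4)
    have h6 := Finset.card_union_le F1 F2
    have h7 := Finset.card_union_le F3 F4
    have h8 : 2 ^ (m + N + 6) = 4 * 2 ^ (m + N + 4) := by rw [pow_add 2 (m + N) 6, pow_add 2 (m + N) 4]; ring
    rw [h8]
    rw [← hF1] at h1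
    rw [← hF2] at h2
    rw [← hF3] at h3
    rw [← hF4] at h4
    omega
  · intro i j hin hbd
    rw [inB_iff] at hin
    obtain ⟨i1, i2, j1, j2⟩ := hin
    have hN : (0 : ℤ) < 2 ^ N := by positivity
    have hq0 : 0 < q := by positivity
    have hNq : (2 : ℤ) ^ N = 2 ^ m * q := by
      rw [hq, ← pow_add]; congr 1; omega
    have hN1 : (2 : ℤ) ^ (N + 1) = 2 ^ N + 2 ^ N := by ring
    have hm1 : (2 : ℤ) ^ (m + 1) = 2 ^ m + 2 ^ m := by ring
    have hiB : i ∈ B := by rw [hB, Finset.mem_Icc]; omega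
    have hjB : j ∈ B := by rw [hB, Finset.mem_Icc]; omega
    have key : ∀ c : ℤ, 0 ≤ c → c ≤ 2 ^ N + 2 ^ N → q ∣ c → ∃ a ∈ A, a * q = c := by
      rintro c hc1 hc2 ⟨a, rfl⟩
      refine ⟨a, ?_, mul_comm _ _⟩
      rw [hA, Finset.mem_Icc]
      constructor
      · by_contra h
        push Not at h
        nlinarith
      · rw [hNq] at hc2
        rw [hm1]
        by_contra h
        push Not at h
        nlinarith
    simp only [Finset.mem_union, hF1, hF2, hF3, hF4, Finset.mem_image, Finset.mem_product,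
      Prod.mk.injEq, Prod.exists]
    rcases hbd with hb | hb | hb | hb
    · obtain ⟨a, ha, hac⟩ := key i (by omega) (by omega) hb
      exact Or.inl (Or.inl ⟨a, j, ⟨ha, hjB⟩, hac, rfl⟩)
    · obtain ⟨a, ha, hac⟩ := key (i + 1) (by omega) (by omega) hb
      exact Or.inl (Or.inr ⟨a, j, ⟨ha, hjB⟩, by omega, rfl⟩)
    · obtain ⟨a, ha, hac⟩ := key j (by omega) (by omega) hb
      exact Or.inr (Or.inl ⟨a, i, ⟨ha, hiB⟩, rfl, hac⟩)
    · obtain ⟨a, ha, hac⟩ := key (j + 1) (by omega) (by omega) hb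
      exact Or.inr (Or.inr ⟨a, i, ⟨ha, hiB⟩, rfl, by omega⟩)

theorem noE_bound (hh : IsGFF P h) {Q : ℝ} (hQ : 0 < Q) (hQ2 : Q < 2) (hQ1 : 2 ≤ Q ^ 2) (u : ℝ)
    {m N : ℕ} (hmN : m ≤ N) (ha : 0 < Q * N * log 2 + u) :
    P {ω | fld Q h ω ∉ NoE u m N} ≤ ENNReal.ofReal (2 ^ (m + 6) * exp (3 + 2 * |u|) *
      (√(N * log 2 + 3) / (Q * N * log 2 + u))) := by
  have hp := hh.gaussian.isProbabilityMeasure
  have hl := log_two_pos
  obtain ⟨F, hF, hcov⟩ := bd_cover hmN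
  have hN0 : (0 : ℝ) ≤ N := Nat.cast_nonneg N
  set a := Q * N * log 2 + u with ha'
  set v := N * log 2 + 3 with hv'
  have hv0 : 0 < v := by positivity
  have h1 : {ω | fld Q h ω ∉ NoE u m N} ⊆ ⋃ s ∈ F, {ω | InB N s.1 s.2 ∧
      a < sqv h ⟨N, s.1, s.2⟩ ω} := by
    intro ω hω
    simp only [NoE, NoAlive, Set.mem_ofPred_eq, not_forall, not_not] at hω
    obtain ⟨i, j, h1, h2, h3⟩ := hω
    simp only [Set.mem_iUnion]
    refine ⟨(i, j), hcov i j h1 h2, h1, ?_⟩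
    have h4 := h3 0
    rw [anc_zero] at h4
    simp only [fld, Int.cast_natCast] at h4
    linarith
  have h2 : ∀ s ∈ F, P {ω | InB N s.1 s.2 ∧ a < sqv h ⟨N, s.1, s.2⟩ ω} ≤
      ENNReal.ofReal (√v / a * exp (-(a ^ 2 / (2 * v)))) := by
    intro s _
    by_cases hin : InB N s.1 s.2
    · refine le_trans (measure_mono ?_) (mills (measurable_sqv hh ⟨N, s.1, s.2⟩)
        ((isGaussianProcess_sqv hh).hasGaussianLaw_eval _) (mean_sqv hh _) (var_inB hh hin) hv0 ha)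
      rintro ω ⟨-, hω⟩
      exact hω
    · have : {ω | InB N s.1 s.2 ∧ a < sqv h ⟨N, s.1, s.2⟩ ω} = ∅ := by
        ext ω; simp [hin]
      rw [this, measure_empty]
      exact bot_le
  have h3 : exp (-(a ^ 2 / (2 * v))) ≤ exp (3 + 2 * |u|) * exp (-(N * log 2)) := by
    rw [← exp_add]
    apply exp_le_exp.2
    have h4 : N * log 2 - (3 + 2 * |u|) ≤ a ^ 2 / (2 * v) := by
      rw [le_div_iff₀ (by positivity)]
      have h5 : 2 * (N * log 2) ^ 2 - 4 * |u| * (N * log 2) ≤ a ^ 2 := by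
        have h6 : a ^ 2 = Q ^ 2 * (N * log 2) ^ 2 + 2 * Q * u * (N * log 2) + u ^ 2 := by
          rw [ha']; ring
        have h7 : 2 * (N * log 2) ^ 2 ≤ Q ^ 2 * (N * log 2) ^ 2 :=
          mul_le_mul_of_nonneg_right hQ1 (sq_nonneg _)
        have h8 : -(4 * |u| * (N * log 2)) ≤ 2 * Q * u * (N * log 2) := by
          have h9 : -(4 * |u|) ≤ 2 * Q * u := by
            have := neg_abs_le u
            have := abs_nonneg u
            nlinarith
          have := mul_le_mul_of_nonneg_right h9 (by positivity : 0 ≤ N * log 2)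
          linarith
        nlinarith [sq_nonneg u]
      rw [hv']
      have := abs_nonneg u
      nlinarith [mul_nonneg hN0 hl.le]
    linarith
  have h4 : √v / a * exp (-(a ^ 2 / (2 * v))) ≤
      √v / a * (exp (3 + 2 * |u|) * exp (-(N * log 2))) :=
    mul_le_mul_of_nonneg_left h3 (by positivity)
  refine (measure_mono h1).trans ((measure_biUnion_finset_le _ _).trans
    ((Finset.sum_le_sum h2).trans ?_))
  rw [Finset.sum_const, nsmul_eq_mul, ← ENNReal.ofReal_natCast, ← ENNReal.ofReal_mul (by positivity)]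
  apply ENNReal.ofReal_le_ofReal
  have h5 : (F.card : ℝ) ≤ 2 ^ (m + 6) * exp (N * log 2) := by
    have h6 : (F.card : ℝ) ≤ 2 ^ (m + N + 6) := by exact_mod_cast hF
    have h7 : exp (N * log 2) = (2 : ℝ) ^ N := by
      rw [exp_nat_mul, exp_log (by norm_num)]
    rw [h7, ← pow_add]
    refine h6.trans (le_of_eq ?_)
    congr 1; omega
  calc (F.card : ℝ) * (√v / a * exp (-(a ^ 2 / (2 * v))))
      ≤ (2 ^ (m + 6) * exp (N * log 2)) * (√v / a * (exp (3 + 2 * |u|) * exp (-(N * log 2)))) :=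
        mul_le_mul h5 h4 (by positivity) (by positivity)
    _ = 2 ^ (m + 6) * exp (3 + 2 * |u|) * (√v / a) * (exp (N * log 2) * exp (-(N * log 2))) := by
        ring
    _ = _ := by rw [← exp_add, add_neg_cancel, exp_zero, mul_one]

theorem prob_noE (hh : IsGFF P h) {Q : ℝ} (hQ : 0 < Q) (hQ2 : Q < 2) (hQ1 : 2 ≤ Q ^ 2) (u : ℝ)
    (m : ℕ) {η : ℝ≥0∞} (hη : 0 < η) : ∃ N, m ≤ N ∧ P {ω | fld Q h ω ∉ NoE u m N} ≤ η := by
  have hl := log_two_pos
  have hQl : 0 < Q * log 2 := by positivity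
  have h1 : Tendsto (fun N : ℕ => √(N * log 2 + 3) / (Q * N * log 2 + u)) atTop (𝓝 0) := by
    have h2 : Tendsto (fun N : ℕ => Q * N * log 2 + u) atTop atTop := by
      apply tendsto_atTop_add_const_right
      have : Tendsto (fun N : ℕ => (Q * log 2) * (N : ℝ)) atTop atTop :=
        tendsto_natCast_atTop_atTop.const_mul_atTop hQl
      refine this.congr fun N => ?_
      ring
    have h3 : Tendsto (fun N : ℕ => (N * log 2 + 3) / (Q * N * log 2 + u)) atTop (𝓝 (1 / Q)) := by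
      have h4 : Tendsto (fun N : ℕ => 1 / Q + (3 - u / Q) / (Q * N * log 2 + u)) atTop
          (𝓝 (1 / Q + 0)) := (h2.const_div_atTop (3 - u / Q)).const_add _
      rw [add_zero] at h4
      refine h4.congr' ?_
      filter_upwards [h2.eventually_gt_atTop 0] with N hN
      field_simp
      ring
    have h5 : Tendsto (fun N : ℕ => (√(N * log 2 + 3))⁻¹) atTop (𝓝 0) := by
      apply Tendsto.inv_tendsto_atTop
      apply Real.tendsto_sqrt_atTop.comp
      apply tendsto_atTop_add_const_right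
      exact tendsto_natCast_atTop_atTop.atTop_mul_const hl
    have h6 := h3.mul h5
    rw [mul_zero] at h6
    refine h6.congr fun N => ?_
    have h7 : 0 < N * log 2 + 3 := by positivity
    have h8 : √(N * log 2 + 3) * √(N * log 2 + 3) = N * log 2 + 3 := Real.mul_self_sqrt h7.le
    have h9 : 0 < √(N * log 2 + 3) := Real.sqrt_pos.2 h7
    have h10 : (N * log 2 + 3) * (√(N * log 2 + 3))⁻¹ = √(N * log 2 + 3) := by
      rw [mul_inv_eq_iff_eq_mul₀ h9.ne']; exact h8.symm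
    rw [div_mul_eq_mul_div, h10]
  have h2 : Tendsto (fun N : ℕ => ENNReal.ofReal (2 ^ (m + 6) * exp (3 + 2 * |u|) *
      (√(N * log 2 + 3) / (Q * N * log 2 + u)))) atTop (𝓝 (ENNReal.ofReal
      (2 ^ (m + 6) * exp (3 + 2 * |u|) * 0))) := ENNReal.tendsto_ofReal (h1.const_mul _)
  rw [mul_zero, ENNReal.ofReal_zero] at h2
  have h3 : ∀ᶠ N : ℕ in atTop, 0 < Q * N * log 2 + u := by
    have : Tendsto (fun N : ℕ => Q * N * log 2 + u) atTop atTop := by
      apply tendsto_atTop_add_const_right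
      have : Tendsto (fun N : ℕ => (Q * log 2) * (N : ℝ)) atTop atTop :=
        tendsto_natCast_atTop_atTop.const_mul_atTop hQl
      refine this.congr fun N => ?_
      ring
    exact this.eventually_gt_atTop 0
  obtain ⟨N, h4, h5, h6⟩ := ((h2.eventually_le_const hη).and
    (h3.and (eventually_ge_atTop m))).exists
  exact ⟨N, h6, (noE_bound hh hQ hQ2 hQ1 u h6 h5).trans h4⟩

theorem prob_noAll (hh : IsGFF P h) {Q : ℝ} (hQ : 0 < Q) (hQ2 : Q < 2) (hQ1 : 2 ≤ Q ^ 2) (u : ℝ) :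
    P {ω | fld Q h ω ∉ NoAllE u} = 0 := by
  have hsub : {ω | fld Q h ω ∉ NoAllE u} ⊆ ⋃ m' : ℕ, ⋂ (N' : ℕ) (_ : m' ≤ N'),
      {ω | fld Q h ω ∉ NoE u m' N'} := by
    intro ω hω
    simp only [NoAllE, Set.mem_ofPred_eq, not_forall, not_exists, not_and] at hω
    obtain ⟨m', hm'⟩ := hω
    simp only [Set.mem_iUnion, Set.mem_iInter]
    exact ⟨m', fun N' hN' => hm' N' hN'⟩
  refine measure_mono_null hsub (measure_iUnion_null fun m' => ?_)
  refine le_antisymm (le_of_forall_pos_le_add fun η hη => ?_) bot_le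
  rw [zero_add]
  obtain ⟨N, hN, hle⟩ := prob_noE hh hQ hQ2 hQ1 u m' hη
  refine (measure_mono ?_).trans hle
  intro ω hω
  simp only [Set.mem_iInter] at hω
  exact hω N hN

/-! ### The two local events -/

/-- the event for `2 ≤ Q ^ 2` (without the root) -/
def EvA (C : ℝ) (K m N : ℕ) : Set (DSquare → ℝ) :=
  AncE C ∩ (CornerE (-(C + 1)) ∩ (SurvE D2 C K m ∩ (NoE (-(C + 1)) m N ∩ NoAllE (-(C + 1)))))

/-- the event for `Q ^ 2 < 2` (without the root) -/
def EvB (C : ℝ) (m : ℕ) : Set (DSquare → ℝ) :=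
  AncE C ∩ (CornerE (-(C + 1)) ∩ SurvE D1 C 1 m)

theorem measurableSet_EvA (C : ℝ) (K m N : ℕ) : MeasurableSet (EvA C K m N) :=
  (measurableSet_AncE _).inter ((measurableSet_CornerE _).inter ((measurableSet_SurvE _ _ _ _).inter
    ((measurableSet_NoE _ _ _).inter (measurableSet_NoAllE _))))

theorem measurableSet_EvB (C : ℝ) (m : ℕ) : MeasurableSet (EvB C m) :=
  (measurableSet_AncE _).inter ((measurableSet_CornerE _).inter (measurableSet_SurvE _ _ _ _))

theorem loc_EvA (C : ℝ) (K m N : ℕ) : Loc (EvA C K m N) :=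
  (loc_AncE _).inter ((loc_CornerE _).inter ((loc_SurvE fam_D2 _ _ _).inter
    ((loc_NoE _ _ _).inter (loc_NoAllE _))))

theorem loc_EvB (C : ℝ) (m : ℕ) : Loc (EvB C m) :=
  (loc_AncE _).inter ((loc_CornerE _).inter (loc_SurvE fam_D1 _ _ _))

theorem prob_EvA (hh : IsGFF P h) {Q : ℝ} (hQ : 0 < Q) (hQ2 : Q < 2) (hQ1 : 2 ≤ Q ^ 2) :
    ∃ (C : ℝ) (q : ℝ≥0∞), 0 < q ∧ q ≠ ∞ ∧ ∀ K : ℕ, ∃ m N : ℕ, m ≤ N ∧
      q ≤ P {ω | fld Q h ω ∈ EvA C K m N} := by
  obtain ⟨C₀, p, hp0, hpt, hmain⟩ := prob_surv hh fam_D2 hQ (by nlinarith : Q ^ 2 / 2 < 2)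
  have hp4 : 0 < p / 4 := ENNReal.div_pos hp0.ne' (by norm_num)
  obtain ⟨C₁, hC₁⟩ := prob_anc hh hQ hp4
  set C := max C₀ C₁ + 1 with hC
  refine ⟨C, p / 4, hp4, (ENNReal.div_lt_top hpt (by norm_num)).ne, fun K => ?_⟩
  obtain ⟨m, hm⟩ := hmain C (by have := le_max_left C₀ C₁; linarith) K
  obtain ⟨N, hmN, hN⟩ := prob_noE hh hQ hQ2 hQ1 (-(C + 1)) m hp4
  refine ⟨m, N, hmN, ?_⟩
  have h1 := hC₁ C (by have := le_max_right C₀ C₁; linarith)
  have h2 := prob_corner hh hQ (-(C + 1))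
  have h3 := prob_noAll hh hQ hQ2 hQ1 (-(C + 1))
  have hsub : {ω | fld Q h ω ∈ SurvE D2 C K m} ⊆ {ω | fld Q h ω ∈ EvA C K m N} ∪
      ({ω | fld Q h ω ∉ AncE C} ∪ ({ω | fld Q h ω ∉ NoE (-(C + 1)) m N} ∪
      ({ω | fld Q h ω ∉ CornerE (-(C + 1))} ∪ {ω | fld Q h ω ∉ NoAllE (-(C + 1))}))) := by
    intro ω hω
    by_cases g1 : fld Q h ω ∈ AncE C
    · by_cases g2 : fld Q h ω ∈ NoE (-(C + 1)) m N
      · by_cases g3 : fld Q h ω ∈ CornerE (-(C + 1))
        · by_cases g4 : fld Q h ω ∈ NoAllE (-(C + 1))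
          · exact Or.inl ⟨g1, g3, hω, g2, g4⟩
          · exact Or.inr (Or.inr (Or.inr (Or.inr g4)))
        · exact Or.inr (Or.inr (Or.inr (Or.inl g3)))
      · exact Or.inr (Or.inr (Or.inl g2))
    · exact Or.inr (Or.inl g1)
  have h4 := hm.trans ((measure_mono hsub).trans (measure_union_le _ _))
  have h5 : P ({ω | fld Q h ω ∉ AncE C} ∪ ({ω | fld Q h ω ∉ NoE (-(C + 1)) m N} ∪
      ({ω | fld Q h ω ∉ CornerE (-(C + 1))} ∪ {ω | fld Q h ω ∉ NoAllE (-(C + 1))}))) ≤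
      p / 4 + p / 4 := by
    refine (measure_union_le _ _).trans (add_le_add h1 ?_)
    refine (measure_union_le _ _).trans ?_
    have h6 : P ({ω | fld Q h ω ∉ CornerE (-(C + 1))} ∪ {ω | fld Q h ω ∉ NoAllE (-(C + 1))}) = 0 :=
      le_antisymm ((measure_union_le _ _).trans (by rw [h2, h3, add_zero])) bot_le
    rw [h6, add_zero]
    exact hN
  have h7 := h4.trans (add_le_add_right h5 _)
  have hpe : p = p / 4 + (p / 4 + (p / 4 + p / 4)) := by
    have h8 : p / 4 + (p / 4 + (p / 4 + p / 4)) = 4 * (p / 4) := by ring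
    rw [h8, ENNReal.mul_div_cancel (by norm_num) (by norm_num)]
  have hfin : p / 4 + p / 4 ≠ ∞ := by
    have := (ENNReal.div_lt_top hpt (by norm_num : (4 : ℝ≥0∞) ≠ 0)).ne
    exact ENNReal.add_ne_top.2 ⟨this, this⟩
  have h9 : p / 4 + (p / 4 + (p / 4 + p / 4)) ≤
      P {ω | fld Q h ω ∈ EvA C K m N} + (p / 4 + p / 4) := by
    rw [← hpe]; exact h7
  rw [← add_assoc] at h9
  have h10 := (ENNReal.add_le_add_iff_right hfin).1 h9
  exact le_trans le_self_add h10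

theorem prob_EvB (hh : IsGFF P h) {Q : ℝ} (hQ : 0 < Q) (hQ1 : Q ^ 2 < 2) :
    ∃ (C : ℝ) (q : ℝ≥0∞), 0 < q ∧ q ≠ ∞ ∧ ∃ m : ℕ, q ≤ P {ω | fld Q h ω ∈ EvB C m} := by
  obtain ⟨C₀, p, hp0, hpt, hmain⟩ := prob_surv hh fam_D1 hQ (by linarith : Q ^ 2 / 2 < 1)
  have hp4 : 0 < p / 2 := ENNReal.div_pos hp0.ne' (by norm_num)
  obtain ⟨C₁, hC₁⟩ := prob_anc hh hQ hp4
  set C := max C₀ C₁ + 1 with hC
  refine ⟨C, p / 2, hp4, (ENNReal.div_lt_top hpt (by norm_num)).ne, ?_⟩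
  obtain ⟨m, hm⟩ := hmain C (by have := le_max_left C₀ C₁; linarith) 1
  refine ⟨m, ?_⟩
  have h1 := hC₁ C (by have := le_max_right C₀ C₁; linarith)
  have h2 := prob_corner hh hQ (-(C + 1))
  have hsub : {ω | fld Q h ω ∈ SurvE D1 C 1 m} ⊆ {ω | fld Q h ω ∈ EvB C m} ∪
      ({ω | fld Q h ω ∉ AncE C} ∪ {ω | fld Q h ω ∉ CornerE (-(C + 1))}) := by
    intro ω hω
    by_cases g1 : fld Q h ω ∈ AncE C
    · by_cases g3 : fld Q h ω ∈ CornerE (-(C + 1))
      · exact Or.inl ⟨g1, g3, hω⟩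
      · exact Or.inr (Or.inr g3)
    · exact Or.inr (Or.inl g1)
  have h4 := hm.trans ((measure_mono hsub).trans (measure_union_le _ _))
  have h5 : P ({ω | fld Q h ω ∉ AncE C} ∪ {ω | fld Q h ω ∉ CornerE (-(C + 1))}) ≤ p / 2 := by
    refine (measure_union_le _ _).trans ?_
    rw [h2, add_zero]
    exact h1
  have h7 := h4.trans (add_le_add_right h5 _)
  have h9 : p / 2 + p / 2 ≤ P {ω | fld Q h ω ∈ EvB C m} + p / 2 := by
    rw [ENNReal.add_halves]; exact h7
  exact (ENNReal.add_le_add_iff_right (ENNReal.div_lt_top hpt (by norm_num)).ne).1 h9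

end Pool.Agent.Q216.GH
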