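import Pool.Agent.Q216.GH.Root

set_option autoImplicit false

/-!
# Closed sets of the local Gromov-Hausdorff-Prokhorov topology
-/

namespace Pool.Agent.Q216.GH

open MeasureTheory ProbabilityTheory Real Filter Topology
open Pool.Agent.Y980 Pool.Agent.Y980.DSquare
open scoped ENNReal NNReal

/-- `K` points at distance at most `2` from the root and at mutual distance at least `1` -/
def Sep (K : ℕ) : Set PMMSpace :=
  {X | ∃ f : Fin K → X.X, (∀ i, dist (f i) X.o ≤ 2) ∧ ∀ i j, i ≠ j → 1 ≤ dist (f i) (f j)}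

/-- different points are at distance at least `c` -/
def Disc (c : ℝ) : Set PMMSpace := {X | ∀ y z : X.X, y ≠ z → c ≤ dist y z}

theorem isClosed_Sep (K : ℕ) : IsClosedGHP (Sep K) := by
  rintro Xs X hXs ⟨Z, _, _, f, g, hf, hg, ho, hH, -⟩
  choose p hp1 hp2 using hXs
  set q : ℕ → (Fin K → Z) := fun n i => f n (p n i) with hq
  have hb : ∀ᶠ n in atTop, q n ∈ Metric.closedBall (fun _ : Fin K => g X.o) 3 := by
    filter_upwards [(Metric.tendsto_nhds.1 ho) 1 one_pos] with n hn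
    rw [Metric.mem_closedBall, dist_pi_le_iff (by norm_num)]
    intro i
    calc dist (q n i) (g X.o) ≤ dist (q n i) (f n (Xs n).o) + dist (f n (Xs n).o) (g X.o) :=
          dist_triangle _ _ _
      _ ≤ 2 + 1 := by
          refine add_le_add ?_ hn.le
          rw [hq]
          simp only
          rw [(hf n).dist_eq]
          exact hp1 n i
      _ = 3 := by norm_num
  obtain ⟨z, -, φ, hφ, hlim⟩ :=
    (isCompact_closedBall (fun _ : Fin K => g X.o) 3).tendsto_subseq' hb.frequently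
  have hlim' : ∀ i, Tendsto (fun n => f (φ n) (p (φ n) i)) atTop (𝓝 (z i)) := fun i =>
    (tendsto_pi_nhds.1 hlim) i
  have hφ' := hφ.tendsto_atTop
  have hzr : ∀ i, z i ∈ Set.range g := by
    intro i
    have hcl : IsClosed (Set.range g) := hg.isClosedEmbedding.isClosed_range
    rw [← hcl.closure_eq, Metric.mem_closure_iff]
    intro ε hε
    have h1 := (Metric.tendsto_nhds.1 (hlim' i)) (ε / 2) (by positivity)
    have h2 := hφ'.eventually (hH 2 (ε / 2) (by positivity))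
    obtain ⟨n, hn1, hn2, -⟩ := (h1.and h2).exists
    obtain ⟨y, hy⟩ := hn2 (p (φ n) i) (hp1 _ i)
    refine ⟨g y, ⟨y, rfl⟩, ?_⟩
    calc dist (z i) (g y) ≤ dist (z i) (f (φ n) (p (φ n) i)) + dist (f (φ n) (p (φ n) i)) (g y) :=
          dist_triangle _ _ _
      _ < ε / 2 + ε / 2 := by
          refine add_lt_add ?_ hy
          rw [dist_comm]
          exact hn1
      _ = ε := by ring
  choose y hy using hzr
  refine ⟨y, fun i => ?_, fun i j hij => ?_⟩
  · rw [← hg.dist_eq, hy]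
    refine le_of_tendsto' ((hlim' i).dist (ho.comp hφ')) fun n => ?_
    simp only [Function.comp_apply]
    rw [(hf _).dist_eq]
    exact hp1 _ i
  · rw [← hg.dist_eq, hy, hy]
    refine ge_of_tendsto' ((hlim' i).dist (hlim' j)) fun n => ?_
    rw [(hf _).dist_eq]
    exact hp2 _ i j hij

theorem isClosed_Disc (c : ℝ) : IsClosedGHP (Disc c) := by
  rintro Xs X hXs ⟨Z, _, _, f, g, hf, hg, ho, hH, -⟩ y z hyz
  have hd : 0 < dist y z := dist_pos.2 hyz
  refine le_of_forall_pos_le_add fun δ hδ => ?_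
  set η := min (δ / 2) (dist y z / 2) with hη
  have hη0 : 0 < η := by positivity
  obtain ⟨n, -, hn⟩ := (hH (max (dist y X.o) (dist z X.o)) η hη0).exists
  obtain ⟨x, hx⟩ := hn y (le_max_left _ _)
  obtain ⟨x', hx'⟩ := hn z (le_max_right _ _)
  have h1 : dist x x' = dist (f n x) (f n x') := ((hf n).dist_eq _ _).symm
  have h2 : dist (g y) (g z) = dist y z := hg.dist_eq _ _
  have hne : x ≠ x' := by
    rintro rfl
    have := dist_triangle_left (g y) (g z) (f n x)
    have h3 := min_le_right (δ / 2) (dist y z / 2)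
    linarith
  have h3 := hXs n x x' hne
  have h4 : dist (f n x) (f n x') ≤ dist (f n x) (g y) + dist (g y) (g z) + dist (g z) (f n x') :=
    dist_triangle4 _ _ _ _
  rw [dist_comm (g z)] at h4
  have h5 := min_le_left (δ / 2) (dist y z / 2)
  linarith

/-- a bounded set of a proper space contains only finitely many points at mutual distances bounded
below -/
theorem bounded_sep {E : Type*} [MetricSpace E] [ProperSpace E] (x₀ : E) (r : ℝ) {δ : ℝ}
    (hδ : 0 < δ) : ∃ K : ℕ, ¬ ∃ f : Fin K → E, (∀ i, dist (f i) x₀ ≤ r) ∧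
      ∀ i j, i ≠ j → δ ≤ dist (f i) (f j) := by
  obtain ⟨t, -, htf, ht⟩ := finite_cover_balls_of_compact (isCompact_closedBall x₀ r)
    (half_pos hδ)
  classical
  refine ⟨htf.toFinset.card + 1, ?_⟩
  rintro ⟨f, h1, h2⟩
  have h3 : ∀ i, ∃ c : htf.toFinset, dist (f i) c < δ / 2 := by
    intro i
    have := ht (Metric.mem_closedBall.2 (h1 i))
    simp only [Set.mem_iUnion] at this
    obtain ⟨c, hc, hc'⟩ := this
    exact ⟨⟨c, htf.mem_toFinset.2 hc⟩, hc'⟩
  choose c hc using h3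
  have hcard : Fintype.card htf.toFinset < Fintype.card (Fin (htf.toFinset.card + 1)) := by
    rw [Fintype.card_coe, Fintype.card_fin]; omega
  obtain ⟨i, j, hij, he⟩ := Fintype.exists_ne_map_eq_of_card_lt c hcard
  have h4 := h2 i j hij
  have h5 := hc i
  have h6 := hc j
  rw [← he] at h6
  have h7 := dist_triangle_right (f i) (f j) (c i : E)
  linarith

theorem Sep_anti : Antitone Sep := by
  intro K L hKL X
  rintro ⟨f, h1, h2⟩
  exact ⟨fun i => f (Fin.castLE hKL i), fun i => h1 _, fun i j hij => h2 _ _ (fun hc => hij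
    (Fin.castLE_injective hKL hc))⟩

theorem iInter_Sep : ⋂ K, Sep K = ∅ := by
  ext X
  simp only [Set.mem_iInter, Set.mem_empty_iff_false, iff_false, not_forall]
  exact bounded_sep X.o 2 one_pos

/-! ### The rescaled spaces -/

theorem rescaled_disc {𝒯 : Set DSquare} {a b : ℝ} {X : PMMSpace} (ha : 0 < a)
    (hX : IsRescaled 𝒯 a b X) : X ∈ Disc a := by
  obtain ⟨R, e, h0, ho, hd, -⟩ := hX
  intro y z hyz
  obtain ⟨S, rfl⟩ := e.surjective y
  obtain ⟨T, rfl⟩ := e.surjective z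
  rw [hd]
  have hne : S ≠ T := fun h => hyz (by rw [h])
  have hr : (adjGraph 𝒯).Reachable S.1 T.1 := S.2.symm.trans T.2
  have h1 := hr.pos_dist_of_ne (fun h => hne (Subtype.ext h))
  have h2 : (1 : ℝ) ≤ (adjGraph 𝒯).dist S.1 T.1 := by exact_mod_cast h1
  nlinarith

/-- from far points in the graph to separated points in the rescaled space -/
theorem rescaled_sep {𝒯 : Set DSquare} {a b : ℝ} {X : PMMSpace} (ha : 0 < a)
    (hX : IsRescaled 𝒯 a b X) {R₀ : 𝒯}
    (hR : ∀ R : 𝒯, (0 : ℂ) ∈ R.1.toSet → ∃ w : (adjGraph 𝒯).Walk R R₀, w.length ≤ 2)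
    {K ρ M : ℕ} (f : Fin K → 𝒯) (hf : ∀ i, (adjGraph 𝒯).Reachable R₀ (f i) ∧
      (adjGraph 𝒯).dist R₀ (f i) = ρ ∧ ∀ j, i ≠ j → 2 * (ρ - M) ≤ (adjGraph 𝒯).dist (f i) (f j))
    (h1 : a * (ρ + 2) ≤ 2) (h2 : 1 ≤ a * (2 * (ρ - M) : ℕ)) : X ∈ Sep K := by
  obtain ⟨R, e, h0, ho, hd, -⟩ := hX
  obtain ⟨w, hw⟩ := hR R h0
  have hr : ∀ i, (adjGraph 𝒯).Reachable R (f i) := fun i => (show (adjGraph 𝒯).Reachable R R₀ from
    ⟨w⟩).trans (hf i).1
  refine ⟨fun i => e ⟨f i, hr i⟩, fun i => ?_, fun i j hij => ?_⟩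
  · rw [← ho, hd]
    refine le_trans ?_ h1
    apply mul_le_mul_of_nonneg_left _ ha.le
    have h3 : (adjGraph 𝒯).dist (f i) R ≤ ρ + 2 := by
      obtain ⟨w', hw'⟩ := (hf i).1.exists_walk_length_eq_dist
      rw [SimpleGraph.dist_comm]
      refine (SimpleGraph.dist_le (w.append w')).trans ?_
      rw [SimpleGraph.Walk.length_append, hw', (hf i).2.1]
      omega
    exact_mod_cast h3
  · rw [hd]
    refine h2.trans ?_
    apply mul_le_mul_of_nonneg_left _ ha.le
    exact_mod_cast (hf i).2.2 j hij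

/-- an infinite degree excludes properness -/
theorem rescaled_infinite {𝒯 : Set DSquare} {a b : ℝ} {X : PMMSpace} (ha : 0 < a) {R₀ : 𝒯}
    (hR : ∀ R : 𝒯, (0 : ℂ) ∈ R.1.toSet → ∃ w : (adjGraph 𝒯).Walk R R₀, w.length ≤ 2)
    (hinf : {T | (adjGraph 𝒯).Adj R₀ T}.Infinite) : ¬ IsRescaled 𝒯 a b X := by
  rintro ⟨R, e, h0, ho, hd, -⟩
  obtain ⟨w, hw⟩ := hR R h0
  have hr0 : (adjGraph 𝒯).Reachable R R₀ := ⟨w⟩
  obtain ⟨K, hK⟩ := bounded_sep (e ⟨R₀, hr0⟩) a ha
  apply hK
  obtain ⟨t, ht, htc⟩ := hinf.exists_subset_card_eq K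
  have g : Fin K ≃ t := (t.equivFinOfCardEq htc).symm
  have hadj : ∀ i, (adjGraph 𝒯).Adj R₀ (g i) := fun i => ht (g i).2
  refine ⟨fun i => e ⟨g i, hr0.trans (hadj i).reachable⟩, fun i => ?_, fun i j hij => ?_⟩
  · rw [hd, SimpleGraph.dist_comm, SimpleGraph.dist_eq_one_iff_adj.2 (hadj i)]
    simp
  · rw [hd]
    have hne : (g i : 𝒯) ≠ g j := fun h => hij (g.injective (Subtype.ext h))
    have hr : (adjGraph 𝒯).Reachable (g i : 𝒯) (g j) :=
      (hadj i).reachable.symm.trans (hadj j).reachable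
    have h1 := hr.pos_dist_of_ne hne
    have h2 : (1 : ℝ) ≤ (adjGraph 𝒯).dist (g i : 𝒯) (g j) := by exact_mod_cast h1
    nlinarith

end Pool.Agent.Q216.GH
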