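import Pool.Agent.Q216.GH.Main

set_option autoImplicit false

/-!
# The limits are lattice spaces
-/

namespace Pool.Agent.Q216.GH

open MeasureTheory ProbabilityTheory Real Filter Topology
open Pool.Agent.Y980 Pool.Agent.Y980.DSquare
open scoped ENNReal NNReal

/-- all the distances lie in `F` -/
def DF (F : Set ℝ) : Set PMMSpace := {X | ∀ y z : X.X, dist y z ∈ F}

theorem isClosed_DF {F : Set ℝ} (hF : IsClosed F) : IsClosedGHP (DF F) := by
  rintro Xs X hXs ⟨Z, _, _, f, g, hf, hg, ho, hH, -⟩ y z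
  rw [← hF.closure_eq, Metric.mem_closure_iff]
  intro η hη
  obtain ⟨n, -, hn⟩ := (hH (max (dist y X.o) (dist z X.o)) (η / 2) (by positivity)).exists
  obtain ⟨x, hx⟩ := hn y (le_max_left _ _)
  obtain ⟨x', hx'⟩ := hn z (le_max_right _ _)
  refine ⟨dist x x', hXs n x x', ?_⟩
  rw [← (hf n).dist_eq x x', ← hg.dist_eq y z]
  have h1 := dist_dist_dist_le (g y) (g z) (f n x) (f n x')
  rw [dist_comm (g y) (f n x), dist_comm (g z) (f n x')] at h1
  linarith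

/-- the numbers which are close to the multiples of `α` -/
def FF (α δ : ℝ) : Set ℝ := ⋃ k : ℕ, Set.Icc ((α - δ) * k) ((α + δ) * k)

theorem isClosed_FF {α δ : ℝ} (h : δ < α) : IsClosed (FF α δ) := by
  have h0 : 0 < α - δ := by linarith
  refine LocallyFinite.isClosed_iUnion ?_ fun _ => isClosed_Icc
  intro x
  refine ⟨Set.Iio (x + 1), Iio_mem_nhds (by linarith), ?_⟩
  refine (Set.finite_Iic (⌈(x + 1) / (α - δ)⌉₊)).subset ?_
  rintro k ⟨y, hy1, hy2⟩
  have h1 : (α - δ) * k < x + 1 := lt_of_le_of_lt hy1.1 hy2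
  have h2 : (k : ℝ) < (x + 1) / (α - δ) := by
    rw [lt_div_iff₀ h0]; linarith
  have h3 : (k : ℝ) < ⌈(x + 1) / (α - δ)⌉₊ := lt_of_lt_of_le h2 (Nat.le_ceil _)
  rw [Set.mem_Iic]
  exact_mod_cast h3.le

theorem mem_of_FF {α : ℝ} (hα : 0 < α) {d : ℝ} (h : ∀ j : ℕ, d ∈ FF α (α / 2 * (1 / (j + 1)))) :
    ∃ k : ℕ, d = α * k := by
  have hcl : IsClosed (FF α 0) := isClosed_FF hα
  have hd : d ∈ FF α 0 := by
    rw [← hcl.closure_eq, Metric.mem_closure_iff]
    intro η hη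
    have hlim : Tendsto (fun j : ℕ => d * (1 / ((j : ℝ) + 1))) atTop (𝓝 (d * 0)) :=
      tendsto_one_div_add_atTop_nhds_zero_nat.const_mul d
    rw [mul_zero] at hlim
    obtain ⟨j, hj⟩ := (hlim.eventually_lt_const hη).exists
    obtain ⟨k, hk1, hk2⟩ := Set.mem_iUnion.1 (h j)
    set e := 1 / ((j : ℝ) + 1) with he
    have he0 : 0 < e := by positivity
    have he1 : e ≤ 1 := by
      rw [he, div_le_one (by positivity)]
      have : (0 : ℝ) ≤ j := Nat.cast_nonneg j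
      linarith
    have hk0 : (0 : ℝ) ≤ k := Nat.cast_nonneg k
    have h1 : α / 2 * k ≤ d := by
      refine le_trans ?_ hk1
      apply mul_le_mul_of_nonneg_right _ hk0
      nlinarith
    refine ⟨α * k, Set.mem_iUnion.2 ⟨k, by simp, by simp⟩, ?_⟩
    rw [Real.dist_eq]
    refine lt_of_le_of_lt ?_ hj
    rw [abs_le]
    have h2 : α / 2 * e * k ≤ d * e := by nlinarith
    constructor
    · nlinarith
    · nlinarith
  obtain ⟨k, hk1, hk2⟩ := Set.mem_iUnion.1 hd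
  refine ⟨k, ?_⟩
  simp only [sub_zero, add_zero] at hk1 hk2
  linarith

theorem rescaled_DF {𝒯 : Set DSquare} {a b : ℝ} {X : PMMSpace} {F : Set ℝ}
    (hF : ∀ k : ℕ, a * k ∈ F) (hX : IsRescaled 𝒯 a b X) : X ∈ DF F := by
  obtain ⟨R, e, h0, ho, hd, -⟩ := hX
  intro y z
  obtain ⟨S, rfl⟩ := e.surjective y
  obtain ⟨T, rfl⟩ := e.surjective z
  rw [hd]
  exact hF _

variable {Ω : Type*} [MeasurableSpace Ω] {P : Measure Ω} {h : ℝ → ℂ → Ω → ℝ}
  {Q : ℝ} {a b : ℝ → ℝ} {X : ℝ → Ω → PMMSpace}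
  {Ω' : Type*} [MeasurableSpace Ω'] {P' : Measure Ω'} {Y : Ω' → PMMSpace}

theorem ae_DF [IsProbabilityMeasure P] [IsProbabilityMeasure P']
    (hX : Tendsto (fun ε => P {ω | ¬ IsRescaled (tiling Q h ε ω) (a ε) (b ε) (X ε ω)}) (𝓝[>] 0)
      (𝓝 0)) (hY : ConvergesInLaw P X P' Y) {F : Set ℝ} (hF : IsClosed F)
    (hfr : ∃ᶠ ε in 𝓝[>] (0 : ℝ), ∀ k : ℕ, a ε * k ∈ F) : ∀ᵐ ω ∂P', Y ω ∈ DF F := by
  obtain ⟨hm, hle⟩ := hY (DF F) (isClosed_DF hF)
  have h1 : 1 ≤ limsup (fun ε : ℝ => P {ω | X ε ω ∈ DF F}) (𝓝[>] 0) := by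
    refine ENNReal.le_of_forall_pos_le_add fun δ hδ _ => ?_
    have hδ' : (0 : ℝ≥0∞) < δ := by exact_mod_cast hδ
    have h2 := hX.eventually_lt_const hδ'
    have h3 : ∃ᶠ ε : ℝ in 𝓝[>] 0, 1 - (δ : ℝ≥0∞) ≤ P {ω | X ε ω ∈ DF F} := by
      refine (hfr.and_eventually h2).mono ?_
      rintro ε ⟨hε1, hε2⟩
      rw [tsub_le_iff_right]
      have h5 : (Set.univ : Set Ω) ⊆ {ω | X ε ω ∈ DF F} ∪
          {ω | ¬ IsRescaled (tiling Q h ε ω) (a ε) (b ε) (X ε ω)} := by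
        intro ω _
        by_cases hr : IsRescaled (tiling Q h ε ω) (a ε) (b ε) (X ε ω)
        · exact Or.inl (rescaled_DF hε1 hr)
        · exact Or.inr hr
      calc (1 : ℝ≥0∞) = P Set.univ := measure_univ.symm
        _ ≤ _ := (measure_mono h5).trans (measure_union_le _ _)
        _ ≤ _ := add_le_add_right hε2.le _
    have h6 := le_limsup_of_frequently_le h3
    exact tsub_le_iff_right.1 h6
  have h2 : P' {ω | Y ω ∈ DF F} = 1 := le_antisymm prob_le_one (h1.trans hle)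
  rw [← prob_compl_eq_zero_iff₀ hm] at h2
  exact h2

/-- **The possible limits**: all the distances are multiples of one constant. -/
theorem limit_lattice (hh : IsGFF P h) (hQ : 0 < Q) (hQ2 : Q < 2) (ha : ∀ ε, 0 < ε → 0 < a ε)
    (hX : Tendsto (fun ε => P {ω | ¬ IsRescaled (tiling Q h ε ω) (a ε) (b ε) (X ε ω)}) (𝓝[>] 0)
      (𝓝 0)) [IsProbabilityMeasure P'] (hY : ConvergesInLaw P X P' Y) :
    ∃ α : ℝ, 0 < α ∧ ∀ᵐ ω ∂P', ∀ y z : (Y ω).X, ∃ k : ℕ, dist y z = α * k := by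
  have hp := hh.gaussian.isProbabilityMeasure
  by_cases hunb : ∀ A : ℕ, ∃ᶠ ε in 𝓝[>] (0 : ℝ), (A : ℝ) ≤ a ε
  · refine ⟨1, one_pos, ?_⟩
    have h1 : ∀ A : ℕ, ∀ᵐ ω ∂P', Y ω ∈ DF ({0} ∪ Set.Ici (A : ℝ)) := by
      intro A
      refine ae_DF hX hY (isClosed_singleton.union isClosed_Ici) ((hunb A).mono fun ε hε k => ?_)
      rcases Nat.eq_zero_or_pos k with rfl | hk
      · left; simp
      · right
        have hk' : (1 : ℝ) ≤ k := by exact_mod_cast hk
        have hA : (0 : ℝ) ≤ A := Nat.cast_nonneg A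
        rw [Set.mem_Ici]
        nlinarith
    filter_upwards [ae_all_iff.2 h1] with ω hω y z
    refine ⟨0, ?_⟩
    obtain ⟨A, hA⟩ := exists_nat_gt (dist y z)
    rcases hω A y z with h2 | h2
    · rw [Set.mem_singleton_iff] at h2
      simp [h2]
    · rw [Set.mem_Ici] at h2
      linarith
  · push Not at hunb
    obtain ⟨A, hA⟩ := hunb
    have h0 := no_scaling hh hQ hQ2 ha hX hY
    rw [Metric.tendsto_nhds] at h0
    push Not at h0
    obtain ⟨c, hc, hfr⟩ := h0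
    have hfr' : ∃ᶠ ε in 𝓝[>] (0 : ℝ), a ε ∈ Set.Icc c A := by
      refine (hfr.and_eventually (hA.and self_mem_nhdsWithin)).mono ?_
      rintro ε ⟨h1, h2, h3⟩
      rw [Real.dist_eq, sub_zero, abs_of_pos (ha ε h3)] at h1
      exact ⟨h1, h2.le⟩
    obtain ⟨α, hα, hcl⟩ := isCompact_Icc.exists_mapClusterPt_of_frequently hfr'
    have hα0 : 0 < α := lt_of_lt_of_le hc hα.1
    refine ⟨α, hα0, ?_⟩
    have h1 : ∀ j : ℕ, ∀ᵐ ω ∂P', Y ω ∈ DF (FF α (α / 2 * (1 / (j + 1)))) := by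
      intro j
      set δ := α / 2 * (1 / ((j : ℝ) + 1)) with hδ
      have hδ0 : 0 < δ := by positivity
      have hδ1 : δ < α := by
        have : 1 / ((j : ℝ) + 1) ≤ 1 := by
          rw [div_le_one (by positivity)]
          have : (0 : ℝ) ≤ j := Nat.cast_nonneg j
          linarith
        nlinarith
      refine ae_DF hX hY (isClosed_FF hδ1) ?_
      have h2 : ∃ᶠ ε in 𝓝[>] (0 : ℝ), a ε ∈ Metric.ball α δ :=
        mapClusterPt_iff_frequently.1 hcl _ (Metric.ball_mem_nhds α hδ0)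
      refine h2.mono fun ε hε k => ?_
      rw [Metric.mem_ball, Real.dist_eq, abs_lt] at hε
      have hk : (0 : ℝ) ≤ k := Nat.cast_nonneg k
      exact Set.mem_iUnion.2 ⟨k, by nlinarith [hε.1], by nlinarith [hε.2]⟩
    filter_upwards [ae_all_iff.2 h1] with ω hω y z
    exact mem_of_FF hα0 fun j => hω j y z

end Pool.Agent.Q216.GH
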