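import Pool.Agent.Y980.Many
import Pool.Agent.Y980.Tail
import Pool.Agent.Y980.Graph

set_option autoImplicit false

/-!
# The tiling near the root: deterministic part
-/

namespace Pool.Agent.Q216.GH

open Pool.Agent.Y980 Pool.Agent.Y980.DSquare

/-- `p` lies in the interior of `S` -/
def Inside (S : DSquare) (p : ℂ) : Prop :=
  (S.i : ℝ) < p.re / S.side ∧ p.re / S.side < S.i + 1 ∧
    (S.j : ℝ) < p.im / S.side ∧ p.im / S.side < S.j + 1

theorem Inside.anc {S : DSquare} {p : ℂ} (h : Inside S p) (k : ℕ) : Inside (anc k S) p := by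
  obtain ⟨h1, h2, h3, h4⟩ := h
  have hs := S.side_pos
  have e : p.re / S.side = p.re / (DSquare.anc k S).side * 2 ^ k := by
    rw [side_anc]; field_simp
  have e' : p.im / S.side = p.im / (DSquare.anc k S).side * 2 ^ k := by
    rw [side_anc]; field_simp
  rw [e] at h1 h2
  rw [e'] at h3 h4
  have hp : (0 : ℝ) < 2 ^ k := by positivity
  have a1 := ediv_le_real S.i k
  have a2 := real_lt_ediv S.i k
  have a3 := ediv_le_real S.j k
  have a4 := real_lt_ediv S.j k
  refine ⟨?_, ?_, ?_, ?_⟩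
  · exact lt_of_mul_lt_mul_right (lt_of_le_of_lt a1 h1) hp.le
  · exact lt_of_mul_lt_mul_right (lt_of_lt_of_le h2 a2) hp.le
  · exact lt_of_mul_lt_mul_right (lt_of_le_of_lt a3 h3) hp.le
  · exact lt_of_mul_lt_mul_right (lt_of_lt_of_le h4 a4) hp.le

theorem same_level {S T : DSquare} {p : ℂ} (hn : S.n = T.n) (hS : Inside S p) (hT : p ∈ T.toSet) :
    S = T := by
  rw [mem_toSet] at hT
  obtain ⟨h1, h2, h3, h4⟩ := hS
  have hs : T.side = S.side := by unfold side; rw [hn]
  rw [hs] at hT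
  obtain ⟨t1, t2, t3, t4⟩ := hT
  have a1 : (S.i : ℝ) < T.i + 1 := lt_of_lt_of_le h1 t2
  have a2 : (T.i : ℝ) < S.i + 1 := lt_of_le_of_lt t1 h2
  have a3 : (S.j : ℝ) < T.j + 1 := lt_of_lt_of_le h3 t4
  have a4 : (T.j : ℝ) < S.j + 1 := lt_of_le_of_lt t3 h4
  have b1 : S.i < T.i + 1 := by exact_mod_cast a1
  have b2 : T.i < S.i + 1 := by exact_mod_cast a2
  have b3 : S.j < T.j + 1 := by exact_mod_cast a3
  have b4 : T.j < S.j + 1 := by exact_mod_cast a4
  ext
  · exact hn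
  · omega
  · omega

/-- a dyadic square which meets the interior of `S` contains `S` or is contained in `S` -/
theorem nested {S T : DSquare} {p : ℂ} (hS : Inside S p) (hT : p ∈ T.toSet) :
    (∃ k, anc k T = S) ∨ ∃ k, anc k S = T := by
  rcases le_total S.n T.n with h | h
  · refine Or.inl ⟨(T.n - S.n).toNat, ?_⟩
    refine (same_level ?_ hS (subset_anc _ _ hT)).symm
    simp only [anc]
    rw [Int.toNat_of_nonneg (by omega)]
    ring
  · refine Or.inr ⟨(S.n - T.n).toNat, ?_⟩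
    refine same_level ?_ (hS.anc _) hT
    simp only [anc]
    rw [Int.toNat_of_nonneg (by omega)]
    ring

/-- a descendant of `S` which meets a square not nested with `S` touches the boundary of `S` -/
theorem bd_of_touch {S T T' : DSquare} {q : ℕ} {p : ℂ} (hq : anc q T = S) (hp : p ∈ T.toSet)
    (hp' : p ∈ T'.toSet) (h1 : ¬ ∃ k, anc k T' = S) (h2 : ¬ ∃ k, anc k S = T') :
    Bd q T.i T.j := by
  by_contra hb
  unfold Bd at hb
  push Not at hb
  obtain ⟨b1, b2, b3, b4⟩ := hb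
  rw [mem_toSet] at hp
  obtain ⟨p1, p2, p3, p4⟩ := hp
  have hs := T.side_pos
  have hq0 : (0 : ℤ) < 2 ^ q := by positivity
  have key : ∀ a : ℤ, ¬ (2 : ℤ) ^ q ∣ a → ¬ (2 : ℤ) ^ q ∣ a + 1 →
      ((a / 2 ^ q : ℤ) : ℝ) * 2 ^ q < a ∧ (a : ℝ) + 1 < (((a / 2 ^ q : ℤ) : ℝ) + 1) * 2 ^ q := by
    intro a h1 h2
    have c1 := Int.ediv_mul_le a hq0.ne'
    have c2 := Int.lt_ediv_add_one_mul_self a hq0
    have c3 : a / 2 ^ q * 2 ^ q ≠ a := fun h => h1 ⟨_, by rw [mul_comm]; exact h.symm⟩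
    have c4 : (a / 2 ^ q + 1) * 2 ^ q ≠ a + 1 := fun h => h2 ⟨_, by rw [mul_comm]; exact h.symm⟩
    have d1 : a / 2 ^ q * 2 ^ q < a := by omega
    have d2 : a + 1 < (a / 2 ^ q + 1) * 2 ^ q := by omega
    exact ⟨by exact_mod_cast d1, by exact_mod_cast d2⟩
  have hI : Inside S p := by
    have e : p.re / T.side = p.re / S.side * 2 ^ q := by
      rw [← hq, side_anc]; field_simp
    have e' : p.im / T.side = p.im / S.side * 2 ^ q := by
      rw [← hq, side_anc]; field_simp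
    rw [e] at p1 p2
    rw [e'] at p3 p4
    have k1 := key T.i b1 b2
    have k2 := key T.j b3 b4
    have i1 : S.i = T.i / 2 ^ q := by rw [← hq]; rfl
    have i2 : S.j = T.j / 2 ^ q := by rw [← hq]; rfl
    have hp : (0 : ℝ) < 2 ^ q := by positivity
    rw [← i1] at k1
    rw [← i2] at k2
    refine ⟨?_, ?_, ?_, ?_⟩
    · exact lt_of_mul_lt_mul_right (lt_of_lt_of_le k1.1 p1) hp.le
    · exact lt_of_mul_lt_mul_right (lt_of_le_of_lt p2 k1.2) hp.le
    · exact lt_of_mul_lt_mul_right (lt_of_lt_of_le k2.1 p3) hp.le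
    · exact lt_of_mul_lt_mul_right (lt_of_le_of_lt p4 k2.2) hp.le
  rcases nested hI hp' with h | h
  · exact h1 h
  · exact h2 h

variable {x : DSquare → ℝ} {u : ℝ}

/-- the tiles inside `S` -/
def Wset (x : DSquare → ℝ) (u : ℝ) (S : DSquare) : Set (tiles x u) := {T | ∃ q, anc q T.1 = S}

/-- there are only finitely many tiles among finitely many squares -/
theorem finite_tiles {Z : Set DSquare} (hZ : Z.Finite) : {T : tiles x u | T.1 ∈ Z}.Finite :=
  hZ.preimage Subtype.val_injective.injOn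

/-- the squares in `[1,2] × [0,1]` of level at most `N` -/
theorem finite_inB (N : ℕ) : {S : DSquare | ∃ n : ℕ, n ≤ N ∧ S.n = n ∧ InB n S.i S.j}.Finite := by
  have h : {S : DSquare | ∃ n : ℕ, n ≤ N ∧ S.n = n ∧ InB n S.i S.j} ⊆
      (fun t : ℕ × ℤ × ℤ => (⟨t.1, t.2.1, t.2.2⟩ : DSquare)) ''
        ((Finset.range (N + 1) ×ˢ Finset.Ico (0 : ℤ) (2 ^ (N + 1)) ×ˢ
          Finset.Ico (0 : ℤ) (2 ^ (N + 1)) : Finset (ℕ × ℤ × ℤ)) : Set (ℕ × ℤ × ℤ)) := by
    rintro S ⟨n, hn, hSn, hin⟩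
    refine ⟨(n, S.i, S.j), ?_, ?_⟩
    · rw [inB_iff] at hin
      have h1 : (2 : ℤ) ^ n ≤ 2 ^ N := pow_le_pow_right₀ (by norm_num) hn
      have h2 : (0 : ℤ) < 2 ^ n := by positivity
      have h3 : (2 : ℤ) ^ (N + 1) = 2 ^ N + 2 ^ N := by ring
      simp only [Finset.coe_product, Set.mem_prod, Finset.mem_coe, Finset.mem_range,
        Finset.mem_Ico]
      refine ⟨by omega, ⟨by omega, by omega⟩, ⟨by omega, by omega⟩⟩
    · ext
      · exact hSn.symm
      · rfl
      · rfl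
  exact ((Finset.finite_toSet _).image _).subset h

theorem Wset.spec {m : ℕ} {v : ℤ × ℤ} (hv : InB m v.1 v.2) {T : tiles x u}
    (hT : T ∈ Wset x u ⟨m, v.1, v.2⟩) :
    ∃ (q : ℕ) (i j : ℤ), T.1 = ⟨(m + q : ℕ), i, j⟩ ∧ InB (m + q) i j ∧
      i / 2 ^ q = v.1 ∧ j / 2 ^ q = v.2 := by
  obtain ⟨q, hq⟩ := hT
  have h1 : T.1.n - q = m := congrArg DSquare.n hq
  have h2 : T.1.i / 2 ^ q = v.1 := congrArg DSquare.i hq
  have h3 : T.1.j / 2 ^ q = v.2 := congrArg DSquare.j hq
  refine ⟨q, T.1.i, T.1.j, ?_, ?_, h2, h3⟩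
  · ext
    · push_cast; omega
    · rfl
    · rfl
  · apply InB.of_ediv
    rw [h2, h3]
    exact hv

/-- the conditions on the field -/
structure Cond (x : DSquare → ℝ) (u : ℝ) : Prop where
  root : x ⟨0, 0, 0⟩ ≤ u
  anc : ∀ k : ℕ, 0 < k → u < x (anc k ⟨0, 0, 0⟩)
  corner : ∀ (n : ℕ) (i j : ℤ), InB n i j → ∃ k : ℕ, x ⟨(n + k : ℕ), i * 2 ^ k, j * 2 ^ k⟩ ≤ u

theorem Cond.tile (h : Cond x u) : (⟨0, 0, 0⟩ : DSquare) ∈ tiles x u :=
  mem_tiles.2 ⟨h.root, h.anc⟩

/-- a square all of whose ancestors inside `[1,2] × [0,1]` are above the threshold is alive -/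
theorem Cond.alive (h : Cond x u) {n : ℕ} {s : ℤ × ℤ} (hs : InB n s.1 s.2)
    (ha : ∀ j ≤ n, u < x (ans n s j)) {l : ℕ} (hl : l ≤ n) : Alive x u (ans n s l) := by
  have e0 : ans n s l = DSquare.anc (n - l) ⟨n, s.1, s.2⟩ := by
    unfold ans DSquare.anc
    ext
    · simp only; push_cast [Nat.cast_sub hl]; ring
    · rfl
    · rfl
  have h1 : Alive x u ⟨n, s.1, s.2⟩ := by
    intro k
    rcases le_or_gt k n with hk | hk
    · have := ha (n - k) (by omega)
      have e : DSquare.anc k ⟨n, s.1, s.2⟩ = ans n s (n - k) := by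
        unfold ans DSquare.anc
        have e2 : n - (n - k) = k := by omega
        ext
        · simp only; push_cast [Nat.cast_sub hk]; ring
        · simp only [e2]
        · simp only [e2]
      rw [e]; exact this
    · rw [anc_inB hs hk]
      exact h.anc _ (by omega)
  rw [e0]
  exact h1.anc _

theorem ans_inB {n : ℕ} {s : ℤ × ℤ} (hs : InB n s.1 s.2) {l : ℕ} (hl : l ≤ n) :
    InB l (s.1 / 2 ^ (n - l)) (s.2 / 2 ^ (n - l)) := by
  obtain ⟨q, rfl⟩ := Nat.exists_eq_add_of_le hl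
  rw [Nat.add_sub_cancel_left]
  exact hs.ediv

/-- an alive square of level `L` contains a tile on its corner chain -/
theorem Cond.exists_tile (h : Cond x u) {L : ℕ} {i j : ℤ} (hin : InB L i j)
    (hal : Alive x u ⟨L, i, j⟩) : ∃ k : ℕ, 0 < k ∧
      (⟨(L + k : ℕ), i * 2 ^ k, j * 2 ^ k⟩ : DSquare) ∈ tiles x u := by
  obtain ⟨k0, hk0⟩ := h.corner L i j hin
  set s : DSquare := ⟨(L + k0 : ℕ), i * 2 ^ k0, j * 2 ^ k0⟩ with hs
  have hanc : ∀ k ≤ k0, DSquare.anc k s = ⟨(L + (k0 - k) : ℕ), i * 2 ^ (k0 - k), j * 2 ^ (k0 - k)⟩ := by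
    intro k hk
    have e : (2 : ℤ) ^ k0 = 2 ^ (k0 - k) * 2 ^ k := by rw [← pow_add]; congr 1; omega
    unfold DSquare.anc
    ext
    · simp only [hs]; push_cast [Nat.cast_sub hk]; ring
    · simp only [hs]
      rw [e, ← mul_assoc, Int.mul_ediv_cancel _ (by positivity)]
    · simp only [hs]
      rw [e, ← mul_assoc, Int.mul_ediv_cancel _ (by positivity)]
  have h1 : ¬ Alive x u s := fun hc => absurd (hc 0) (not_lt.2 (by rw [anc_zero]; exact hk0))
  have h2 : ∀ k, k0 ≤ k → u < x (DSquare.anc k s) := by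
    intro k hk
    have e : DSquare.anc k s = DSquare.anc (k - k0) ⟨L, i, j⟩ := by
      have : k = (k - k0) + k0 := by omega
      rw [this, ← anc_anc, hanc k0 le_rfl]
      simp
    rw [e]
    exact hal _
  obtain ⟨k, hk, hk'⟩ := Y980.exists_tile h1 k0 h2
  refine ⟨k0 - k, by omega, ?_⟩
  rw [hanc k hk.le] at hk'
  exact hk'

/-- **Ends.** -/
theorem Cond.ends (h : Cond x u) {K m N : ℕ} (hmN : m ≤ N) (hno : NoAlive x u m N)
    (hall : ∀ m' : ℕ, ∃ N', m' ≤ N' ∧ NoAlive x u m' N') {v : Fin K → ℤ × ℤ}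
    (hvi : Function.Injective v) (hv : ∀ a, InB m (v a).1 (v a).2)
    (hs : ∀ a, ∀ n, m ≤ n → ∃ s : ℤ × ℤ, InB n s.1 s.2 ∧ s.1 / 2 ^ (n - m) = (v a).1 ∧
      s.2 / 2 ^ (n - m) = (v a).2 ∧ ∀ j ≤ n, u < x (ans n s j))
    (ρ : ℕ) (hρ : 2 ^ (N + 1) ≤ ρ) :
    ∃ f : Fin K → tiles x u, ∀ a, (adjGraph (tiles x u)).Reachable ⟨_, h.tile⟩ (f a) ∧
      (adjGraph (tiles x u)).dist ⟨_, h.tile⟩ (f a) = ρ ∧
      ∀ b, a ≠ b → 2 * (ρ - 2 ^ (N + 1)) ≤ (adjGraph (tiles x u)).dist (f a) (f b) := by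
  have hval : ∀ a, Alive x u ⟨m, (v a).1, (v a).2⟩ := by
    intro a
    obtain ⟨s, h1, h2, h3, h4⟩ := hs a m le_rfl
    have := h.alive h1 h4 le_rfl
    unfold ans at this
    rw [Nat.sub_self, pow_zero, Int.ediv_one] at h2 h3
    rw [Nat.sub_self, pow_zero, Int.ediv_one, Int.ediv_one, h2, h3] at this
    exact this
  have hwalk : ∀ a, ∀ T ∈ Wset x u ⟨m, (v a).1, (v a).2⟩,
      (adjGraph (tiles x u)).Reachable ⟨_, h.tile⟩ T := by
    intro a T hT
    obtain ⟨q, i, j, e, hin, -, -⟩ := Wset.spec (hv a) hT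
    obtain ⟨N', hN', hno'⟩ := hall (m + q)
    have hT' : (⟨((m + q) + 0 : ℕ), i, j⟩ : DSquare) ∈ tiles x u := by
      have := T.2
      rw [e] at this
      exact this
    obtain ⟨w, -⟩ := bd_walk h.tile h.anc hN' hno' (q := 0) (i := i) (j := j) hin
      (Or.inl (by simp)) hT'
    have e2 : T = ⟨_, hT'⟩ := Subtype.ext e
    rw [e2]
    exact ⟨w⟩
  have hbd : ∀ a, ∀ T ∈ Wset x u ⟨m, (v a).1, (v a).2⟩, ∀ T', T' ∉ Wset x u ⟨m, (v a).1, (v a).2⟩ →
      (adjGraph (tiles x u)).Adj T T' → ∃ (q : ℕ) (i j : ℤ), T.1 = ⟨(m + q : ℕ), i, j⟩ ∧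
        InB (m + q) i j ∧ Bd q i j := by
    intro a T hT T' hT' hadj
    obtain ⟨q, i, j, e, hin, e1, e2⟩ := Wset.spec (hv a) hT
    obtain ⟨p, hp, hp'⟩ := nonempty_inter_of_adj hadj
    refine ⟨q, i, j, e, hin, ?_⟩
    have hq : DSquare.anc q T.1 = ⟨m, (v a).1, (v a).2⟩ := by
      rw [e]
      unfold DSquare.anc
      ext
      · simp only; push_cast; ring
      · exact e1
      · exact e2
    have := bd_of_touch hq hp hp' (fun hc => hT' hc) (fun ⟨k, hk⟩ => by
      have := (hval a).anc k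
      rw [hk] at this
      exact this.not_mem T'.2)
    rw [e] at this
    exact this
  refine Y980.ends (M := 2 ^ (N + 1)) (fun a => Wset x u ⟨m, (v a).1, (v a).2⟩) ?_ ?_ ?_ ?_ hwalk ?_ ?_ ρ hρ
  · -- disjoint
    intro a b hab
    rw [Set.disjoint_left]
    intro T hT hT'
    obtain ⟨q, i, j, e, -, e1, e2⟩ := Wset.spec (hv a) hT
    obtain ⟨q', i', j', e', -, e1', e2'⟩ := Wset.spec (hv b) hT'
    rw [e] at e'
    have h1 : ((m + q : ℕ) : ℤ) = (m + q' : ℕ) := congrArg DSquare.n e'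
    have h2 : i = i' := congrArg DSquare.i e'
    have h3 : j = j' := congrArg DSquare.j e'
    have hqq : q = q' := by
      have : m + q = m + q' := by exact_mod_cast h1
      omega
    subst hqq h2 h3
    apply hab
    apply hvi
    exact Prod.ext (e1.symm.trans e1') (e2.symm.trans e2')
  · -- root
    intro a hT
    obtain ⟨q, i, j, e, hin, -, -⟩ := Wset.spec (hv a) hT
    have h1 : (0 : ℤ) = (m + q : ℕ) := congrArg DSquare.n e
    have h2 : (0 : ℤ) = i := congrArg DSquare.i e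
    rw [inB_iff] at hin
    have : (0 : ℤ) < 2 ^ (m + q) := by positivity
    omega
  · -- ring
    intro a T hT T' hT' hadj
    obtain ⟨q, i, j, e, hin, hb⟩ := hbd a T hT T' hT' hadj
    have hT2 : (⟨(m + q : ℕ), i, j⟩ : DSquare) ∈ tiles x u := by
      have := T.2
      rw [e] at this
      exact this
    obtain ⟨w, hw⟩ := bd_walk h.tile h.anc hmN hno hin hb hT2
    have e2 : T = ⟨_, hT2⟩ := Subtype.ext e
    rw [e2]
    exact ⟨w, hw⟩
  · -- the ring is finite
    intro a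
    refine (finite_tiles (finite_inB N)).subset ?_
    rintro T ⟨hT, T', hT', hadj⟩
    obtain ⟨q, i, j, e, hin, hb⟩ := hbd a T hT T' hT' hadj
    have hT2 : (⟨(m + q : ℕ), i, j⟩ : DSquare) ∈ tiles x u := by
      have := T.2
      rw [e] at this
      exact this
    refine ⟨m + q, level_le_of_bd hmN hno hin hb hT2, by rw [e], by rw [e]; exact hin⟩
  · -- infinite
    intro a
    have h1 : ∀ L : ℕ, m ≤ L → ∃ T ∈ Wset x u ⟨m, (v a).1, (v a).2⟩, (L : ℤ) < T.1.n := by
      intro L hL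
      obtain ⟨s, s1, s2, s3, s4⟩ := hs a L hL
      have hal := h.alive s1 s4 le_rfl
      unfold ans at hal
      rw [Nat.sub_self, pow_zero, Int.ediv_one, Int.ediv_one] at hal
      obtain ⟨k, hk, hk'⟩ := h.exists_tile s1 hal
      refine ⟨⟨_, hk'⟩, ⟨k + (L - m), ?_⟩, ?_⟩
      · unfold DSquare.anc
        have e : k + (L - m) = (L - m) + k := by omega
        ext
        · simp only; push_cast [Nat.cast_sub hL]; ring
        · simp only
          rw [e, pow_add, mul_comm ((2 : ℤ) ^ (L - m)) (2 ^ k),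
            ← Int.ediv_ediv_of_nonneg (by positivity), Int.mul_ediv_cancel _ (by positivity)]
          exact s2
        · simp only
          rw [e, pow_add, mul_comm ((2 : ℤ) ^ (L - m)) (2 ^ k),
            ← Int.ediv_ediv_of_nonneg (by positivity), Int.mul_ediv_cancel _ (by positivity)]
          exact s3
      · simp only; push_cast; omega
    intro hfin
    obtain ⟨B, hB⟩ := (hfin.image (fun T : tiles x u => T.1.n)).bddAbove
    obtain ⟨T, hT, hlt⟩ := h1 (max m B.toNat) (le_max_left _ _)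
    have h2 := hB ⟨T, hT, rfl⟩
    simp only at h2
    have h3 : B ≤ (max m B.toNat : ℕ) := by
      have := Int.self_le_toNat B
      push_cast
      exact le_trans this (le_max_right _ _)
    omega
  · -- locally finite
    intro a T hT
    obtain ⟨q, i, j, e, hin, e1, e2⟩ := Wset.spec (hv a) hT
    obtain ⟨N', hN', hno'⟩ := hall (m + q)
    refine (finite_tiles (finite_inB N')).subset ?_
    rintro T' ⟨hT', hadj⟩
    obtain ⟨q', i', j', e', hin', e1', e2'⟩ := Wset.spec (hv a) hT'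
    refine ⟨m + q', ?_, by rw [e'], by rw [e']; exact hin'⟩
    by_contra hc
    push Not at hc
    obtain ⟨d, hd⟩ : ∃ d, m + q' = (m + q) + d := ⟨q' - q, by omega⟩
    -- the ancestor of `T'` at the level of `T`
    have hne : DSquare.anc d T'.1 ≠ T.1 := by
      intro he
      rcases Nat.eq_zero_or_pos d with h0 | h0
      · rw [h0, anc_zero] at he
        exact hadj.ne (Subtype.ext he.symm)
      · have := alive_anc_of_tile T'.2 h0
        rw [he] at this
        exact this.not_mem T.2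
    have hlev : (DSquare.anc d T'.1).n = T.1.n := by
      rw [e, e']
      unfold DSquare.anc
      simp only
      rw [hd]; push_cast; ring
    obtain ⟨p, hp, hp'⟩ := nonempty_inter_of_adj hadj
    have hb := bd_of_touch (S := DSquare.anc d T'.1) (T := T'.1) (T' := T.1) rfl hp' hp
      (fun ⟨k, hk⟩ => by
        have : (DSquare.anc k T.1).n = T.1.n := by rw [hk, hlev]
        unfold DSquare.anc at this
        simp only at this
        have hk0 : k = 0 := by omega
        rw [hk0, anc_zero] at hk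
        exact hne hk.symm)
      (fun ⟨k, hk⟩ => by
        have : (DSquare.anc k (DSquare.anc d T'.1)).n = (DSquare.anc d T'.1).n := by
          rw [hk, hlev]
        have hk0 : k = 0 := by
          have e3 : (DSquare.anc k (DSquare.anc d T'.1)).n = (DSquare.anc d T'.1).n - k := rfl
          omega
        rw [hk0, anc_zero] at hk
        exact hne hk)
    have hT2 : (⟨((m + q) + d : ℕ), i', j'⟩ : DSquare) ∈ tiles x u := by
      have := T'.2
      rw [e', hd] at this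
      exact this
    rw [e'] at hb
    have hin2 : InB ((m + q) + d) i' j' := by rw [← hd]; exact hin'
    have := level_le_of_bd hN' hno' hin2 hb hT2
    omega

/-- **Infinite degree.** -/
theorem Cond.infinite_degree (h : Cond x u)
    (hs : ∀ n : ℕ, ∃ s : ℤ × ℤ, s.1 = 2 ^ n ∧ InB n s.1 s.2 ∧ ∀ j ≤ n, u < x (ans n s j)) :
    {T | (adjGraph (tiles x u)).Adj ⟨_, h.tile⟩ T}.Infinite := by
  have h1 : ∀ L : ℕ, ∃ T, (adjGraph (tiles x u)).Adj ⟨_, h.tile⟩ T ∧ (L : ℤ) < T.1.n := by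
    intro L
    obtain ⟨s, s1, s2, s3⟩ := hs L
    have hal := h.alive s2 s3 le_rfl
    unfold ans at hal
    rw [Nat.sub_self, pow_zero, Int.ediv_one, Int.ediv_one] at hal
    obtain ⟨k, hk, hk'⟩ := h.exists_tile s2 hal
    refine ⟨⟨_, hk'⟩, ?_, by simp only; push_cast; omega⟩
    have hin := inB_iff.1 s2
    have hL : (0 : ℤ) < 2 ^ L := by positivity
    have hkp : (0 : ℤ) < 2 ^ k := by positivity
    have e1 : s.1 * 2 ^ k = 2 ^ (L + k) - 1 + 1 := by rw [s1, pow_add]; ring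
    have e2 : 0 ≤ s.2 * 2 ^ k := mul_nonneg hin.2.2.1 hkp.le
    have e3 : s.2 * 2 ^ k < 2 ^ (L + k) := by
      rw [pow_add]
      exact mul_lt_mul_of_pos_right hin.2.2.2 hkp
    have hroot : (⟨⟨0, 0, 0⟩, h.tile⟩ : tiles x u).1 =
        DSquare.anc (L + k) ⟨((L + k : ℕ) : ℤ), 2 ^ (L + k) - 1, s.2 * 2 ^ k⟩ := by
      unfold DSquare.anc
      have hLk : (0 : ℤ) < 2 ^ (L + k) := by positivity
      ext
      · simp
      · simp only
        rw [Int.ediv_eq_zero_of_lt (by omega) (by omega)]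
      · simp only
        rw [Int.ediv_eq_zero_of_lt e2 e3]
    have hT : (⟨_, hk'⟩ : tiles x u).1 =
        DSquare.anc 0 ⟨((L + k : ℕ) : ℤ), 2 ^ (L + k) - 1 + 1, s.2 * 2 ^ k⟩ := by
      rw [anc_zero, ← e1]
    rcases step_right hroot hT with h2 | h2
    · exfalso
      have h3 := congrArg (fun T : tiles x u => T.1.n) h2
      simp only at h3
      push_cast at h3
      omega
    · exact h2
  intro hfin
  obtain ⟨B, hB⟩ := (hfin.image (fun T : tiles x u => T.1.n)).bddAbove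
  obtain ⟨T, hT, hlt⟩ := h1 B.toNat
  have h2 := hB ⟨T, hT, rfl⟩
  simp only at h2
  have h3 := Int.self_le_toNat B
  omega

end Pool.Agent.Q216.GH
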