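import Pool.Agent.Q216.GH.Ghp

set_option autoImplicit false

/-!
# No scaling limit of the dyadic tilings
-/

namespace Pool.Agent.Q216.GH

open MeasureTheory ProbabilityTheory Real Filter Topology
open Pool.Agent.Y980 Pool.Agent.Y980.DSquare
open scoped ENNReal NNReal

variable {Ω : Type*} [MeasurableSpace Ω] {P : Measure Ω} {h : ℝ → ℂ → Ω → ℝ}

/-! ### From the local events to the conditions -/

/-- a decreasing sequence of finite sets with at least `K` elements -/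
theorem stable_surv {D : ℕ → Finset (ℤ × ℤ)} {d : ℝ} (hD : Fam D d) {C : ℝ} {K m : ℕ}
    {x : DSquare → ℝ} (hx : x ∈ SurvE D C K m) :
    ∃ F : Finset (ℤ × ℤ), K ≤ F.card ∧ ∀ n, m ≤ n → F ⊆ surv D C m n x := by
  classical
  have hex : ∃ c, ∃ n, m ≤ n ∧ (surv D C m n x).card = c := ⟨_, m, le_rfl, rfl⟩
  obtain ⟨n₀, hn₀, hc⟩ := Nat.find_spec hex
  refine ⟨surv D C m n₀ x, hx n₀ hn₀, fun n hn => ?_⟩
  rcases le_total n n₀ with h | h
  · exact surv_anti hD hn h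
  · have h1 := surv_anti hD (C := C) (x := x) hn₀ h
    have h2 : (surv D C m n₀ x).card ≤ (surv D C m n x).card := by
      rw [hc]
      exact Nat.find_min' hex ⟨n, hn, rfl⟩
    exact (Finset.eq_of_subset_of_card_le h1 h2).ge

theorem cond_of {C t : ℝ} {x : DSquare → ℝ} (h0 : x ⟨0, 0, 0⟩ ≤ -(C + 1)) (h1 : x ∈ AncE C)
    (h2 : x ∈ CornerE (-(C + 1))) (t1 : -(C + 1) ≤ t) (t2 : t ≤ -C) : Cond x t := by
  refine ⟨h0.trans t1, fun k hk => lt_of_le_of_lt t2 (h1 k hk), fun n i j hin => ?_⟩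
  obtain ⟨k, hk⟩ := h2 n i j hin
  exact ⟨k, hk.trans t1⟩

theorem NoAlive.mono {x : DSquare → ℝ} {u t : ℝ} {m N : ℕ} (h : NoAlive x u m N) (hut : u ≤ t) :
    NoAlive x t m N :=
  fun i j hin hbd hal => h i j hin hbd (hal.mono hut)

/-- many ends -/
theorem ends_of {C t : ℝ} {K m N : ℕ} (hmN : m ≤ N) {x : DSquare → ℝ}
    (hx : x ∈ Low C (EvA C K m N)) (t1 : -(C + 1) ≤ t) (t2 : t ≤ -C)
    (hroot : (⟨0, 0, 0⟩ : DSquare) ∈ tiles x t) (ρ : ℕ) (hρ : 2 ^ (N + 1) ≤ ρ) :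
    ∃ f : Fin K → tiles x t, ∀ a, (adjGraph (tiles x t)).Reachable ⟨_, hroot⟩ (f a) ∧
      (adjGraph (tiles x t)).dist ⟨_, hroot⟩ (f a) = ρ ∧
      ∀ b, a ≠ b → 2 * (ρ - 2 ^ (N + 1)) ≤ (adjGraph (tiles x t)).dist (f a) (f b) := by
  obtain ⟨h0, h1, h2, h3, h4, h5⟩ := hx
  have hc := cond_of h0 h1 h2 t1 t2
  obtain ⟨F, hF, hF'⟩ := stable_surv fam_D2 h3
  obtain ⟨t', ht', hcard⟩ := Finset.exists_subset_card_eq hF
  let g : Fin K ≃ t' := (t'.equivFinOfCardEq hcard).symm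
  have hg : ∀ a, ∀ n, m ≤ n → (g a : ℤ × ℤ) ∈ surv D2 C m n x := fun a n hn =>
    hF' n hn (ht' (g a).2)
  refine hc.ends hmN (NoAlive.mono h4 t1) (fun m' => ?_) (v := fun a => (g a : ℤ × ℤ)) ?_ ?_ ?_ ρ hρ
  · obtain ⟨N', hN', hno⟩ := h5 m'
    exact ⟨N', hN', NoAlive.mono hno t1⟩
  · intro a b hab
    exact g.injective (Subtype.ext hab)
  · intro a
    exact mem_D2.1 (mem_surv.1 (hg a m le_rfl)).1
  · intro a n hn
    obtain ⟨-, s, hs, e1, e2, hs'⟩ := mem_surv.1 (hg a n hn)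
    exact ⟨s, mem_D2.1 hs, e1, e2, fun j hj => lt_of_le_of_lt t2 (hs' j hj)⟩

/-- infinite degree -/
theorem degree_of {C t : ℝ} {m : ℕ} {x : DSquare → ℝ}
    (hx : x ∈ Low C (EvB C m)) (t1 : -(C + 1) ≤ t) (t2 : t ≤ -C)
    (hroot : (⟨0, 0, 0⟩ : DSquare) ∈ tiles x t) :
    {T | (adjGraph (tiles x t)).Adj ⟨_, hroot⟩ T}.Infinite := by
  obtain ⟨h0, h1, h2, h3⟩ := hx
  have hc := cond_of h0 h1 h2 t1 t2
  refine hc.infinite_degree fun n => ?_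
  -- a survivor of level `max n m`
  have h4 := h3 (max n m) (le_max_right _ _)
  obtain ⟨v, hv⟩ := Finset.card_pos.1 (Nat.lt_of_lt_of_le Nat.one_pos h4)
  obtain ⟨-, s, hs, -, -, hs'⟩ := mem_surv.1 hv
  obtain ⟨q, hq⟩ : ∃ q, max n m = n + q := Nat.exists_eq_add_of_le (le_max_left _ _)
  rw [hq] at hs hs'
  have h5 := mem_D1.1 (fam_D1.anc n q s hs)
  refine ⟨_, h5.1, h5.2, fun j hj => ?_⟩
  have h6 := hs' j (by omega)
  have e : ans n (s.1 / 2 ^ q, s.2 / 2 ^ q) j = ans (n + q) s j := by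
    unfold ans
    have e1 : n + q - j = q + (n - j) := by omega
    simp only
    rw [e1, pow_add, ← Int.ediv_ediv_of_nonneg (by positivity),
      ← Int.ediv_ediv_of_nonneg (by positivity)]
  rw [e]
  exact lt_of_le_of_lt t2 h6

/-! ### The rescaled spaces on the events -/

omit [MeasurableSpace Ω] in
theorem near_of {Q C : ℝ} {A : Set (DSquare → ℝ)} (hA : A ⊆ AncE C) {n s : ℕ} {ω : Ω}
    (hω : ω ∈ Ens Q C h A n s) (hq : QuadTiles (fld Q h ω) (-(s : ℝ)))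
    (R : tiles (fld Q h ω) (-(s : ℝ))) (hR : (0 : ℂ) ∈ R.1.toSet) :
    ∃ w : (adjGraph (tiles (fld Q h ω) (-(s : ℝ)))).Walk R ⟨_, ens_tile hA hω⟩, w.length ≤ 2 :=
  root_near hq (S := ⟨_, ens_tile hA hω⟩) rfl rfl hR

omit [MeasurableSpace Ω] in
theorem shift_root {Q C : ℝ} {A : Set (DSquare → ℝ)} (hA : A ⊆ AncE C) {n s : ℕ} {ω : Ω}
    (hω : ω ∈ Ens Q C h A n s) :
    ∃ hroot : (⟨0, 0, 0⟩ : DSquare) ∈ tiles (fln Q h n ω) (-(s : ℝ) - WW Q h n ω),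
      shEquiv n (tiles_sh Q h n ω (-(s : ℝ))) ⟨_, hroot⟩ = ⟨_, ens_tile hA hω⟩ := by
  have e : sh n ⟨0, 0, 0⟩ = ⟨n, 0, 0⟩ := by unfold sh; ext <;> simp
  have h1 : (⟨0, 0, 0⟩ : DSquare) ∈ tiles (fln Q h n ω) (-(s : ℝ) - WW Q h n ω) :=
    (tiles_sh Q h n ω (-(s : ℝ)) ⟨0, 0, 0⟩).2 (by rw [e]; exact ens_tile hA hω)
  exact ⟨h1, Subtype.ext e⟩

theorem evA_sub (C : ℝ) (K m N : ℕ) : EvA C K m N ⊆ AncE C := fun _ hx => hx.1

theorem evB_sub (C : ℝ) (m : ℕ) : EvB C m ⊆ AncE C := fun _ hx => hx.1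

omit [MeasurableSpace Ω] in
theorem sep_of_event {Q C : ℝ} {K m N : ℕ} (hmN : m ≤ N) {n s : ℕ} {ω : Ω}
    (hω : ω ∈ Ens Q C h (EvA C K m N) n s) (hq : QuadTiles (fld Q h ω) (-(s : ℝ)))
    {a b : ℝ} {X : PMMSpace} (ha : 0 < a) (ha' : a * (2 ^ (N + 1) + 3) ≤ 1)
    (hX : IsRescaled (tiling Q h (exp (-(s : ℝ))) ω) a b X) : X ∈ Sep K := by
  rw [tiling_eq] at hX
  obtain ⟨hroot, hsh⟩ := shift_root (evA_sub C K m N) hω
  set ρ : ℕ := 2 ^ (N + 1) + ⌈1 / a⌉₊ with hρ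
  obtain ⟨f, hf⟩ := ends_of hmN hω.1 hω.2.1 hω.2.2 hroot ρ (Nat.le_add_right _ _)
  have h1 : (⌈1 / a⌉₊ : ℝ) < 1 / a + 1 := Nat.ceil_lt_add_one (by positivity)
  have h2 : 1 / a ≤ ⌈1 / a⌉₊ := Nat.le_ceil _
  have h3 : a * (1 / a) = 1 := by field_simp
  have h4 : a * (ρ + 2) ≤ 2 := by
    rw [hρ]
    push_cast
    nlinarith
  have h5 : 1 ≤ a * (2 * (ρ - 2 ^ (N + 1)) : ℕ) := by
    have : ρ - 2 ^ (N + 1) = ⌈1 / a⌉₊ := by omega
    rw [this]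
    push_cast
    nlinarith
  refine rescaled_sep ha hX (R₀ := ⟨_, ens_tile (evA_sub C K m N) hω⟩)
    (fun R hR => near_of (evA_sub C K m N) hω hq R hR) (ρ := ρ) (M := 2 ^ (N + 1))
    (fun i => shEquiv n (tiles_sh Q h n ω (-(s : ℝ))) (f i)) (fun i => ?_) h4 h5
  have hi := iso_dist (shEquiv n (tiles_sh Q h n ω (-(s : ℝ))))
    (shEquiv_adj n (tiles_sh Q h n ω (-(s : ℝ))))
  obtain ⟨g1, g2, g3⟩ := hf i
  rw [← hsh]
  refine ⟨(hi _ _).1.1 g1, (hi _ _).2.symm.trans g2, fun j hij => ?_⟩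
  rw [← (hi _ _).2]
  exact g3 j hij

omit [MeasurableSpace Ω] in
theorem not_rescaled_of_event {Q C : ℝ} {m : ℕ} {n s : ℕ} {ω : Ω}
    (hω : ω ∈ Ens Q C h (EvB C m) n s) (hq : QuadTiles (fld Q h ω) (-(s : ℝ)))
    {a b : ℝ} {X : PMMSpace} (ha : 0 < a) :
    ¬ IsRescaled (tiling Q h (exp (-(s : ℝ))) ω) a b X := by
  rw [tiling_eq]
  obtain ⟨hroot, hsh⟩ := shift_root (evB_sub C m) hω
  have h1 := degree_of hω.1 hω.2.1 hω.2.2 hroot
  refine rescaled_infinite ha (R₀ := ⟨_, ens_tile (evB_sub C m) hω⟩)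
    (fun R hR => near_of (evB_sub C m) hω hq R hR) ?_
  rw [← hsh]
  refine (h1.image (shEquiv n (tiles_sh Q h n ω (-(s : ℝ)))).injective.injOn).mono ?_
  rintro _ ⟨T, hT, rfl⟩
  exact (shEquiv_adj n (tiles_sh Q h n ω (-(s : ℝ))) _ _).2 hT

/-! ### Probabilities -/

theorem tendsto_exp_neg_nat : Tendsto (fun s : ℕ => exp (-(s : ℝ))) atTop (𝓝[>] 0) := by
  refine tendsto_nhdsWithin_iff.2 ⟨?_, Eventually.of_forall fun s => exp_pos _⟩
  exact tendsto_exp_atBot.comp (tendsto_neg_atTop_atBot.comp tendsto_natCast_atTop_atTop)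

theorem freq_A (hh : IsGFF P h) {Q : ℝ} (hQ : 0 < Q) (hQ2 : Q < 2) (hQ1 : 2 ≤ Q ^ 2) :
    ∃ (C p : ℝ), 0 < p ∧ ∀ K : ℕ, ∃ m N : ℕ, m ≤ N ∧
      ∃ᶠ s : ℕ in atTop, ENNReal.ofReal p ≤ P (⋃ n, Ens Q C h (EvA C K m N) n s) := by
  have hp := hh.gaussian.isProbabilityMeasure
  obtain ⟨C, q, hq, hq', hmain⟩ := prob_EvA hh hQ hQ2 hQ1
  obtain ⟨p₀, hp₀, hjoint⟩ := joint_lower hh Q (C + 1) hq hq'
  have hp1 : p₀ ≠ ∞ := by
    have := hjoint Set.univ MeasurableSet.univ (fun _ _ _ _ => trivial) (by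
      obtain ⟨m, N, -, hqq⟩ := hmain 0
      exact hqq.trans (measure_mono fun _ _ => trivial))
    exact (this.trans_lt (measure_lt_top _ _)).ne
  set p : ℝ := p₀.toReal with hp
  have hp0 : 0 < p := ENNReal.toReal_pos hp₀.ne' hp1
  have hpe : ENNReal.ofReal p = p₀ := ENNReal.ofReal_toReal hp1
  refine ⟨C, p / 24, by positivity, fun K => ?_⟩
  obtain ⟨m, N, hmN, hqK⟩ := hmain K
  refine ⟨m, N, hmN, frequently_event hh hQ hQ2 (measurableSet_EvA C K m N) (evA_sub C K m N) hp0 ?_⟩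
  rw [hpe]
  exact hjoint _ (measurableSet_EvA C K m N) (loc_EvA C K m N) hqK

theorem freq_B (hh : IsGFF P h) {Q : ℝ} (hQ : 0 < Q) (hQ2 : Q < 2) (hQ1 : Q ^ 2 < 2) :
    ∃ (C p : ℝ) (m : ℕ), 0 < p ∧
      ∃ᶠ s : ℕ in atTop, ENNReal.ofReal p ≤ P (⋃ n, Ens Q C h (EvB C m) n s) := by
  have hp := hh.gaussian.isProbabilityMeasure
  obtain ⟨C, q, hq, hq', m, hmain⟩ := prob_EvB hh hQ hQ1
  obtain ⟨p₀, hp₀, hjoint⟩ := joint_lower hh Q (C + 1) hq hq'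
  have hj := hjoint _ (measurableSet_EvB C m) (loc_EvB C m) hmain
  have hp1 : p₀ ≠ ∞ := (hj.trans_lt (measure_lt_top _ _)).ne
  set p : ℝ := p₀.toReal with hp
  have hp0 : 0 < p := ENNReal.toReal_pos hp₀.ne' hp1
  have hpe : ENNReal.ofReal p = p₀ := ENNReal.ofReal_toReal hp1
  refine ⟨C, p / 24, m, by positivity, frequently_event hh hQ hQ2 (measurableSet_EvB C m)
    (evB_sub C m) hp0 ?_⟩
  rw [hpe]
  exact hj

variable {Q : ℝ} {a b : ℝ → ℝ} {X : ℝ → Ω → PMMSpace}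

/-- for `Q < √2` the rooted tiling is with positive probability not boundedly compact -/
theorem two_le_sq (hh : IsGFF P h) (hQ : 0 < Q) (hQ2 : Q < 2) (ha : ∀ ε, 0 < ε → 0 < a ε)
    (hX : Tendsto (fun ε => P {ω | ¬ IsRescaled (tiling Q h ε ω) (a ε) (b ε) (X ε ω)}) (𝓝[>] 0)
      (𝓝 0)) : 2 ≤ Q ^ 2 := by
  by_contra hQ1
  push Not at hQ1
  obtain ⟨C, p, m, hp0, hfr⟩ := freq_B hh hQ hQ2 hQ1
  have h1 := tendsto_exp_neg_nat.eventually (hX.eventually_lt_const (ENNReal.ofReal_pos.2 hp0))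
  obtain ⟨s, hs1, hs2⟩ := (hfr.and_eventually h1).exists
  have h2 : (⋃ n, Ens Q C h (EvB C m) n s) ⊆ {ω | ¬ QuadTiles (fld Q h ω) (-(s : ℝ))} ∪
      {ω | ¬ IsRescaled (tiling Q h (exp (-(s : ℝ))) ω) (a (exp (-(s : ℝ)))) (b (exp (-(s : ℝ))))
        (X (exp (-(s : ℝ))) ω)} := by
    intro ω hω
    obtain ⟨n, hn⟩ := Set.mem_iUnion.1 hω
    by_cases hq : QuadTiles (fld Q h ω) (-(s : ℝ))
    · exact Or.inr (not_rescaled_of_event hn hq (ha _ (exp_pos _)))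
    · exact Or.inl hq
  have h3 := (hs1.trans ((measure_mono h2).trans (measure_union_le _ _)))
  rw [prob_quadTiles hh hQ, zero_add] at h3
  exact absurd hs2 (not_lt.2 h3)

/-- if the distances are rescaled by a factor tending to `0`, then limits have many separated points
with a probability bounded below -/
theorem sep_lower (hh : IsGFF P h) (hQ : 0 < Q) (hQ2 : Q < 2) (hQ1 : 2 ≤ Q ^ 2)
    (ha : ∀ ε, 0 < ε → 0 < a ε) (ha0 : Tendsto a (𝓝[>] 0) (𝓝 0))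
    (hX : Tendsto (fun ε => P {ω | ¬ IsRescaled (tiling Q h ε ω) (a ε) (b ε) (X ε ω)}) (𝓝[>] 0)
      (𝓝 0)) :
    ∃ c : ℝ≥0∞, 0 < c ∧ ∀ K, c ≤ limsup (fun ε : ℝ => P {ω | X ε ω ∈ Sep K}) (𝓝[>] 0) := by
  obtain ⟨C, p, hp0, hmain⟩ := freq_A hh hQ hQ2 hQ1
  refine ⟨ENNReal.ofReal (p / 2), ENNReal.ofReal_pos.2 (by positivity), fun K => ?_⟩
  obtain ⟨m, N, hmN, hfr⟩ := hmain K
  have h1 := tendsto_exp_neg_nat.eventually
    (hX.eventually_lt_const (u := ENNReal.ofReal (p / 2)) (ENNReal.ofReal_pos.2 (by positivity)))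
  have h0 : Tendsto (fun ε => a ε * (2 ^ (N + 1) + 3)) (𝓝[>] 0) (𝓝 (0 * (2 ^ (N + 1) + 3))) :=
    ha0.mul_const _
  rw [zero_mul] at h0
  have h2 := tendsto_exp_neg_nat.eventually (h0.eventually_le_const one_pos)
  refine le_limsup_of_frequently_le ?_ (by isBoundedDefault)
  refine tendsto_exp_neg_nat.frequently ?_
  refine (hfr.and_eventually (h1.and h2)).mono ?_
  rintro s ⟨hs1, hs2, hs3⟩
  have h3 : (⋃ n, Ens Q C h (EvA C K m N) n s) ⊆ {ω | X (exp (-(s : ℝ))) ω ∈ Sep K} ∪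
      ({ω | ¬ QuadTiles (fld Q h ω) (-(s : ℝ))} ∪
      {ω | ¬ IsRescaled (tiling Q h (exp (-(s : ℝ))) ω) (a (exp (-(s : ℝ)))) (b (exp (-(s : ℝ))))
        (X (exp (-(s : ℝ))) ω)}) := by
    intro ω hω
    obtain ⟨n, hn⟩ := Set.mem_iUnion.1 hω
    by_cases hq : QuadTiles (fld Q h ω) (-(s : ℝ))
    · by_cases hr : IsRescaled (tiling Q h (exp (-(s : ℝ))) ω) (a (exp (-(s : ℝ))))
        (b (exp (-(s : ℝ)))) (X (exp (-(s : ℝ))) ω)
      · exact Or.inl (sep_of_event hmN hn hq (ha _ (exp_pos _)) hs3 hr)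
      · exact Or.inr (Or.inr hr)
    · exact Or.inr (Or.inl hq)
  have h4 := hs1.trans ((measure_mono h3).trans ((measure_union_le _ _).trans
    (add_le_add_right (measure_union_le _ _) _)))
  rw [prob_quadTiles hh hQ, zero_add] at h4
  have h5 : ENNReal.ofReal p = ENNReal.ofReal (p / 2) + ENNReal.ofReal (p / 2) := by
    rw [← ENNReal.ofReal_add (by positivity) (by positivity)]
    congr 1; ring
  have h6 : ENNReal.ofReal (p / 2) + ENNReal.ofReal (p / 2) ≤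
      P {ω | X (exp (-(s : ℝ))) ω ∈ Sep K} + ENNReal.ofReal (p / 2) := by
    rw [← h5]
    exact h4.trans (add_le_add_right hs2.le _)
  exact (ENNReal.add_le_add_iff_right ENNReal.ofReal_ne_top).1 h6

variable {Ω' : Type*} [MeasurableSpace Ω'] {P' : Measure Ω'} {Y : Ω' → PMMSpace}

/-- **There is no scaling limit.** -/
theorem no_scaling (hh : IsGFF P h) (hQ : 0 < Q) (hQ2 : Q < 2) (ha : ∀ ε, 0 < ε → 0 < a ε)
    (hX : Tendsto (fun ε => P {ω | ¬ IsRescaled (tiling Q h ε ω) (a ε) (b ε) (X ε ω)}) (𝓝[>] 0)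
      (𝓝 0)) [IsProbabilityMeasure P'] (hY : ConvergesInLaw P X P' Y) :
    ¬ Tendsto a (𝓝[>] 0) (𝓝 0) := by
  intro ha0
  have hQ1 := two_le_sq hh hQ hQ2 ha hX
  obtain ⟨c, hc0, hc⟩ := sep_lower hh hQ hQ2 hQ1 ha ha0 hX
  have h1 : ∀ K, c ≤ P' {ω | Y ω ∈ Sep K} := fun K =>
    (hc K).trans (hY (Sep K) (isClosed_Sep K)).2
  have h2 := tendsto_measure_iInter_atTop (μ := P') (s := fun K : ℕ => {ω | Y ω ∈ Sep K})
    (fun K => (hY (Sep K) (isClosed_Sep K)).1) (fun K L hKL ω hω => Sep_anti hKL hω)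
    ⟨0, measure_ne_top _ _⟩
  have h3 : ⋂ K : ℕ, {ω | Y ω ∈ Sep K} = ∅ := by
    ext ω
    simp only [Set.mem_iInter, Set.mem_ofPred_eq, Set.mem_empty_iff_false, iff_false]
    intro hcon
    have : Y ω ∈ ⋂ K, Sep K := Set.mem_iInter.2 hcon
    rw [iInter_Sep] at this
    exact this
  rw [h3, measure_empty] at h2
  have h4 := ge_of_tendsto' h2 h1
  exact absurd hc0 (not_lt.2 h4)

/-- limits are uniformly discrete -/
theorem limit_discrete (hh : IsGFF P h) (hQ : 0 < Q) (hQ2 : Q < 2) (ha : ∀ ε, 0 < ε → 0 < a ε)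
    (hX : Tendsto (fun ε => P {ω | ¬ IsRescaled (tiling Q h ε ω) (a ε) (b ε) (X ε ω)}) (𝓝[>] 0)
      (𝓝 0)) [IsProbabilityMeasure P'] (hY : ConvergesInLaw P X P' Y) :
    ∃ c : ℝ, 0 < c ∧ ∀ᵐ ω ∂P', Y ω ∈ Disc c := by
  have hp := hh.gaussian.isProbabilityMeasure
  have h0 := no_scaling hh hQ hQ2 ha hX hY
  rw [Metric.tendsto_nhds] at h0
  push Not at h0
  obtain ⟨c, hc, hfr⟩ := h0
  refine ⟨c, hc, ?_⟩
  obtain ⟨hm, hle⟩ := hY (Disc c) (isClosed_Disc c)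
  have h1 : 1 ≤ limsup (fun ε : ℝ => P {ω | X ε ω ∈ Disc c}) (𝓝[>] 0) := by
    refine ENNReal.le_of_forall_pos_le_add fun δ hδ _ => ?_
    have hδ' : (0 : ℝ≥0∞) < δ := by exact_mod_cast hδ
    have h2 := hX.eventually_lt_const hδ'
    have h3 : ∃ᶠ ε : ℝ in 𝓝[>] 0, 1 - (δ : ℝ≥0∞) ≤ P {ω | X ε ω ∈ Disc c} := by
      have h4 : ∃ᶠ ε : ℝ in 𝓝[>] 0, c ≤ dist (a ε) 0 := hfr
      refine (h4.and_eventually (h2.and self_mem_nhdsWithin)).mono ?_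
      rintro ε ⟨hε1, hε2, hε3⟩
      have hε0 : 0 < a ε := ha ε hε3
      rw [Real.dist_eq, sub_zero, abs_of_pos hε0] at hε1
      rw [tsub_le_iff_right]
      have h5 : (Set.univ : Set Ω) ⊆ {ω | X ε ω ∈ Disc c} ∪
          {ω | ¬ IsRescaled (tiling Q h ε ω) (a ε) (b ε) (X ε ω)} := by
        intro ω _
        by_cases hr : IsRescaled (tiling Q h ε ω) (a ε) (b ε) (X ε ω)
        · left
          intro y z hyz
          exact hε1.trans (rescaled_disc hε0 hr y z hyz)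
        · exact Or.inr hr
      calc (1 : ℝ≥0∞) = P Set.univ := measure_univ.symm
        _ ≤ _ := (measure_mono h5).trans (measure_union_le _ _)
        _ ≤ _ := add_le_add_right hε2.le _
    have h6 := le_limsup_of_frequently_le h3
    exact tsub_le_iff_right.1 h6
  have h2 : P' {ω | Y ω ∈ Disc c} = 1 := le_antisymm prob_le_one (h1.trans hle)
  rw [← prob_compl_eq_zero_iff₀ hm] at h2
  exact h2

end Pool.Agent.Q216.GH
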