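import Pool.Agent.Q216.GH.Avg

set_option autoImplicit false

/-!
# The squares around the origin, and the shift of the levels as a graph isomorphism
-/

namespace Pool.Agent.Q216.GH

open MeasureTheory ProbabilityTheory Real Filter Topology
open Pool.Agent.Y980 Pool.Agent.Y980.DSquare
open scoped ENNReal NNReal

variable {Ω : Type*} [MeasurableSpace Ω] {P : Measure Ω} {h : ℝ → ℂ → Ω → ℝ}

omit [MeasurableSpace Ω] in
theorem mass_eq (Q : ℝ) (h : ℝ → ℂ → Ω → ℝ) (ω : Ω) (S : DSquare) :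
    mass Q h ω S = exp (fld Q h ω S) := by
  unfold mass fld sqv
  rw [sub_eq_add_neg, exp_add]
  congr 1
  rw [rpow_def_of_pos S.side_pos]
  congr 1
  rw [side_eq, log_exp]
  ring

omit [MeasurableSpace Ω] in
theorem tiling_eq (Q : ℝ) (h : ℝ → ℂ → Ω → ℝ) (u : ℝ) (ω : Ω) :
    tiling Q h (exp u) ω = tiles (fld Q h ω) u := by
  unfold tiling tiles
  ext S
  simp only [Set.mem_ofPred_eq, mass_eq, exp_le_exp, exp_lt_exp]

/-! ### A tile at the origin in each quadrant -/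

/-- there is a tile at the origin in each quadrant -/
def QuadTiles (x : DSquare → ℝ) (u : ℝ) : Prop :=
  ∀ i j : ℤ, Quad i → Quad j → ∃ l : ℤ, (⟨l, i, j⟩ : DSquare) ∈ tiles x u

theorem prob_small (hh : IsGFF P h) {Q : ℝ} (hQ : 0 < Q) {i j : ℤ} (hi : Quad i) (hj : Quad j)
    (u : ℝ) : P {ω | ∀ k : ℕ, u < fld Q h ω ⟨k, i, j⟩} = 0 := by
  have hp := hh.gaussian.isProbabilityMeasure
  have hl := log_two_pos
  have hbound : ∀ k : ℕ, P {ω | ∀ k : ℕ, u < fld Q h ω ⟨k, i, j⟩} ≤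
      ENNReal.ofReal (exp (Q ^ 2 * log 2 - Q * u - Q ^ 2 * log 2 / 2 * (k : ℝ))) := by
    intro k
    have h1 := gauss_tail ((isGaussianProcess_sqv hh).hasGaussianLaw_eval
      ⟨k, i, j⟩) (mean_sqv hh _) (var_quad hh (S := ⟨k, i, j⟩) hi hj) hQ.le
      (u + Q * (k : ℝ) * log 2)
    refine le_trans (measure_mono ?_) (h1.trans ?_)
    · intro ω hω
      have := hω k
      simp only [fld, Int.cast_natCast] at this
      simp only [Set.mem_ofPred_eq]
      linarith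
    · apply ENNReal.ofReal_le_ofReal
      apply exp_le_exp.2
      simp only [Int.cast_natCast]
      rw [abs_of_nonneg (Nat.cast_nonneg k)]
      nlinarith
  have hlim : Tendsto (fun k : ℕ => ENNReal.ofReal (exp (Q ^ 2 * log 2 - Q * u -
      Q ^ 2 * log 2 / 2 * (k : ℝ)))) atTop (𝓝 (ENNReal.ofReal 0)) := by
    apply ENNReal.tendsto_ofReal
    apply tendsto_exp_atBot.comp
    apply tendsto_atBot_add_const_left
    apply tendsto_neg_atTop_atBot.comp
    exact tendsto_natCast_atTop_atTop.const_mul_atTop (by positivity)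
  rw [ENNReal.ofReal_zero] at hlim
  exact le_antisymm (ge_of_tendsto' hlim hbound) bot_le

theorem prob_large (hh : IsGFF P h) {Q : ℝ} (hQ : 0 < Q) {i j : ℤ} (hi : Quad i) (hj : Quad j)
    (u : ℝ) : P {ω | ∀ N : ℕ, ∃ k : ℕ, N ≤ k ∧ fld Q h ω ⟨-(k : ℤ), i, j⟩ ≤ u} = 0 := by
  have hl := log_two_pos
  set r := exp (-(Q ^ 2 * log 2 / 2)) with hr
  have hr1 : r < 1 := by
    rw [hr, exp_lt_one_iff]
    have : 0 < Q ^ 2 * log 2 / 2 := by positivity
    linarith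
  have hbound : ∀ N : ℕ, P {ω | ∀ N : ℕ, ∃ k : ℕ, N ≤ k ∧ fld Q h ω ⟨-(k : ℤ), i, j⟩ ≤ u} ≤
      ENNReal.ofReal (exp (Q ^ 2 * log 2 - Q * -u) * r ^ N / (1 - r)) := by
    intro N
    refine le_trans (measure_mono ?_) (anc_tail_all hh hQ hi hj (-u) N)
    intro ω hω
    obtain ⟨k, h1, h2⟩ := hω N
    exact ⟨k, h1, by rwa [neg_neg]⟩
  have hlim : Tendsto (fun N : ℕ => ENNReal.ofReal (exp (Q ^ 2 * log 2 - Q * -u) * r ^ N / (1 - r)))
      atTop (𝓝 (ENNReal.ofReal (exp (Q ^ 2 * log 2 - Q * -u) * 0 / (1 - r)))) := by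
    apply ENNReal.tendsto_ofReal
    apply Tendsto.div_const
    apply Tendsto.const_mul
    exact tendsto_pow_atTop_nhds_zero_of_lt_one (exp_pos _).le hr1
  rw [mul_zero, zero_div, ENNReal.ofReal_zero] at hlim
  exact le_antisymm (ge_of_tendsto' hlim hbound) bot_le

theorem quad_tile {x : DSquare → ℝ} {u : ℝ} {i j : ℤ} (hi : Quad i) (hj : Quad j)
    (h1 : ¬ ∀ k : ℕ, u < x ⟨k, i, j⟩) (h2 : ¬ ∀ N : ℕ, ∃ k : ℕ, N ≤ k ∧ x ⟨-(k : ℤ), i, j⟩ ≤ u) :
    ∃ l : ℤ, (⟨l, i, j⟩ : DSquare) ∈ tiles x u := by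
  push Not at h1 h2
  obtain ⟨k, hk⟩ := h1
  obtain ⟨N, hN⟩ := h2
  have ha : ¬ Alive x u ⟨k, i, j⟩ := fun hc => absurd (hc 0) (by rw [anc_zero]; exact not_lt.2 hk)
  obtain ⟨q, -, hq⟩ := Y980.exists_tile ha (k + N) (fun q hq => by
    rw [anc_quad hi hj]
    have := hN (q - k) (by omega)
    have e : (k : ℤ) - q = -((q - k : ℕ) : ℤ) := by
      rw [Nat.cast_sub (by omega)]; ring
    rw [e]
    exact this)
  rw [anc_quad hi hj] at hq
  exact ⟨_, hq⟩

theorem prob_quadTiles (hh : IsGFF P h) {Q : ℝ} (hQ : 0 < Q) (u : ℝ) :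
    P {ω | ¬ QuadTiles (fld Q h ω) u} = 0 := by
  have hsub : {ω | ¬ QuadTiles (fld Q h ω) u} ⊆ ⋃ (i : ℤ) (j : ℤ) (_ : Quad i) (_ : Quad j),
      ({ω | ∀ k : ℕ, u < fld Q h ω ⟨k, i, j⟩} ∪
        {ω | ∀ N : ℕ, ∃ k : ℕ, N ≤ k ∧ fld Q h ω ⟨-(k : ℤ), i, j⟩ ≤ u}) := by
    intro ω hω
    simp only [QuadTiles, Set.mem_ofPred_eq, not_forall] at hω
    obtain ⟨i, j, hi, hj, hc⟩ := hω
    simp only [Set.mem_iUnion]
    refine ⟨i, j, hi, hj, ?_⟩
    by_contra hcon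
    rw [Set.mem_union, not_or] at hcon
    exact hc (quad_tile hi hj hcon.1 hcon.2)
  refine measure_mono_null hsub (measure_iUnion_null fun i => measure_iUnion_null fun j =>
    measure_iUnion_null fun hi => measure_iUnion_null fun hj => ?_)
  exact measure_union_null (prob_small hh hQ hi hj u) (prob_large hh hQ hi hj u)

/-! ### The possible roots are close to each other -/

theorem quad_of_zero {S : DSquare} (h0 : (0 : ℂ) ∈ S.toSet) : Quad S.i ∧ Quad S.j := by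
  rw [mem_toSet] at h0
  simp only [Complex.zero_re, Complex.zero_im, zero_div] at h0
  obtain ⟨h1, h2, h3, h4⟩ := h0
  have a1 : S.i ≤ 0 := by exact_mod_cast h1
  have a2 : 0 ≤ S.i + 1 := by exact_mod_cast h2
  have a3 : S.j ≤ 0 := by exact_mod_cast h3
  have a4 : 0 ≤ S.j + 1 := by exact_mod_cast h4
  constructor
  · unfold Quad; omega
  · unfold Quad; omega

theorem eq_anc {S : DSquare} (hi : Quad S.i) (hj : Quad S.j) {L : ℤ} (hL : S.n ≤ L) :
    S = anc (L - S.n).toNat ⟨L, S.i, S.j⟩ := by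
  rw [anc_quad hi hj]
  ext
  · simp only
    rw [Int.toNat_of_nonneg (by omega)]
    ring
  · rfl
  · rfl

theorem same_quad {x : DSquare → ℝ} {u : ℝ} {S T : tiles x u} (hi : Quad S.1.i) (hj : Quad S.1.j)
    (h1 : T.1.i = S.1.i) (h2 : T.1.j = S.1.j) : S = T := by
  apply Subtype.ext
  have a1 := eq_anc hi hj (le_max_left S.1.n T.1.n)
  have a2 := eq_anc (S := T.1) (by rw [h1]; exact hi) (by rw [h2]; exact hj)
    (le_max_right S.1.n T.1.n)
  rw [h1, h2] at a2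
  exact tile_unique S.2 T.2 a1 a2

theorem near_right {x : DSquare → ℝ} {u : ℝ} {S T : tiles x u} (hj : Quad S.1.j)
    (hi : S.1.i = -1) (hi' : T.1.i = 0) (h2 : T.1.j = S.1.j) :
    ∃ w : (adjGraph (tiles x u)).Walk S T, w.length ≤ 1 := by
  have a1 := eq_anc (Or.inr hi) hj (le_max_left S.1.n T.1.n)
  have a2 := eq_anc (S := T.1) (Or.inl hi') (by rw [h2]; exact hj) (le_max_right S.1.n T.1.n)
  rw [h2] at a2
  rw [hi] at a1
  rw [hi', show (0 : ℤ) = -1 + 1 by norm_num] at a2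
  rcases step_right a1 a2 with h | h
  · subst h
    exact ⟨SimpleGraph.Walk.nil, by simp⟩
  · exact ⟨SimpleGraph.Walk.cons h SimpleGraph.Walk.nil, by simp⟩

theorem near_up {x : DSquare → ℝ} {u : ℝ} {S T : tiles x u} (hi : Quad S.1.i)
    (hj : S.1.j = -1) (hj' : T.1.j = 0) (h2 : T.1.i = S.1.i) :
    ∃ w : (adjGraph (tiles x u)).Walk S T, w.length ≤ 1 := by
  have a1 := eq_anc hi (Or.inr hj) (le_max_left S.1.n T.1.n)
  have a2 := eq_anc (S := T.1) (by rw [h2]; exact hi) (Or.inl hj') (le_max_right S.1.n T.1.n)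
  rw [h2] at a2
  rw [hj] at a1
  rw [hj', show (0 : ℤ) = -1 + 1 by norm_num] at a2
  rcases step_up a1 a2 with h | h
  · subst h
    exact ⟨SimpleGraph.Walk.nil, by simp⟩
  · exact ⟨SimpleGraph.Walk.cons h SimpleGraph.Walk.nil, by simp⟩

/-- every tile which contains the origin is at distance at most `2` from the one in the first
quadrant -/
theorem root_near {x : DSquare → ℝ} {u : ℝ} (hq : QuadTiles x u) {S R : tiles x u}
    (hi : S.1.i = 0) (hj : S.1.j = 0) (hR : (0 : ℂ) ∈ R.1.toSet) :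
    ∃ w : (adjGraph (tiles x u)).Walk R S, w.length ≤ 2 := by
  obtain ⟨ri, rj⟩ := quad_of_zero hR
  rcases rj with rj | rj
  · rcases ri with ri | ri
    · have := same_quad (S := R) (T := S) (Or.inl ri) (Or.inl rj) (by rw [hi, ri]) (by rw [hj, rj])
      subst this
      exact ⟨SimpleGraph.Walk.nil, by simp⟩
    · obtain ⟨w, hw⟩ := near_right (S := R) (T := S) (Or.inl rj) ri hi (by rw [hj, rj])
      exact ⟨w, by omega⟩
  · obtain ⟨l, hl⟩ := hq R.1.i 0 ri (Or.inl rfl)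
    obtain ⟨w, hw⟩ := near_up (S := R) (T := ⟨_, hl⟩) ri rj rfl rfl
    rcases ri with ri | ri
    · have := same_quad (S := ⟨_, hl⟩) (T := S) (Or.inl ri) (Or.inl rfl) (by rw [hi]; exact ri.symm)
        (by rw [hj])
      rw [← this]
      exact ⟨w, by omega⟩
    · obtain ⟨w', hw'⟩ := near_right (S := ⟨_, hl⟩) (T := S) (Or.inl rfl) ri hi (by rw [hj])
      exact ⟨w.append w', by rw [SimpleGraph.Walk.length_append]; omega⟩

/-! ### The shift of the levels -/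

theorem adj_iff {𝒯 : Set DSquare} {S T : 𝒯} : (adjGraph 𝒯).Adj S T ↔ S ≠ T ∧ ∃ x y : ℂ, x ≠ y ∧
    x ∈ S.1.toSet ∧ y ∈ S.1.toSet ∧ x ∈ T.1.toSet ∧ y ∈ T.1.toSet := by
  constructor
  · rintro ⟨h1, x, y, hxy, hs⟩
    exact ⟨h1, x, y, hxy, (hs (left_mem_segment ℝ x y)).1, (hs (right_mem_segment ℝ x y)).1,
      (hs (left_mem_segment ℝ x y)).2, (hs (right_mem_segment ℝ x y)).2⟩
  · rintro ⟨h1, x, y, hxy, a, b, c, d⟩
    exact adj_of_two h1 hxy a b c d

theorem mem_sh (n : ℤ) (S : DSquare) (z : ℂ) :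
    (((2 : ℝ) ^ (-n) : ℝ) : ℂ) * z ∈ (sh n S).toSet ↔ z ∈ S.toSet := by
  have hc : (0 : ℝ) < (2 : ℝ) ^ (-n) := by positivity
  rw [mem_toSet, mem_toSet, side_sh, Complex.re_ofReal_mul, Complex.im_ofReal_mul,
    mul_div_mul_left _ _ hc.ne', mul_div_mul_left _ _ hc.ne']
  rfl

/-- the shift as a bijection of the tiles -/
def shEquiv {x y : DSquare → ℝ} {u v : ℝ} (n : ℤ) (hxy : ∀ S, S ∈ tiles x u ↔ sh n S ∈ tiles y v) :
    tiles x u ≃ tiles y v where
  toFun S := ⟨sh n S.1, (hxy _).1 S.2⟩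
  invFun T := ⟨sh (-n) T.1, (hxy _).2 (by rw [sh_sh]; exact T.2)⟩
  left_inv S := by
    apply Subtype.ext
    simp only
    have := sh_sh (-n) S.1
    rwa [neg_neg] at this
  right_inv T := by
    apply Subtype.ext
    simp only
    exact sh_sh n T.1

theorem shEquiv_adj {x y : DSquare → ℝ} {u v : ℝ} (n : ℤ)
    (hxy : ∀ S, S ∈ tiles x u ↔ sh n S ∈ tiles y v) (S T : tiles x u) :
    (adjGraph (tiles y v)).Adj (shEquiv n hxy S) (shEquiv n hxy T) ↔
      (adjGraph (tiles x u)).Adj S T := by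
  have hc : (((2 : ℝ) ^ (-n) : ℝ) : ℂ) ≠ 0 := by
    have : (0 : ℝ) < (2 : ℝ) ^ (-n) := by positivity
    exact_mod_cast this.ne'
  rw [adj_iff, adj_iff, (shEquiv n hxy).injective.ne_iff]
  refine and_congr Iff.rfl ?_
  constructor
  · rintro ⟨a, b, hab, h1, h2, h3, h4⟩
    have key : ∀ z : ℂ, z = (((2 : ℝ) ^ (-n) : ℝ) : ℂ) * ((((2 : ℝ) ^ (-n) : ℝ) : ℂ)⁻¹ * z) :=
      fun z => by rw [mul_inv_cancel_left₀ hc]
    refine ⟨(((2 : ℝ) ^ (-n) : ℝ) : ℂ)⁻¹ * a, (((2 : ℝ) ^ (-n) : ℝ) : ℂ)⁻¹ * b, ?_, ?_, ?_, ?_, ?_⟩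
    · intro hc'
      exact hab (mul_left_cancel₀ (inv_ne_zero hc) hc')
    · rw [key a] at h1; exact (mem_sh n _ _).1 h1
    · rw [key b] at h2; exact (mem_sh n _ _).1 h2
    · rw [key a] at h3; exact (mem_sh n _ _).1 h3
    · rw [key b] at h4; exact (mem_sh n _ _).1 h4
  · rintro ⟨a, b, hab, h1, h2, h3, h4⟩
    refine ⟨(((2 : ℝ) ^ (-n) : ℝ) : ℂ) * a, (((2 : ℝ) ^ (-n) : ℝ) : ℂ) * b, ?_, ?_, ?_, ?_, ?_⟩
    · intro hc'
      exact hab (mul_left_cancel₀ hc hc')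
    · exact (mem_sh n _ _).2 h1
    · exact (mem_sh n _ _).2 h2
    · exact (mem_sh n _ _).2 h3
    · exact (mem_sh n _ _).2 h4

/-- graph isomorphisms preserve the distance -/
theorem iso_dist {V W : Type*} {G : SimpleGraph V} {H : SimpleGraph W} (e : V ≃ W)
    (he : ∀ a b, H.Adj (e a) (e b) ↔ G.Adj a b) (a b : V) :
    (G.Reachable a b ↔ H.Reachable (e a) (e b)) ∧ G.dist a b = H.dist (e a) (e b) := by
  let φ : G →g H := ⟨e, fun h => (he _ _).2 h⟩
  let ψ : H →g G := ⟨e.symm, fun {a b} h => (he _ _).1 (by simpa using h)⟩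
  have w1 : ∀ {a b} (w : G.Walk a b), ∃ w' : H.Walk (e a) (e b), w'.length = w.length :=
    fun w => ⟨w.map φ, SimpleGraph.Walk.length_map _ _⟩
  have w2 : ∀ {a b} (w : H.Walk (e a) (e b)), ∃ w' : G.Walk a b, w'.length = w.length := by
    intro a b w
    have e1 : ψ (e a) = a := e.symm_apply_apply a
    have e2 : ψ (e b) = b := e.symm_apply_apply b
    exact ⟨(w.map ψ).copy e1 e2, by simp⟩
  have hr : G.Reachable a b ↔ H.Reachable (e a) (e b) :=
    ⟨fun ⟨w⟩ => ⟨(w1 w).choose⟩, fun ⟨w⟩ => ⟨(w2 w).choose⟩⟩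
  refine ⟨hr, ?_⟩
  by_cases h : G.Reachable a b
  · apply le_antisymm
    · obtain ⟨w, hw⟩ := (hr.1 h).exists_walk_length_eq_dist
      obtain ⟨w', hw'⟩ := w2 w
      rw [← hw, ← hw']
      exact SimpleGraph.dist_le w'
    · obtain ⟨w, hw⟩ := h.exists_walk_length_eq_dist
      obtain ⟨w', hw'⟩ := w1 w
      rw [← hw, ← hw']
      exact SimpleGraph.dist_le w'
  · rw [SimpleGraph.dist_eq_zero_of_not_reachable h,
      SimpleGraph.dist_eq_zero_of_not_reachable (fun hc => h (hr.2 hc))]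

end Pool.Agent.Q216.GH
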