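import Pool.Agent.Q216.GH.Event

set_option autoImplicit false

/-!
# Scale invariance of the whole-plane Gaussian free field
-/

namespace Pool.Agent.Q216.GH

open MeasureTheory ProbabilityTheory Real Filter Topology
open Pool.Agent.Y980 Pool.Agent.Y980.DSquare
open scoped ENNReal NNReal

variable {Ω : Type*} [MeasurableSpace Ω] {P : Measure Ω}

/-! ### The law of a Gaussian process is determined by its means and covariances -/

section law

variable {T : Type*} {X Y : T → Ω → ℝ}

theorem law_unique_fin (hX : IsGaussianProcess X P) (hY : IsGaussianProcess Y P)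
    (hmX : ∀ t, Measurable (X t)) (hmY : ∀ t, Measurable (Y t))
    (hm : ∀ t, ∫ ω, X t ω ∂P = ∫ ω, Y t ω ∂P)
    (hc : ∀ s t, cov[X s, X t; P] = cov[Y s, Y t; P]) (I : Finset T) :
    P.map (fun ω => I.restrict (X · ω)) = P.map (fun ω => I.restrict (Y · ω)) := by
  classical
  have hp := hX.isProbabilityMeasure
  have gX : IsGaussian (P.map (fun ω => I.restrict (X · ω))) :=
    (hX.hasGaussianLaw I).isGaussian_map
  have gY : IsGaussian (P.map (fun ω => I.restrict (Y · ω))) :=
    (hY.hasGaussianLaw I).isGaussian_map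
  have aX : Measurable (fun ω => I.restrict (X · ω)) := measurable_pi_lambda _ fun i => hmX i
  have aY : Measurable (fun ω => I.restrict (Y · ω)) := measurable_pi_lambda _ fun i => hmY i
  have mX : ∀ t, MemLp (X t) 2 P := fun t => (hX.hasGaussianLaw_eval t).memLp_two
  have mY : ∀ t, MemLp (Y t) 2 P := fun t => (hY.hasGaussianLaw_eval t).memLp_two
  apply Measure.ext_of_charFunDual
  ext L
  rw [IsGaussian.charFunDual_eq, IsGaussian.charFunDual_eq]
  have hL : ∀ x : I → ℝ, L x = ∑ i : I, L (Pi.single i 1) * x i := by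
    intro x
    conv_lhs => rw [← Finset.univ_sum_single x, map_sum]
    refine Finset.sum_congr rfl fun i _ => ?_
    have : (Pi.single i (x i) : I → ℝ) = x i • Pi.single i (1 : ℝ) := by
      rw [← Pi.single_smul, smul_eq_mul, mul_one]
    rw [this, map_smul, smul_eq_mul, mul_comm]
  have eX : ∀ ω, L (I.restrict (X · ω)) = ∑ i : I, L (Pi.single i 1) * X i ω := fun ω => by
    rw [hL]; rfl
  have eY : ∀ ω, L (I.restrict (Y · ω)) = ∑ i : I, L (Pi.single i 1) * Y i ω := fun ω => by
    rw [hL]; rfl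
  have h1 : ∫ x, L x ∂(P.map (fun ω => I.restrict (X · ω))) =
      ∫ x, L x ∂(P.map (fun ω => I.restrict (Y · ω))) := by
    rw [integral_map aX.aemeasurable (by fun_prop), integral_map aY.aemeasurable (by fun_prop)]
    simp_rw [eX, eY]
    rw [integral_finsetSum (f := fun (i : I) ω => L (Pi.single i 1) * X i ω) _
        fun i _ => ((mX i).integrable (by norm_num)).const_mul _,
      integral_finsetSum (f := fun (i : I) ω => L (Pi.single i 1) * Y i ω) _
        fun i _ => ((mY i).integrable (by norm_num)).const_mul _]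
    refine Finset.sum_congr rfl fun i _ => ?_
    rw [integral_const_mul, integral_const_mul, hm]
  have h2 : Var[L; P.map (fun ω => I.restrict (X · ω))] =
      Var[L; P.map (fun ω => I.restrict (Y · ω))] := by
    rw [variance_map (by fun_prop) aX.aemeasurable, variance_map (by fun_prop) aY.aemeasurable]
    have fX : (L ∘ fun ω => I.restrict (X · ω)) = fun ω => ∑ i : I, L (Pi.single i 1) * X i ω :=
      funext eX
    have fY : (L ∘ fun ω => I.restrict (Y · ω)) = fun ω => ∑ i : I, L (Pi.single i 1) * Y i ω :=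
      funext eY
    rw [fX, fY]
    rw [← covariance_self (by fun_prop), ← covariance_self (by fun_prop)]
    rw [covariance_fun_sum_fun_sum (X := fun (i : I) ω => L (Pi.single i 1) * X i ω)
        (Y := fun (i : I) ω => L (Pi.single i 1) * X i ω)
        (fun i => (mX i).const_mul _) (fun i => (mX i).const_mul _),
      covariance_fun_sum_fun_sum (X := fun (i : I) ω => L (Pi.single i 1) * Y i ω)
        (Y := fun (i : I) ω => L (Pi.single i 1) * Y i ω)
        (fun i => (mY i).const_mul _) (fun i => (mY i).const_mul _)]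
    refine Finset.sum_congr rfl fun i _ => Finset.sum_congr rfl fun j _ => ?_
    rw [covariance_const_mul_left, covariance_const_mul_right, covariance_const_mul_left,
      covariance_const_mul_right, hc]
  rw [integral_complex_ofReal, integral_complex_ofReal, h1, h2]

theorem law_unique (hX : IsGaussianProcess X P) (hY : IsGaussianProcess Y P)
    (hmX : ∀ t, Measurable (X t)) (hmY : ∀ t, Measurable (Y t))
    (hm : ∀ t, ∫ ω, X t ω ∂P = ∫ ω, Y t ω ∂P)
    (hc : ∀ s t, cov[X s, X t; P] = cov[Y s, Y t; P]) :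
    P.map (fun ω t => X t ω) = P.map (fun ω t => Y t ω) := by
  have hp := hX.isProbabilityMeasure
  rw [map_eq_iff_forall_finset_map_restrict_eq
    (measurable_pi_lambda _ fun i => hmX i).aemeasurable
    (measurable_pi_lambda _ fun i => hmY i).aemeasurable]
  exact law_unique_fin hX hY hmX hmY hm hc

end law

variable {h h' : ℝ → ℂ → Ω → ℝ}

theorem law_sqv (hh : IsGFF P h) (hh' : IsGFF P h') :
    P.map (fun ω S => sqv h S ω) = P.map (fun ω S => sqv h' S ω) := by
  refine law_unique (isGaussianProcess_sqv hh) (isGaussianProcess_sqv hh') (measurable_sqv hh)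
    (measurable_sqv hh') (fun S => ?_) (fun S S' => ?_)
  · rw [mean_sqv hh, mean_sqv hh']
  · rw [cov_sq hh, cov_sq hh']

theorem prob_fld (hh : IsGFF P h) (hh' : IsGFF P h') (Q : ℝ) {A : Set (DSquare → ℝ)}
    (hA : MeasurableSet A) : P {ω | fld Q h ω ∈ A} = P {ω | fld Q h' ω ∈ A} := by
  set g : (DSquare → ℝ) → DSquare → ℝ := fun x S => x S - Q * S.n * log 2 with hg
  have hgm : Measurable g := by
    refine measurable_pi_lambda _ fun S => ?_
    exact (measurable_pi_apply S).sub_const _
  have hm : Measurable (fun ω S => sqv h S ω) := measurable_pi_lambda _ (measurable_sqv hh)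
  have hm' : Measurable (fun ω S => sqv h' S ω) := measurable_pi_lambda _ (measurable_sqv hh')
  have h1 : {ω | fld Q h ω ∈ A} = (fun ω S => sqv h S ω) ⁻¹' (g ⁻¹' A) := rfl
  have h2 : {ω | fld Q h' ω ∈ A} = (fun ω S => sqv h' S ω) ⁻¹' (g ⁻¹' A) := rfl
  rw [h1, h2, ← Measure.map_apply hm (hgm hA), ← Measure.map_apply hm' (hgm hA), law_sqv hh hh']

/-! ### The rescaled field -/

/-- the field seen at scale `c`, normalised again -/
noncomputable def scaled (h : ℝ → ℂ → Ω → ℝ) (c : ℝ) (r : ℝ) (z : ℂ) (ω : Ω) : ℝ :=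
  h (c * r) (c * z) ω - h c 0 ω

theorem cA_one (s : ℝ) (w : ℂ) : cA s w 1 0 = cN s w := by
  unfold cA cN
  congr 1
  ext x
  rw [sub_zero, max_comm]

theorem cA_symm (hh : IsGFF P h) {r s : ℝ} (hr : 0 < r) (hs : 0 < s) (z w : ℂ) :
    cA r z s w = cA s w r z := by
  have h1 := covh hh hr hs z w
  have h2 := covh hh hs hr w z
  rw [covariance_comm] at h1
  linarith

theorem isGFF_scaled (hh : IsGFF P h) {c : ℝ} (hc : 0 < c) : IsGFF P (scaled h c) := by
  have hp := hh.gaussian.isProbabilityMeasure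
  refine ⟨fun r z hr => (hh.measurable _ _ (by positivity)).sub (hh.measurable _ _ hc), ?_, ?_, ?_⟩
  · let F : Set.Ioi (0 : ℝ) × ℂ → (Set.Ioi (0 : ℝ) × ℂ →₀ ℝ) := fun p =>
      Finsupp.single (ix (c * p.1) (mul_pos hc p.1.2) (c * p.2)) 1 +
        Finsupp.single (ix c hc 0) (-1)
    have h1 := (isGaussianProcess_lin hh.gaussian).comp_right F
    have e : (lin (fun p : Set.Ioi (0 : ℝ) × ℂ => h p.1 p.2) ∘ F) =
        fun p : Set.Ioi (0 : ℝ) × ℂ => scaled h c p.1 p.2 := by
      funext p ω
      simp only [Function.comp_apply, F, lin_add, lin_single, ix]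
      unfold scaled
      ring
    rw [e] at h1
    exact h1
  · intro r z hr
    unfold scaled
    rw [integral_sub ((memLph hh (by positivity) _).integrable (by norm_num))
      ((memLph hh hc _).integrable (by norm_num)), hh.mean _ _ (by positivity), hh.mean _ _ hc,
      sub_zero]
  · intro r z s w hr hs
    rw [double_avg hs]
    have m1 := memLph hh (r := c * r) (by positivity) (c * z)
    have m2 := memLph hh (r := c * s) (by positivity) (c * w)
    have m0 := memLph hh (r := c) hc 0
    have e1 : cov[scaled h c r z, scaled h c s w; P] =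
        cov[h (c * r) (c * z), scaled h c s w; P] - cov[h c 0, scaled h c s w; P] := by
      have m3 : MemLp (scaled h c s w) 2 P := m2.sub m0
      exact covariance_fun_sub_left m1 m0 m3
    have e2 : cov[h (c * r) (c * z), scaled h c s w; P] =
        cov[h (c * r) (c * z), h (c * s) (c * w); P] - cov[h (c * r) (c * z), h c 0; P] :=
      covariance_fun_sub_right m1 m2 m0
    have e3 : cov[h c 0, scaled h c s w; P] =
        cov[h c 0, h (c * s) (c * w); P] - cov[h c 0, h c 0; P] :=
      covariance_fun_sub_right m0 m2 m0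
    rw [e1, e2, e3, covh hh (by positivity) (by positivity), covh hh (by positivity) hc,
      covh hh hc (by positivity), covh hh hc hc]
    have a1 := cA_scale hc r s hs z w
    have a2 : cA (c * r) (c * z) c 0 = log c + cN r z := by
      have := cA_scale hc r 1 one_pos z 0
      rwa [mul_one, mul_zero, cA_one] at this
    have a3 : cA c 0 (c * s) (c * w) = log c + cN s w := by
      rw [cA_symm hh hc (by positivity)]
      have := cA_scale hc s 1 one_pos w 0
      rwa [mul_one, mul_zero, cA_one] at this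
    have a4 : cA c 0 c 0 = log c := cA_self hc 0
    rw [a1, a2, a3, a4]
    ring

/-! ### Shifting the level -/

/-- the square `2⁻ⁿ S` -/
def sh (n : ℤ) (S : DSquare) : DSquare := ⟨S.n + n, S.i, S.j⟩

theorem side_sh (n : ℤ) (S : DSquare) : (sh n S).side = (2 : ℝ) ^ (-n) * S.side := by
  unfold sh side
  rw [← zpow_add₀ (by norm_num)]
  congr 1
  simp only
  ring

theorem center_sh (n : ℤ) (S : DSquare) :
    (sh n S).center = (((2 : ℝ) ^ (-n) : ℝ) : ℂ) * S.center := by
  unfold center
  rw [side_sh]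
  generalize (2 : ℝ) ^ (-n) = c
  apply Complex.ext
  · rw [Complex.re_ofReal_mul]; simp only [sh]; ring
  · rw [Complex.im_ofReal_mul]; simp only [sh]; ring

theorem anc_sh (n : ℤ) (k : ℕ) (S : DSquare) : anc k (sh n S) = sh n (anc k S) := by
  unfold anc sh
  ext
  · simp only; ring
  · rfl
  · rfl

theorem sh_inj (n : ℤ) : Function.Injective (sh n) := by
  intro S T h
  have h1 := congrArg DSquare.n h
  have h2 := congrArg DSquare.i h
  have h3 := congrArg DSquare.j h
  simp only [sh] at h1 h2 h3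
  ext
  · omega
  · exact h2
  · exact h3

theorem sh_sh (n : ℤ) (S : DSquare) : sh n (sh (-n) S) = S := by
  unfold sh
  ext
  · simp
  · rfl
  · rfl

/-- the shift of the threshold -/
noncomputable def WW (Q : ℝ) (h : ℝ → ℂ → Ω → ℝ) (n : ℕ) (ω : Ω) : ℝ :=
  h ((2 : ℝ) ^ (-(n : ℤ))) 0 ω - Q * n * log 2

omit [MeasurableSpace Ω] in
theorem fld_sh (Q : ℝ) (h : ℝ → ℂ → Ω → ℝ) (n : ℕ) (ω : Ω) (S : DSquare) :
    fld Q h ω (sh n S) = fld Q (scaled h ((2 : ℝ) ^ (-(n : ℤ)))) ω S + WW Q h n ω := by
  unfold fld sqv scaled WW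
  rw [center_sh, side_sh]
  have e : (2 : ℝ) ^ (-(n : ℤ)) * S.side / 2 = (2 : ℝ) ^ (-(n : ℤ)) * (S.side / 2) := by ring
  rw [e]
  have e2 : ((sh (n : ℤ) S).n : ℝ) = S.n + n := by simp [sh]
  rw [e2]
  ring

omit [MeasurableSpace Ω] in
theorem tiles_sh (Q : ℝ) (h : ℝ → ℂ → Ω → ℝ) (n : ℕ) (ω : Ω) (u : ℝ) (S : DSquare) :
    S ∈ tiles (fld Q (scaled h ((2 : ℝ) ^ (-(n : ℤ)))) ω) (u - WW Q h n ω) ↔
      sh n S ∈ tiles (fld Q h ω) u := by
  rw [mem_tiles, mem_tiles, fld_sh]
  simp_rw [anc_sh, fld_sh]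
  constructor
  · rintro ⟨h1, h2⟩
    exact ⟨by linarith, fun k hk => by have := h2 k hk; linarith⟩
  · rintro ⟨h1, h2⟩
    exact ⟨by linarith, fun k hk => by have := h2 k hk; linarith⟩

theorem cN_zero {c : ℝ} (hc : 0 < c) (hc1 : c ≤ 1) : cN c 0 = 0 := by
  refine le_antisymm (cN_le le_rfl fun x hx => ?_) (cN_nonneg _ _)
  rw [mem_sphere_iff_norm, abs_of_pos hc, sub_zero] at hx
  rw [hx, exp_zero]
  exact hc1

theorem var_WW (hh : IsGFF P h) (Q : ℝ) (n : ℕ) : Var[WW Q h n; P] = n * log 2 := by
  have hp := hh.gaussian.isProbabilityMeasure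
  have hc : (0 : ℝ) < (2 : ℝ) ^ (-(n : ℤ)) := by positivity
  have hc1 : (2 : ℝ) ^ (-(n : ℤ)) ≤ 1 := by
    rw [zpow_neg, zpow_natCast]
    exact inv_le_one_of_one_le₀ (one_le_pow₀ (by norm_num))
  have e : Var[WW Q h n; P] = Var[h ((2 : ℝ) ^ (-(n : ℤ))) 0; P] := by
    unfold WW
    exact variance_sub_const (hh.measurable _ _ hc).aestronglyMeasurable _
  rw [e, ← covariance_self (hh.measurable _ _ hc).aemeasurable, covh hh hc hc, cN_zero hc hc1,
    cA_self hc, zpow_neg_eq, log_exp]
  ring

theorem mean_WW (hh : IsGFF P h) (Q : ℝ) (n : ℕ) : ∫ ω, WW Q h n ω ∂P = -(Q * n * log 2) := by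
  have hp := hh.gaussian.isProbabilityMeasure
  have hc : (0 : ℝ) < (2 : ℝ) ^ (-(n : ℤ)) := by positivity
  unfold WW
  rw [integral_sub ((memLph hh hc _).integrable (by norm_num)) (integrable_const _),
    hh.mean _ _ hc, integral_const]
  simp

theorem measurable_WW (hh : IsGFF P h) (Q : ℝ) (n : ℕ) : Measurable (WW Q h n) :=
  (hh.measurable _ _ (by positivity)).sub_const _

theorem memLp_WW (hh : IsGFF P h) (Q : ℝ) (n : ℕ) : MemLp (WW Q h n) 2 P := by
  have hp := hh.gaussian.isProbabilityMeasure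
  exact (memLph hh (by positivity) _).sub (memLp_const _)

end Pool.Agent.Q216.GH
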