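import Pool.Agent.Q216.GH.Local

set_option autoImplicit false

/-!
# A local Gaussian variable which moves the root square only
-/

namespace Pool.Agent.Q216.GH

open MeasureTheory ProbabilityTheory Real Filter Topology
open Pool.Agent.Y980 Pool.Agent.Y980.DSquare
open scoped ENNReal

variable {Ω : Type*} [MeasurableSpace Ω] {P : Measure Ω} {h : ℝ → ℂ → Ω → ℝ}

theorem covh (hh : IsGFF P h) {r s : ℝ} (hr : 0 < r) (hs : 0 < s) (z w : ℂ) :
    cov[h r z, h s w; P] = cN r z + cN s w - cA r z s w := by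
  rw [hh.cov _ _ _ _ hr hs, double_avg hs]

theorem memLph (hh : IsGFF P h) {r : ℝ} (hr : 0 < r) (z : ℂ) : MemLp (h r z) 2 P :=
  (hh.gaussian.hasGaussianLaw_eval (⟨⟨r, hr⟩, z⟩ : Set.Ioi (0 : ℝ) × ℂ)).memLp_two

/-- centre of the bump -/
noncomputable def cz : ℂ := ⟨0, 1 / 2⟩

/-- the local variable -/
noncomputable def zeta (h : ℝ → ℂ → Ω → ℝ) (ω : Ω) : ℝ := h (1 / 20) cz ω - h (1 / 10) cz ω

theorem cN_cz {r : ℝ} (hr : 0 < r) (hr' : r ≤ 1 / 10) : cN r cz = 0 := by
  refine le_antisymm (cN_le le_rfl fun x hx => ?_) (cN_nonneg _ _)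
  rw [mem_sphere_iff_norm, abs_of_pos hr] at hx
  rw [exp_zero]
  have h1 : ‖cz‖ ≤ 1 / 2 := by
    apply norm_le_of_sq (by norm_num)
    simp [cz]
  have h2 : ‖x‖ ≤ ‖x - cz‖ + ‖cz‖ := by
    have := norm_add_le (x - cz) cz
    simpa using this
  rw [hx] at h2
  linarith

theorem cov_zeta (hh : IsGFF P h) {s : ℝ} (hs : 0 < s) (w : ℂ) :
    cov[h s w, zeta h; P] = cA s w (1 / 10) cz - cA s w (1 / 20) cz := by
  have hp := hh.gaussian.isProbabilityMeasure
  have e : cov[h s w, zeta h; P] = cov[h s w, h (1 / 20) cz; P] - cov[h s w, h (1 / 10) cz; P] := by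
    unfold zeta
    exact covariance_fun_sub_right (memLph hh hs w) (memLph hh (by norm_num) cz)
      (memLph hh (by norm_num) cz)
  rw [e, covh hh hs (by norm_num), covh hh hs (by norm_num), cN_cz (by norm_num) (by norm_num),
    cN_cz (by norm_num) (by norm_num)]
  ring

/-- the covariance vanishes for circles which stay away from `cz` -/
theorem cov_zeta_zero (hh : IsGFF P h) {s : ℝ} (hs : 0 < s) {w : ℂ}
    (hd : ∀ x ∈ Metric.sphere w |s|, 1 / 10 ≤ ‖x - cz‖) : cov[h s w, zeta h; P] = 0 := by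
  rw [cov_zeta hh hs]
  unfold cA
  have : Set.EqOn (fun x : ℂ => log (max (1 / 10) ‖x - cz‖))
      (fun x : ℂ => log (max (1 / 20) ‖x - cz‖)) (Metric.sphere w |s|) := by
    intro x hx
    have h1 := hd x hx
    simp only
    rw [max_eq_right h1, max_eq_right (by linarith)]
  rw [circleAverage_congr_sphere this, sub_self]

/-- the squares which matter: those inside `[1,2] × [0,1]` and the ancestors of the root -/
def UU (S : DSquare) : Prop :=
  (∃ n : ℕ, S.n = n ∧ InB n S.i S.j) ∨ ∃ k : ℕ, 0 < k ∧ S = ⟨-(k : ℤ), 0, 0⟩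

theorem cov_zeta_UU (hh : IsGFF P h) {S : DSquare} (hS : UU S) : cov[sqv h S, zeta h; P] = 0 := by
  refine cov_zeta_zero hh (half_pos' S) ?_
  rcases hS with ⟨n, hn, hin⟩ | ⟨k, hk, hS⟩
  · intro x hx
    have h1 := sphere_coord hx
    have e : S = ⟨n, S.i, S.j⟩ := by ext; exacts [hn, rfl, rfl]
    rw [e] at h1
    have h2 := (inB_subset hin h1).1
    have h3 := Complex.abs_re_le_norm (x - cz)
    have h4 : (x - cz).re = x.re := by simp [cz]
    rw [h4] at h3
    have h5 := le_abs_self x.re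
    linarith
  · intro x hx
    have hside : S.side = 2 ^ k := by
      rw [hS]; simp [side]
    set ρ : ℝ := 2 ^ k / 2 with hρ
    have hρ1 : 1 ≤ ρ := by
      rw [hρ, le_div_iff₀ (by norm_num)]
      have : (2 : ℝ) ^ 1 ≤ 2 ^ k := pow_le_pow_right₀ (by norm_num) hk
      linarith
    have hc : S.center = ⟨ρ, ρ⟩ := by
      unfold DSquare.center
      rw [hside, hS]
      simp only [Int.cast_zero, zero_add]
      rw [hρ]
      congr 1 <;> ring
    rw [hside, hc, mem_sphere_iff_norm, abs_of_pos (by positivity)] at hx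
    have h1 : ρ + 1 / 10 ≤ ‖(⟨ρ, ρ⟩ : ℂ) - cz‖ := by
      have e : ‖(⟨ρ, ρ⟩ : ℂ) - cz‖ ^ 2 = ρ ^ 2 + (ρ - 1 / 2) ^ 2 := by
        rw [← Complex.normSq_eq_norm_sq, Complex.normSq_apply]
        simp [cz]
        ring
      refine le_of_sq_le_sq ?_ (norm_nonneg _)
      rw [e]
      nlinarith
    have h2 : ‖(⟨ρ, ρ⟩ : ℂ) - cz‖ ≤ ‖x - (⟨ρ, ρ⟩ : ℂ)‖ + ‖x - cz‖ := by
      have := norm_sub_le (x - cz) (x - (⟨ρ, ρ⟩ : ℂ))
      have e : x - cz - (x - (⟨ρ, ρ⟩ : ℂ)) = (⟨ρ, ρ⟩ : ℂ) - cz := by ring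
      rw [e] at this
      linarith
    rw [hx] at h2
    linarith

theorem cov_zeta_root (hh : IsGFF P h) : 0 < cov[sqv h ⟨0, 0, 0⟩, zeta h; P] := by
  unfold sqv
  rw [cov_zeta hh (half_pos' _)]
  unfold cA
  have h1 : Continuous (fun x : ℂ => log (max (1 / 10) ‖x - cz‖)) :=
    continuous_logmax (by norm_num) cz
  have h2 : Continuous (fun x : ℂ => log (max (1 / 20) ‖x - cz‖)) :=
    continuous_logmax (by norm_num) cz
  rw [← circleAverage_fun_sub (ci_of_cont h1 _ _) (ci_of_cont h2 _ _)]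
  refine avg_pos (h1.sub h2) (fun x => ?_) π ⟨pi_pos.le, by linarith [pi_pos]⟩ ?_
  · change 0 ≤ log (max (1 / 10) ‖x - cz‖) - log (max (1 / 20) ‖x - cz‖)
    rw [sub_nonneg]
    exact log_le_log (lt_max_of_lt_left (by norm_num)) (max_le_max (by norm_num) le_rfl)
  · have e : circleMap (⟨0, 0, 0⟩ : DSquare).center ((⟨0, 0, 0⟩ : DSquare).side / 2) π = cz := by
      unfold circleMap DSquare.center side cz
      rw [Complex.exp_pi_mul_I]
      apply Complex.ext <;> simp
    rw [e]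
    change 0 < log (max (1 / 10) ‖cz - cz‖) - log (max (1 / 20) ‖cz - cz‖)
    rw [sub_self, norm_zero, sub_pos]
    apply log_lt_log (by norm_num)
    norm_num

theorem var_zeta (hh : IsGFF P h) : cov[zeta h, zeta h; P] = log 2 := by
  have hp := hh.gaussian.isProbabilityMeasure
  have e : cov[zeta h, zeta h; P] = cov[h (1 / 20) cz, zeta h; P] - cov[h (1 / 10) cz, zeta h; P] := by
    have := covariance_fun_sub_left (memLph hh (r := 1 / 20) (by norm_num) cz)
      (memLph hh (r := 1 / 10) (by norm_num) cz)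
      (Z := zeta h) ((memLph hh (r := 1 / 20) (by norm_num) cz).sub
        (memLph hh (r := 1 / 10) (by norm_num) cz))
    exact this
  rw [e, cov_zeta hh (by norm_num), cov_zeta hh (by norm_num)]
  have a1 : cA (1 / 10) cz (1 / 10) cz = log (1 / 10) := cA_self (by norm_num) cz
  have a2 : cA (1 / 20) cz (1 / 20) cz = log (1 / 20) := cA_self (by norm_num) cz
  have a3 : cA (1 / 20) cz (1 / 10) cz = log (1 / 10) := by
    unfold cA
    have : Set.EqOn (fun x : ℂ => log (max (1 / 10) ‖x - cz‖)) (fun _ => log (1 / 10))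
        (Metric.sphere cz |1 / 20|) := by
      intro x hx
      rw [mem_sphere_iff_norm, abs_of_pos (by norm_num)] at hx
      simp only
      rw [hx, max_eq_left (by norm_num)]
    rw [circleAverage_congr_sphere this, circleAverage_const]
  have a4 : cA (1 / 10) cz (1 / 20) cz = log (1 / 10) := by
    unfold cA
    have : Set.EqOn (fun x : ℂ => log (max (1 / 20) ‖x - cz‖)) (fun _ => log (1 / 10))
        (Metric.sphere cz |1 / 10|) := by
      intro x hx
      rw [mem_sphere_iff_norm, abs_of_pos (by norm_num)] at hx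
      simp only
      rw [hx, max_eq_right (by norm_num)]
    rw [circleAverage_congr_sphere this, circleAverage_const]
  rw [a1, a2, a3, a4]
  have e2 : log (1 / 20) = log (1 / 10) - log 2 := by
    rw [← log_div (by norm_num) (by norm_num)]; norm_num
  rw [e2]; ring

/-- regression coefficient -/
noncomputable def bb (P : Measure Ω) (h : ℝ → ℂ → Ω → ℝ) (S : DSquare) : ℝ :=
  cov[sqv h S, zeta h; P] / log 2

/-- residuals -/
noncomputable def ZZ (P : Measure Ω) (h : ℝ → ℂ → Ω → ℝ) (S : DSquare) (ω : Ω) : ℝ :=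
  sqv h S ω - bb P h S * zeta h ω

theorem memLp_zeta (hh : IsGFF P h) : MemLp (zeta h) 2 P :=
  (memLph hh (r := 1 / 20) (by norm_num) cz).sub (memLph hh (r := 1 / 10) (by norm_num) cz)

theorem cov_ZZ (hh : IsGFF P h) (S : DSquare) : cov[ZZ P h S, zeta h; P] = 0 := by
  have hp := hh.gaussian.isProbabilityMeasure
  have hl := log_two_pos
  have e : cov[ZZ P h S, zeta h; P] = cov[sqv h S, zeta h; P] -
      cov[fun ω => bb P h S * zeta h ω, zeta h; P] := by
    unfold ZZ
    exact covariance_fun_sub_left (memLph hh (half_pos' S) _) ((memLp_zeta hh).const_mul _)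
      (memLp_zeta hh)
  rw [e, covariance_const_mul_left, var_zeta hh]
  unfold bb
  field_simp
  ring

theorem measurable_zeta (hh : IsGFF P h) : Measurable (zeta h) :=
  (hh.measurable _ _ (by norm_num)).sub (hh.measurable _ _ (by norm_num))

theorem measurable_ZZ (hh : IsGFF P h) (S : DSquare) : Measurable (ZZ P h S) :=
  (measurable_sqv hh S).sub ((measurable_zeta hh).const_mul _)

/-- index of a circle -/
def ix (r : ℝ) (hr : 0 < r) (z : ℂ) : Set.Ioi (0 : ℝ) × ℂ := ⟨⟨r, hr⟩, z⟩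

theorem indep_zeta (hh : IsGFF P h) :
    IndepFun (fun ω (S : DSquare) => ZZ P h S ω) (fun ω (_ : Unit) => zeta h ω) P := by
  refine IsGaussianProcess.indepFun_of_covariance_eq_zero
    (X := fun S : DSquare => ZZ P h S) (Y := fun _ : Unit => zeta h) ?_
    (fun S => (measurable_ZZ hh S).aemeasurable) (fun _ => (measurable_zeta hh).aemeasurable)
    (fun S _ => cov_ZZ hh S)
  let F : DSquare ⊕ Unit → (Set.Ioi (0 : ℝ) × ℂ →₀ ℝ) := Sum.elim
    (fun S => Finsupp.single (ix (S.side / 2) (half_pos' S) S.center) 1 +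
      Finsupp.single (ix (1 / 20) (by norm_num) cz) (-bb P h S) +
      Finsupp.single (ix (1 / 10) (by norm_num) cz) (bb P h S))
    (fun _ => Finsupp.single (ix (1 / 20) (by norm_num) cz) 1 +
      Finsupp.single (ix (1 / 10) (by norm_num) cz) (-1))
  have h1 := (isGaussianProcess_lin hh.gaussian).comp_right F
  have e : (lin (fun p : Set.Ioi (0 : ℝ) × ℂ => h p.1 p.2) ∘ F) =
      Sum.elim (fun S : DSquare => ZZ P h S) (fun _ : Unit => zeta h) := by
    funext t ω
    rcases t with S | t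
    · simp only [Function.comp_apply, F, Sum.elim_inl, lin_add, lin_single, ix]
      unfold ZZ zeta sqv
      ring
    · simp only [Function.comp_apply, F, Sum.elim_inr, lin_add, lin_single, ix]
      unfold zeta
      ring
  rw [e] at h1
  exact h1

theorem law_zeta (hh : IsGFF P h) : HasGaussianLaw (zeta h) P := by
  have h1 := (isGaussianProcess_lin hh.gaussian).hasGaussianLaw_eval
    (Finsupp.single (ix (1 / 20) (by norm_num) cz) 1 +
      Finsupp.single (ix (1 / 10) (by norm_num) cz) (-1))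
  have e : lin (fun p : Set.Ioi (0 : ℝ) × ℂ => h p.1 p.2)
      (Finsupp.single (ix (1 / 20) (by norm_num) cz) 1 +
      Finsupp.single (ix (1 / 10) (by norm_num) cz) (-1)) = zeta h := by
    funext ω
    rw [lin_add, lin_single, lin_single]
    unfold zeta ix
    ring
  rw [e] at h1
  exact h1

theorem law_ZZ (hh : IsGFF P h) (S : DSquare) : HasGaussianLaw (ZZ P h S) P := by
  have h1 := (isGaussianProcess_lin hh.gaussian).hasGaussianLaw_eval
    (Finsupp.single (ix (S.side / 2) (half_pos' S) S.center) 1 +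
      Finsupp.single (ix (1 / 20) (by norm_num) cz) (-bb P h S) +
      Finsupp.single (ix (1 / 10) (by norm_num) cz) (bb P h S))
  have e : lin (fun p : Set.Ioi (0 : ℝ) × ℂ => h p.1 p.2)
      (Finsupp.single (ix (S.side / 2) (half_pos' S) S.center) 1 +
      Finsupp.single (ix (1 / 20) (by norm_num) cz) (-bb P h S) +
      Finsupp.single (ix (1 / 10) (by norm_num) cz) (bb P h S)) = ZZ P h S := by
    funext ω
    rw [lin_add, lin_add, lin_single, lin_single, lin_single]
    unfold ZZ zeta ix sqv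
    ring
  rw [e] at h1
  exact h1

/-- `P (ζ ≤ -z) > 0` -/
theorem zeta_pos (hh : IsGFF P h) (z : ℝ) : 0 < P {ω | zeta h ω ≤ -z} := by
  have hp := hh.gaussian.isProbabilityMeasure
  have h1 := (law_zeta hh).map_eq_gaussianReal
  have hm := measurable_zeta hh
  have hv : Var[zeta h; P] = log 2 := by
    rw [← covariance_self hm.aemeasurable, var_zeta hh]
  have h2 : P {ω | zeta h ω ≤ -z} = (P.map (zeta h)) (Set.Iic (-z)) := by
    rw [Measure.map_apply hm measurableSet_Iic]; rfl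
  rw [h2, h1, hv]
  have hne : (log 2).toNNReal ≠ 0 := by
    rw [Ne, Real.toNNReal_eq_zero, not_le]
    exact log_two_pos
  rw [pos_iff_ne_zero]
  intro h0
  have h3 := gaussianReal_absolutelyContinuous' (P[zeta h]) hne h0
  simp at h3

/-- tails of the residual of the root -/
theorem ZZ_tail (hh : IsGFF P h) (S : DSquare) :
    Tendsto (fun a : ℝ => P {ω | a < ZZ P h S ω}) atTop (𝓝 0) := by
  have hp := hh.gaussian.isProbabilityMeasure
  have h1 : Antitone (fun a : ℝ => {ω | a < ZZ P h S ω}) := by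
    intro a b hab ω hω
    exact lt_of_le_of_lt hab hω
  have h2 := tendsto_measure_iInter_atTop (μ := P) (s := fun a : ℝ => {ω | a < ZZ P h S ω})
    (fun a => (measurableSet_lt measurable_const (measurable_ZZ hh S)).nullMeasurableSet) h1
    ⟨0, measure_ne_top _ _⟩
  have h3 : ⋂ a : ℝ, {ω | a < ZZ P h S ω} = ∅ := by
    ext ω
    simp only [Set.mem_iInter, Set.mem_ofPred_eq, Set.mem_empty_iff_false, iff_false, not_forall,
      not_lt]
    exact ⟨ZZ P h S ω, le_rfl⟩
  rw [h3, measure_empty] at h2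
  exact h2

/-- the field of the residuals -/
noncomputable def fldZ (P : Measure Ω) (Q : ℝ) (h : ℝ → ℂ → Ω → ℝ) (ω : Ω) (S : DSquare) : ℝ :=
  ZZ P h S ω - Q * S.n * log 2

/-- **The root can be put below any level**, with a probability bounded below uniformly over all the
events which involve only the squares inside `[1,2] × [0,1]` and the ancestors of the root. -/
theorem joint_lower (hh : IsGFF P h) (Q C : ℝ) {q : ℝ≥0∞} (hq : 0 < q) (hq' : q ≠ ∞) :
    ∃ p₀ : ℝ≥0∞, 0 < p₀ ∧ ∀ A : Set (DSquare → ℝ), MeasurableSet A →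
      (∀ x y : DSquare → ℝ, (∀ S, UU S → x S = y S) → x ∈ A → y ∈ A) →
      q ≤ P {ω | fld Q h ω ∈ A} → p₀ ≤ P {ω | fld Q h ω ⟨0, 0, 0⟩ ≤ -C ∧ fld Q h ω ∈ A} := by
  have hp := hh.gaussian.isProbabilityMeasure
  set b := bb P h ⟨0, 0, 0⟩ with hb
  have hb0 : 0 < b := div_pos (cov_zeta_root hh) log_two_pos
  obtain ⟨a, ha⟩ : ∃ a : ℝ, P {ω | a < ZZ P h ⟨0, 0, 0⟩ ω} ≤ q / 2 := by
    have h1 : ∀ᶠ a in atTop, P {ω | a < ZZ P h ⟨0, 0, 0⟩ ω} ≤ q / 2 :=
      (ZZ_tail hh _).eventually_le_const (ENNReal.half_pos hq.ne')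
    exact h1.exists
  set z := (a + C) / b with hz
  refine ⟨P {ω | zeta h ω ≤ -z} * (q / 2), ENNReal.mul_pos (zeta_pos hh z).ne'
    (ENNReal.half_pos hq.ne').ne', ?_⟩
  intro A hA hloc hqA
  have hind := indep_zeta hh
  have hfZ : ∀ ω, fld Q h ω ∈ A ↔ fldZ P Q h ω ∈ A := by
    intro ω
    have : ∀ S, UU S → fld Q h ω S = fldZ P Q h ω S := by
      intro S hS
      unfold fld fldZ ZZ bb
      rw [cov_zeta_UU hh hS]
      simp
    exact ⟨hloc _ _ this, hloc _ _ (fun S hS => (this S hS).symm)⟩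
  -- the two independent events
  set B1 : Set (DSquare → ℝ) := {x | (fun S => x S - Q * S.n * log 2) ∈ A ∧ x ⟨0, 0, 0⟩ ≤ a} with hB1
  set B2 : Set (Unit → ℝ) := {y | y () ≤ -z} with hB2
  have hB1m : MeasurableSet B1 := by
    refine MeasurableSet.inter ?_ (measurableSet_le (measurable_pi_apply _) measurable_const)
    exact (measurable_pi_lambda _ fun S => (measurable_pi_apply S).sub_const _) hA
  have hB2m : MeasurableSet B2 := measurableSet_le (measurable_pi_apply _) measurable_const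
  have h1 := hind.measure_inter_preimage_eq_mul B1 B2 hB1m hB2m
  have h2 : (fun ω (S : DSquare) => ZZ P h S ω) ⁻¹' B1 ∩ (fun ω (_ : Unit) => zeta h ω) ⁻¹' B2 ⊆
      {ω | fld Q h ω ⟨0, 0, 0⟩ ≤ -C ∧ fld Q h ω ∈ A} := by
    rintro ω ⟨⟨g1, g2⟩, g3⟩
    simp only [hB2, Set.mem_ofPred_eq, Set.mem_preimage] at g1 g2 g3
    refine ⟨?_, (hfZ ω).2 g1⟩
    have e : sqv h ⟨0, 0, 0⟩ ω = ZZ P h ⟨0, 0, 0⟩ ω + b * zeta h ω := by
      unfold ZZ; rw [← hb]; ring
    unfold fld
    rw [e]
    have g4 : b * zeta h ω ≤ -(a + C) := by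
      have : b * zeta h ω ≤ b * -z := mul_le_mul_of_nonneg_left g3 hb0.le
      have e2 : b * -z = -(a + C) := by rw [hz]; field_simp
      linarith
    simp only [Int.cast_zero, mul_zero, zero_mul, sub_zero]
    linarith
  have h3 : q / 2 ≤ P ((fun ω (S : DSquare) => ZZ P h S ω) ⁻¹' B1) := by
    have h4 : {ω | fld Q h ω ∈ A} ⊆ ((fun ω (S : DSquare) => ZZ P h S ω) ⁻¹' B1) ∪
        {ω | a < ZZ P h ⟨0, 0, 0⟩ ω} := by
      intro ω hω
      rcases le_or_gt (ZZ P h ⟨0, 0, 0⟩ ω) a with g | g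
      · exact Or.inl ⟨(hfZ ω).1 hω, g⟩
      · exact Or.inr g
    have h5 := (hqA.trans (measure_mono h4)).trans (measure_union_le _ _)
    have h6 : q ≤ P ((fun ω (S : DSquare) => ZZ P h S ω) ⁻¹' B1) + q / 2 :=
      h5.trans (add_le_add_right ha _)
    have h7 : q / 2 + q / 2 ≤ P ((fun ω (S : DSquare) => ZZ P h S ω) ⁻¹' B1) + q / 2 := by
      rwa [ENNReal.add_halves]
    exact (ENNReal.add_le_add_iff_right (by
      exact (ENNReal.div_lt_top hq' (by norm_num)).ne)).1 h7
  calc P {ω | zeta h ω ≤ -z} * (q / 2)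
      ≤ P {ω | zeta h ω ≤ -z} * P ((fun ω (S : DSquare) => ZZ P h S ω) ⁻¹' B1) :=
        mul_le_mul_right h3 _
    _ = P ((fun ω (S : DSquare) => ZZ P h S ω) ⁻¹' B1 ∩
        (fun ω (_ : Unit) => zeta h ω) ⁻¹' B2) := by rw [h1, mul_comm]; rfl
    _ ≤ _ := measure_mono h2

end Pool.Agent.Q216.GH
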